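import Mathlib

/-! Galois closures, norms, determinants of norms and their relations. -/

set_option autoImplicit false

namespace TH951.NF

universe v w

/-- The Galois closure of a finite extension, with the product formula for norms. -/
theorem exists_gal_gen (F : Type v) [Field F] [CharZero F] (L : Type w) [Field L] [Algebra F L]
    [FiniteDimensional F L] :
    ∃ (M : Type w) (_ : Field M) (_ : Algebra F M), FiniteDimensional F M ∧ IsGalois F M ∧
      (∀ x : L, algebraMap F M (Algebra.norm F x) = ∏ e : L →ₐ[F] M, e x) ∧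
      Fintype.card (L →ₐ[F] M) = Module.finrank F L := by
  classical
  let Ω := AlgebraicClosure L
  haveI : Algebra.IsSeparable F L := inferInstance
  haveI : IsAlgClosure F Ω :=
    ⟨inferInstance, Algebra.IsAlgebraic.trans F L Ω⟩
  haveI : Normal F Ω := IsAlgClosure.normal F Ω
  let M := IntermediateField.normalClosure F L Ω
  refine ⟨M, inferInstance, inferInstance, inferInstance, ?_, ?_, ?_⟩
  · haveI : Normal F M := normalClosure.normal F L Ω
    haveI : Algebra.IsSeparable F M := inferInstance
    exact ⟨⟩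
  · intro x
    apply (algebraMap M Ω).injective
    rw [← IsScalarTower.algebraMap_apply, Algebra.norm_eq_prod_embeddings F Ω x, map_prod]
    exact (Fintype.prod_equiv (normalClosure.algHomEquiv F L Ω) _ _ (fun e => rfl)).symm
  · rw [Fintype.card_congr (normalClosure.algHomEquiv F L Ω), AlgHom.card]

section det

variable {F : Type v} [Field F] {L : Type w} [Field L] [Algebra F L] [FiniteDimensional F L]
  {M : Type w} [Field M] [Algebra F M]

open scoped Classical in
/-- the rank-one expansion of a norm -/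
theorem norm_expand (hN : ∀ x : L, algebraMap F M (Algebra.norm F x) = ∏ e : L →ₐ[F] M, e x)
    (x y : L) : algebraMap F M (Algebra.norm F (x - y)) =
      ∑ t : Finset (L →ₐ[F] M), (∏ e ∈ t, e x) * ∏ e ∈ tᶜ, (-(e y)) := by
  classical
  rw [hN, ← Fintype.prod_add]
  exact Finset.prod_congr rfl fun e _ => by rw [map_sub, sub_eq_add_neg]

theorem det_eq_zero (hN : ∀ x : L, algebraMap F M (Algebra.norm F x) = ∏ e : L →ₐ[F] M, e x)
    {m : ℕ} (hm : 2 ^ Fintype.card (L →ₐ[F] M) < m) (x y : Fin m → L) :
    (Matrix.of fun a b => Algebra.norm F (x a - y b)).det = 0 := by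
  classical
  apply (algebraMap F M).injective
  rw [map_zero, RingHom.map_det]
  by_contra hcon
  set A : Matrix (Fin m) (Finset (L →ₐ[F] M)) M := Matrix.of fun a t => ∏ e ∈ t, e (x a) with hA
  set B : Matrix (Finset (L →ₐ[F] M)) (Fin m) M := Matrix.of fun t b => ∏ e ∈ tᶜ, (-(e (y b)))
    with hB
  have h1 : (algebraMap F M).mapMatrix (Matrix.of fun a b => Algebra.norm F (x a - y b)) =
      A * B := by
    ext a b
    rw [RingHom.mapMatrix_apply, Matrix.map_apply, Matrix.of_apply, norm_expand hN,
      Matrix.mul_apply]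
    rfl
  rw [h1] at hcon
  have h2 : (A * B).rank = m := by
    rw [Matrix.rank_of_isUnit]
    · simp
    · rw [Matrix.isUnit_iff_isUnit_det]
      exact isUnit_iff_ne_zero.2 hcon
  have h3 := (Matrix.rank_mul_le_left A B).trans (Matrix.rank_le_card_width A)
  rw [Fintype.card_finset, h2] at h3
  omega

end det


/-- The Galois closure of a number field. -/
theorem exists_gal (L : Type w) [Field L] [NumberField L] :
    ∃ (M : Type w) (_ : Field M) (_ : NumberField M), IsGalois ℚ M ∧
      (∀ x : L, algebraMap ℚ M (Algebra.norm ℚ x) = ∏ e : L →ₐ[ℚ] M, e x) ∧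
      Fintype.card (L →ₐ[ℚ] M) = Module.finrank ℚ L := by
  obtain ⟨M, i1, i2, hfin, hgal, hnorm, hcard⟩ := exists_gal_gen ℚ L
  haveI : CharZero M := charZero_of_injective_algebraMap (algebraMap ℚ M).injective
  have h : i2 = DivisionRing.toRatAlgebra := Subsingleton.elim _ _
  subst h
  exact ⟨M, i1, ⟨⟩, hgal, hnorm, hcard⟩

/-- a maximal non-vanishing minor -/
theorem exists_minor {M 𝒯 J : Type*} [Field M] [Fintype 𝒯] (V : 𝒯 → J → M) :
    ∃ (ρ : ℕ) (R : Fin ρ → 𝒯) (C : Fin ρ → J), ρ ≤ Fintype.card 𝒯 ∧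
      (Matrix.of fun a b => V (R a) (C b)).det ≠ 0 ∧
      ∀ t j, V t j * (Matrix.of fun a b => V (R a) (C b)).det = ∑ b : Fin ρ, V t (C b) *
        ((-1) ^ (b : ℕ) * (Matrix.of fun a b' => V (R a)
          (Fin.cons (α := fun _ => J) j C (b.succ.succAbove b'))).det) := by
  classical
  let P : ℕ → Prop := fun ρ => ∃ (R : Fin ρ → 𝒯) (C : Fin ρ → J),
    (Matrix.of fun a b => V (R a) (C b)).det ≠ 0
  have hP0 : P 0 := ⟨fun a => a.elim0, fun a => a.elim0, by simp⟩
  have hPc : ∀ ρ, P ρ → ρ ≤ Fintype.card 𝒯 := by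
    rintro ρ ⟨R, C, h⟩
    have hR : Function.Injective R := by
      intro a b hab
      by_contra hne
      apply h
      exact Matrix.det_zero_of_row_eq hne (by ext c; simp [Matrix.of_apply, hab])
    simpa using Fintype.card_le_of_injective R hR
  set ρ := Nat.findGreatest P (Fintype.card 𝒯) with hρ
  have hPρ : P ρ := Nat.findGreatest_spec (Nat.zero_le _) hP0
  obtain ⟨R, C, h⟩ := hPρ
  refine ⟨ρ, R, C, Nat.findGreatest_le _, h, ?_⟩
  intro t j
  have h1 : ¬ P (ρ + 1) := by
    intro h2
    have h3 := Nat.le_findGreatest (hPc _ h2) h2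
    omega
  have h2 : (Matrix.of fun a b => V (Fin.cons (α := fun _ => 𝒯) t R a)
      (Fin.cons (α := fun _ => J) j C b)).det = 0 := by
    by_contra hcon
    exact h1 ⟨_, _, hcon⟩
  rw [Matrix.det_succ_row_zero, Fin.sum_univ_succ] at h2
  have h3 : (Matrix.of fun a b => V (Fin.cons (α := fun _ => 𝒯) t R a)
      (Fin.cons (α := fun _ => J) j C b)).submatrix Fin.succ (Fin.succAbove 0) =
      Matrix.of fun a b => V (R a) (C b) := by
    ext a b
    simp
  rw [h3] at h2
  simp only [Fin.val_zero, pow_zero, one_mul, Matrix.of_apply, Fin.cons_zero, Fin.val_succ,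
    Fin.cons_succ] at h2
  rw [add_eq_zero_iff_eq_neg] at h2
  rw [h2, ← Finset.sum_neg_distrib]
  refine Finset.sum_congr rfl fun b _ => ?_
  have h4 : (Matrix.of fun a b => V (Fin.cons (α := fun _ => 𝒯) t R a)
      (Fin.cons (α := fun _ => J) j C b)).submatrix Fin.succ (Fin.succAbove b.succ) =
      Matrix.of fun a b' => V (R a) (Fin.cons (α := fun _ => J) j C (b.succ.succAbove b')) := by
    ext a b
    simp
  rw [h4, pow_succ]
  ring

section two

variable {F : Type v} [Field F] {L : Type w} [Field L] [Algebra F L] [FiniteDimensional F L]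
  {M : Type w} [Field M] [Algebra F M]

/-- the coordinates of `y` -/
noncomputable def co (M : Type w) [Field M] [Algebra F M] (t : Finset (L →ₐ[F] M)) (y : L) : M :=
  ∏ e ∈ t, (-(e y))

open scoped Classical in
theorem norm_expand' (hN : ∀ x : L, algebraMap F M (Algebra.norm F x) = ∏ e : L →ₐ[F] M, e x)
    (x y : L) : algebraMap F M (Algebra.norm F (x - y)) =
      ∑ t : Finset (L →ₐ[F] M), co M t y * ∏ e ∈ tᶜ, e x := by
  classical
  unfold co
  rw [hN, ← Fintype.prod_add]
  exact Finset.prod_congr rfl fun e _ => by rw [map_sub, neg_add_eq_sub]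

/-- the action of the Galois group on embeddings -/
def act (g : M ≃ₐ[F] M) : (L →ₐ[F] M) ↪ (L →ₐ[F] M) :=
  ⟨fun e => (g : M →ₐ[F] M).comp e, fun e e' h => by
    ext y
    have := congrArg (fun f : L →ₐ[F] M => f y) h
    simpa using this⟩

theorem act_act (g : M ≃ₐ[F] M) (t : Finset (L →ₐ[F] M)) :
    (t.map (act g.symm)).map (act g) = t := by
  classical
  ext e
  simp only [Finset.mem_map]
  constructor
  · rintro ⟨_, ⟨e', he', rfl⟩, rfl⟩
    have : act g (act g.symm e') = e' := by
      ext y; simp [act]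
    rwa [this]
  · intro he
    refine ⟨act g.symm e, ⟨e, he, rfl⟩, ?_⟩
    ext y; simp [act]

theorem co_map (g : M ≃ₐ[F] M) (t : Finset (L →ₐ[F] M)) (y : L) :
    co M (t.map (act g)) y = g (co M t y) := by
  unfold co
  rw [Finset.prod_map, map_prod]
  refine Finset.prod_congr rfl fun e _ => ?_
  rw [map_neg]
  rfl


end two

end TH951.NF
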