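import Mathlib

/-! Heights on number fields. -/

set_option autoImplicit false

open Height NumberField Module

namespace TH951.NF

universe w

section

variable {M : Type w} [Field M] [NumberField M]

/-- finitely many places which compute the heights of finitely many elements -/
theorem exists_places (X : Finset M) (hX : ∀ x ∈ X, x ≠ 0) :
    ∃ (I : Type w) (_ : Fintype I) (v : I → AbsoluteValue M ℝ) (ε : I → ℝ), (∀ i, 0 ≤ ε i) ∧
      (∀ i x y, v i (x + y) ≤ Real.exp (ε i) * max (v i x) (v i y)) ∧
      (∑ i, ε i = finrank ℚ M * Real.log 2) ∧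
      (∀ x ∈ X, ∑ i, Real.log (v i x) = 0) ∧
      ∀ x ∈ X, logHeight₁ x = ∑ i, max (Real.log (v i x)) 0 := by
  classical
  have hfin : ∀ x : X, (Function.mulSupport (fun v : FinitePlace M => v x.1)).Finite := fun x =>
    FinitePlace.hasFiniteMulSupport (hX x.1 x.2)
  set T : Finset (FinitePlace M) := Finset.univ.biUnion fun x : X => (hfin x).toFinset with hT
  have hTx : ∀ x ∈ X, ∀ v : FinitePlace M, v ∉ T → v x = 1 := by
    intro x hx v hv
    by_contra h
    apply hv
    rw [hT, Finset.mem_biUnion]
    exact ⟨⟨x, hx⟩, Finset.mem_univ _, by simpa using h⟩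
  let I := (Σ w : InfinitePlace M, Fin w.mult) ⊕ T
  have hsum : ∀ f : AbsoluteValue M ℝ → ℝ, ∀ g : AbsoluteValue M ℝ → ℝ,
      ∑ i : I, Sum.elim (fun p : (Σ w : InfinitePlace M, Fin w.mult) => f p.1.val)
        (fun p : T => g p.1.val) i =
      ∑ w : InfinitePlace M, w.mult * f w.val + ∑ w ∈ T, g w.val := by
    intro f g
    rw [Fintype.sum_sum_type]
    congr 1
    · simp only [Sum.elim_inl]
      rw [Fintype.sum_sigma]
      refine Finset.sum_congr rfl fun w _ => ?_
      change ∑ _y : Fin w.mult, f w.val = _
      rw [Finset.sum_const, Finset.card_univ, Fintype.card_fin, nsmul_eq_mul]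
    · simp only [Sum.elim_inr]
      exact Finset.sum_coe_sort T (fun w => g w.val)
  refine ⟨I, inferInstance, Sum.elim (fun p => p.1.val) (fun p => p.1.val),
    Sum.elim (fun _ => Real.log 2) (fun _ => 0), ?_, ?_, ?_, ?_, ?_⟩
  · rintro (p | p)
    · exact Real.log_nonneg (by norm_num)
    · exact le_rfl
  · rintro (p | p) x y
    · simp only [Sum.elim_inl]
      rw [Real.exp_log (by norm_num)]
      refine (p.1.val.add_le x y).trans ?_
      rw [two_mul]
      exact add_le_add (le_max_left _ _) (le_max_right _ _)
    · simp only [Sum.elim_inr, Real.exp_zero, one_mul]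
      exact FinitePlace.add_le p.1 x y
  · have h1 := hsum (fun _ => Real.log 2) (fun _ => 0)
    rw [h1, Finset.sum_const_zero, add_zero, ← Finset.sum_mul]
    congr 1
    rw [← InfinitePlace.sum_mult_eq]
    push_cast
    rfl
  · intro x hx
    have h1 := hsum (fun v => Real.log (v x)) (fun v => Real.log (v x))
    have h2 : ∑ i : I, Real.log ((Sum.elim (fun p : (Σ w : InfinitePlace M, Fin w.mult) => p.1.val)
        (fun p : T => p.1.val) i : AbsoluteValue M ℝ) x) =
        ∑ w : InfinitePlace M, w.mult * Real.log (w.val x) + ∑ w ∈ T, Real.log (w.val x) := by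
      rw [← h1]
      refine Finset.sum_congr rfl ?_
      rintro (p | p) _ <;> rfl
    rw [h2]
    have h3 := prod_abs_eq_one (K := M) (hX x hx)
    have h4 : ∏ᶠ w : FinitePlace M, w x = ∏ w ∈ T, w x := by
      apply finprod_eq_prod_of_mulSupport_subset
      intro v hv
      by_contra h
      exact hv (hTx x hx v h)
    rw [h4] at h3
    have h5 := congrArg Real.log h3
    have hp1 : ∀ w : InfinitePlace M, w x ≠ 0 := fun w => by
      have := w.val.ne_zero (hX x hx)
      exact this
    have hp2 : ∀ w : FinitePlace M, w x ≠ 0 := fun w => by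
      have := w.val.ne_zero (hX x hx)
      exact this
    rw [Real.log_mul (Finset.prod_ne_zero_iff.2 fun w _ => pow_ne_zero _ (hp1 w))
      (Finset.prod_ne_zero_iff.2 fun w _ => hp2 w), Real.log_prod (fun w _ => pow_ne_zero _ (hp1 w)),
      Real.log_prod (fun w _ => hp2 w), Real.log_one] at h5
    rw [← h5]
    congr 1
    refine Finset.sum_congr rfl fun w _ => ?_
    rw [Real.log_pow]
    rfl
  · intro x hx
    have h1 := hsum (fun v => max (Real.log (v x)) 0) (fun v => max (Real.log (v x)) 0)
    have h2 : ∑ i : I, max (Real.log ((Sum.elim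
        (fun p : (Σ w : InfinitePlace M, Fin w.mult) => p.1.val)
        (fun p : T => p.1.val) i : AbsoluteValue M ℝ) x)) 0 =
        ∑ w : InfinitePlace M, w.mult * max (Real.log (w.val x)) 0 +
          ∑ w ∈ T, max (Real.log (w.val x)) 0 := by
      rw [← h1]
      refine Finset.sum_congr rfl ?_
      rintro (p | p) _ <;> rfl
    rw [h2, NumberField.logHeight₁_eq]
    congr 1
    · refine Finset.sum_congr rfl fun w _ => ?_
      rw [Real.posLog, max_comm]
      rfl
    · rw [finsum_eq_sum_of_support_subset (s := T)]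
      · refine Finset.sum_congr rfl fun w _ => ?_
        rw [Real.posLog, max_comm]
        rfl
      · intro v hv
        by_contra h
        apply hv
        change Real.posLog (v x) = 0
        rw [hTx x hx v h]
        simp

/-- the normalised height -/
noncomputable def ht (x : M) : ℝ := logHeight₁ x / finrank ℚ M

theorem deg_pos : (0 : ℝ) < finrank ℚ M := by
  exact_mod_cast (Module.finrank_pos : 0 < finrank ℚ M)

theorem ht_nonneg (x : M) : 0 ≤ ht x := div_nonneg (zero_le_logHeight₁ x) deg_pos.le

theorem ht_mul (x y : M) : ht (x * y) ≤ ht x + ht y := by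
  unfold ht
  rw [← add_div]
  exact div_le_div_of_nonneg_right (logHeight₁_mul_le x y) deg_pos.le

theorem ht_inv (x : M) : ht x⁻¹ = ht x := by
  unfold ht; rw [logHeight₁_inv]

theorem ht_neg (x : M) : ht (-x) = ht x := by
  unfold ht; rw [logHeight₁_neg]

theorem ht_div (x y : M) : ht (x / y) ≤ ht x + ht y := by
  rw [div_eq_mul_inv, ← ht_inv y]
  exact ht_mul _ _

theorem ht_zero : ht (0 : M) = 0 := by
  unfold ht; simp

theorem ht_one : ht (1 : M) = 0 := by
  unfold ht; simp

theorem ht_sum {α : Type*} (s : Finset α) (x : α → M) :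
    ht (∑ a ∈ s, x a) ≤ Real.log s.card + ∑ a ∈ s, ht (x a) := by
  unfold ht
  rw [← Finset.sum_div, ← mul_div_cancel_left₀ (Real.log s.card) (deg_pos (M := M)).ne',
    ← add_div]
  refine div_le_div_of_nonneg_right ?_ deg_pos.le
  have h := logHeight₁_sum_le s x
  rwa [totalWeight_eq_finrank] at h

theorem ht_add (x y : M) : ht (x + y) ≤ Real.log 2 + ht x + ht y := by
  have h := ht_sum (Finset.univ : Finset (Fin 2)) ![x, y]
  simpa [add_assoc] using h

theorem ht_sub (x y : M) : ht (x - y) ≤ Real.log 2 + ht x + ht y := by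
  rw [sub_eq_add_neg, ← ht_neg y]
  exact ht_add _ _

theorem ht_prod {α : Type*} (s : Finset α) (x : α → M) :
    ht (∏ a ∈ s, x a) ≤ ∑ a ∈ s, ht (x a) := by
  unfold ht
  rw [← Finset.sum_div]
  exact div_le_div_of_nonneg_right (logHeight₁_prod_le s x) deg_pos.le

/-- the height of a rational number -/
theorem ht_rat (q : ℚ) : ht (algebraMap ℚ M q) = logHeight₁ q := by
  have h0 : algebraMap ℚ M q = ((q.num : ℤ) : M) / ((q.den : ℤ) : M) := by
    conv_lhs => rw [← Rat.num_div_den q]
    rw [map_div₀]
    simp
  have hden : ((q.den : ℤ) : M) ≠ 0 := by exact_mod_cast q.den_ne_zero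
  have hne : (![((q.num : ℤ) : M), ((q.den : ℤ) : M)] : Fin 2 → M) ≠ 0 := by
    intro h
    have := congrFun h 1
    simp at this
  have h1 : mulHeight₁ (algebraMap ℚ M q) =
      ((max q.num.natAbs q.den : ℕ) : ℝ) ^ finrank ℚ M := by
    rw [h0, mulHeight₁_div_eq_mulHeight, NumberField.mulHeight_eq hne]
    have h2 : ∀ v : InfinitePlace M, ⨆ i, v ((![((q.num : ℤ) : M), ((q.den : ℤ) : M)] :
        Fin 2 → M) i) = ((max q.num.natAbs q.den : ℕ) : ℝ) := by
      intro v
      have h3 : ∀ z : ℤ, v (z : M) = ((z.natAbs : ℕ) : ℝ) := by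
        intro z
        rw [← InfinitePlace.norm_embedding_eq v, map_intCast, Complex.norm_intCast,
          Nat.cast_natAbs, Int.cast_abs]
      apply le_antisymm
      · refine ciSup_le fun i => ?_
        fin_cases i
        · change v ((q.num : ℤ) : M) ≤ _
          rw [h3]
          exact_mod_cast le_max_left _ _
        · change v ((q.den : ℤ) : M) ≤ _
          rw [h3]
          exact_mod_cast le_max_right _ _
      · rw [Nat.cast_max]
        refine max_le ?_ ?_
        · refine le_trans (le_of_eq ?_) (le_ciSup (Set.finite_range _).bddAbove (0 : Fin 2))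
          change _ = v ((q.num : ℤ) : M)
          rw [h3]
        · refine le_trans (le_of_eq ?_) (le_ciSup (Set.finite_range _).bddAbove (1 : Fin 2))
          change _ = v ((q.den : ℤ) : M)
          rw [h3]
          rfl
    have h3 : ∀ v : FinitePlace M, ⨆ i, v ((![((q.num : ℤ) : M), ((q.den : ℤ) : M)] :
        Fin 2 → M) i) = 1 := by
      intro v
      have hv : IsNonarchimedean v := FinitePlace.add_le v
      have h4 : ∀ z : ℤ, v (z : M) ≤ 1 := fun z => IsNonarchimedean.apply_intCast_le_one hv
      have hle : ∀ i, v ((![((q.num : ℤ) : M), ((q.den : ℤ) : M)] : Fin 2 → M) i) ≤ 1 := by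
        intro i
        fin_cases i
        · exact h4 _
        · exact h4 _
      apply le_antisymm
      · exact ciSup_le hle
      · have hcop : IsCoprime q.num (q.den : ℤ) := by
          rw [Int.isCoprime_iff_nat_coprime]
          simpa using q.reduced
        obtain ⟨a, b, hab⟩ := hcop
        have h5 : v (((a * q.num + b * q.den : ℤ)) : M) = 1 := by
          rw [hab]; simp
        have h6 : v (((a * q.num + b * q.den : ℤ)) : M) ≤
            max (v ((q.num : ℤ) : M)) (v ((q.den : ℤ) : M)) := by
          push_cast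
          refine (hv _ _).trans (max_le_max ?_ ?_)
          · rw [map_mul]
            exact mul_le_of_le_one_left (by positivity) (h4 _)
          · rw [map_mul]
            exact mul_le_of_le_one_left (by positivity) (h4 _)
        rw [h5] at h6
        refine h6.trans (max_le ?_ ?_)
        · exact le_ciSup (f := fun i => v ((![((q.num : ℤ) : M), ((q.den : ℤ) : M)] :
            Fin 2 → M) i)) (Set.finite_range _).bddAbove (0 : Fin 2)
        · exact le_ciSup (f := fun i => v ((![((q.num : ℤ) : M), ((q.den : ℤ) : M)] :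
            Fin 2 → M) i)) (Set.finite_range _).bddAbove (1 : Fin 2)
    simp only [h2, h3, finprod_one, mul_one]
    rw [Finset.prod_pow_eq_pow_sum, InfinitePlace.sum_mult_eq]
  unfold ht
  rw [logHeight₁_eq_log_mulHeight₁, h1, Real.log_pow, Rat.logHeight₁_eq_log_max]
  rw [mul_div_cancel_left₀ _ deg_pos.ne']

end

end TH951.NF
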