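import Mathlib
import Pool.Agent.TH951.NF.Hts
import Pool.Agent.TH951.NF.Gal

/-! The absolute height of an element whose conjugates have bounded heights. -/

set_option autoImplicit false

open Height NumberField Module

namespace TH951.NF

universe w

theorem abv_sum_le {M : Type*} [Field M] (v : AbsoluteValue M ℝ) (ε : ℝ) (hε : 0 ≤ ε)
    (hv : ∀ x y, v (x + y) ≤ Real.exp ε * max (v x) (v y)) {α : Type*} (s : Finset α) (x : α → M)
    (B : ℝ) (hB0 : 0 ≤ B) (hB : ∀ a ∈ s, v (x a) ≤ B) :
    v (∑ a ∈ s, x a) ≤ Real.exp (s.card * ε) * B := by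
  classical
  induction s using Finset.induction_on with
  | empty => simpa using hB0
  | insert a s ha ih =>
    rw [Finset.sum_insert ha, Finset.card_insert_of_notMem ha]
    refine (hv _ _).trans ?_
    have h1 : Real.exp (((s.card + 1 : ℕ) : ℝ) * ε) = Real.exp ε * Real.exp (s.card * ε) := by
      rw [← Real.exp_add]; congr 1; push_cast; ring
    rw [h1, mul_assoc]
    refine mul_le_mul_of_nonneg_left (max_le ?_ ?_) (Real.exp_pos _).le
    · refine (hB a (Finset.mem_insert_self a s)).trans ?_
      have : 1 ≤ Real.exp (s.card * ε) := Real.one_le_exp (by positivity)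
      nlinarith
    · exact ih fun b hb => hB b (Finset.mem_insert_of_mem hb)

/-- the height of a root of a monic polynomial with rational coefficients -/
theorem root_bound {M : Type w} [Field M] [NumberField M] (y : M) (d : ℕ) (q : ℕ → ℚ)
    (hq : q 0 = 1) (h : ∑ k ∈ Finset.range (d + 1), algebraMap ℚ M (q k) * y ^ (d - k) = 0) :
    ht y ≤ d * Real.log 2 + ∑ k ∈ Finset.range (d + 1), logHeight₁ (q k) := by
  classical
  by_cases hy : y = 0
  · subst hy
    rw [ht_zero]
    have h1 : 0 ≤ ∑ k ∈ Finset.range (d + 1), logHeight₁ (q k) :=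
      Finset.sum_nonneg fun k _ => zero_le_logHeight₁ _
    have h2 : 0 ≤ (d : ℝ) * Real.log 2 := by positivity
    linarith
  have hd : d ≠ 0 := by
    intro hd
    subst hd
    simp [hq] at h
  obtain ⟨I, _, v, ε, hε0, hε, hεs, hpf, hht⟩ := exists_places
    (insert y (((Finset.range (d + 1)).image fun k => algebraMap ℚ M (q k)).filter (· ≠ 0)))
    (by
      intro x hx
      rcases Finset.mem_insert.1 hx with rfl | hx
      · exact hy
      · exact (Finset.mem_filter.1 hx).2)
  have hq' : ∀ k ∈ Finset.range (d + 1), logHeight₁ (algebraMap ℚ M (q k)) =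
      ∑ i, max (Real.log (v i (algebraMap ℚ M (q k)))) 0 := by
    intro k hk
    by_cases h0 : algebraMap ℚ M (q k) = 0
    · rw [h0]; simp
    · exact hht _ (Finset.mem_insert_of_mem (Finset.mem_filter.2
        ⟨Finset.mem_image.2 ⟨k, hk, rfl⟩, h0⟩))
  have hloc : ∀ i, max (Real.log (v i y)) 0 ≤ d * ε i +
      ∑ k ∈ Finset.range (d + 1), max (Real.log (v i (algebraMap ℚ M (q k)))) 0 := by
    intro i
    set Q := ∑ k ∈ Finset.range (d + 1), max (Real.log (v i (algebraMap ℚ M (q k)))) 0 with hQ
    have hQ0 : 0 ≤ Q := Finset.sum_nonneg fun _ _ => le_max_right _ _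
    have hdε : 0 ≤ (d : ℝ) * ε i := mul_nonneg (by positivity) (hε0 i)
    refine max_le ?_ (by linarith)
    by_cases hv1 : v i y ≤ 1
    · exact (Real.log_nonpos ((v i).nonneg _) hv1).trans (by linarith)
    push Not at hv1
    have hvy : 0 < v i y := lt_trans one_pos hv1
    have h1 : y ^ d = -∑ k ∈ Finset.Icc 1 d, algebraMap ℚ M (q k) * y ^ (d - k) := by
      rw [Finset.sum_range_succ', hq, map_one, one_mul, Nat.sub_zero] at h
      rw [eq_neg_iff_add_eq_zero, add_comm, ← h]
      congr 1
      rw [Finset.range_eq_Ico, Finset.sum_Ico_add' (fun k => algebraMap ℚ M (q k) * y ^ (d - k)) 0 d 1]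
      rfl
    have h2 : v i y ^ d ≤ Real.exp (d * ε i) * (Real.exp Q * v i y ^ (d - 1)) := by
      rw [← map_pow, h1, map_neg_eq_map]
      refine (abv_sum_le (v i) (ε i) (hε0 i) (hε i) _ _ (Real.exp Q * v i y ^ (d - 1))
        (by positivity) ?_).trans (le_of_eq ?_)
      · intro k hk
        rw [Finset.mem_Icc] at hk
        rw [map_mul, map_pow]
        refine mul_le_mul ?_ (pow_le_pow_right₀ hv1.le (by omega)) (by positivity) (by positivity)
        have h3 : max (Real.log (v i (algebraMap ℚ M (q k)))) 0 ≤ Q :=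
          Finset.single_le_sum (f := fun k => max (Real.log (v i (algebraMap ℚ M (q k)))) 0)
            (fun _ _ => le_max_right _ _) (Finset.mem_range.2 (by omega))
        by_cases h0 : v i (algebraMap ℚ M (q k)) = 0
        · rw [h0]; positivity
        · have h4 : 0 < v i (algebraMap ℚ M (q k)) := lt_of_le_of_ne ((v i).nonneg _) (Ne.symm h0)
          rw [← Real.log_le_iff_le_exp h4]
          exact (le_max_left _ _).trans h3
      · rw [Nat.card_Icc]; simp
    have h3 : v i y ≤ Real.exp (d * ε i) * Real.exp Q := by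
      have h4 : v i y ^ d = v i y ^ (d - 1) * v i y := by
        rw [← pow_succ]; congr 1; omega
      have h5 : 0 < v i y ^ (d - 1) := by positivity
      rw [h4] at h2
      have h6 : v i y ^ (d - 1) * v i y ≤ v i y ^ (d - 1) * (Real.exp (d * ε i) * Real.exp Q) := by
        linarith
      exact le_of_mul_le_mul_left h6 h5
    rw [← Real.exp_add] at h3
    rwa [Real.log_le_iff_le_exp hvy]
  have h1 : logHeight₁ y ≤ d * (finrank ℚ M * Real.log 2) +
      ∑ k ∈ Finset.range (d + 1), logHeight₁ (algebraMap ℚ M (q k)) := by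
    rw [hht y (Finset.mem_insert_self _ _), Finset.sum_congr rfl hq', Finset.sum_comm, ← hεs,
      Finset.mul_sum, ← Finset.sum_add_distrib]
    exact Finset.sum_le_sum fun i _ => hloc i
  have h2 : ∑ k ∈ Finset.range (d + 1), logHeight₁ (algebraMap ℚ M (q k)) =
      finrank ℚ M * ∑ k ∈ Finset.range (d + 1), logHeight₁ (q k) := by
    rw [Finset.mul_sum]
    refine Finset.sum_congr rfl fun k _ => ?_
    rw [← ht_rat (M := M) (q k), ht, mul_div_cancel₀ _ deg_pos.ne']
  rw [h2] at h1
  unfold ht
  rw [div_le_iff₀ deg_pos]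
  linarith

/-- the absolute height of an element with conjugates of bounded height -/
theorem abs_height {L : Type w} [Field L] [NumberField L] {M : Type w} [Field M] [NumberField M]
    [IsGalois ℚ M] (hcard : Fintype.card (L →ₐ[ℚ] M) = finrank ℚ L) {r : ℕ}
    (hr : finrank ℚ L ≤ r) (y : L) (B : ℝ) (hB : ∀ e : L →ₐ[ℚ] M, ht (e y) ≤ B) :
    absLogHeight₁ y ≤ r * Real.log 2 + (r + 1) * (r * Real.log 2 + 2 ^ r * (r * B)) := by
  classical
  set d := finrank ℚ L with hd
  have hdpos : 0 < d := Module.finrank_pos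
  obtain ⟨e0⟩ : Nonempty (L →ₐ[ℚ] M) := by
    rw [← Fintype.card_pos_iff, hcard]; exact hdpos
  have hB0 : 0 ≤ B := (ht_nonneg _).trans (hB e0)
  -- the elementary symmetric functions
  set c : ℕ → M := fun k => ∑ t ∈ (Finset.univ : Finset (Finset (L →ₐ[ℚ] M))).filter
    (fun t => t.card = k), co M t y with hc
  have hfix : ∀ k, ∀ g : M ≃ₐ[ℚ] M, g (c k) = c k := by
    intro k g
    simp only [hc]
    rw [map_sum]
    refine Finset.sum_nbij' (fun t => t.map (act g)) (fun t => t.map (act g.symm)) ?_ ?_ ?_ ?_ ?_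
    · intro t ht
      rw [Finset.mem_filter] at ht ⊢
      exact ⟨Finset.mem_univ _, by rw [Finset.card_map]; exact ht.2⟩
    · intro t ht
      rw [Finset.mem_filter] at ht ⊢
      exact ⟨Finset.mem_univ _, by rw [Finset.card_map]; exact ht.2⟩
    · intro t _
      have := act_act (L := L) g.symm t
      simpa using this
    · intro t _
      exact act_act g t
    · intro t _
      exact (co_map g t y).symm
  have hrat : ∀ k, ∃ q : ℚ, algebraMap ℚ M q = c k := fun k =>
    (IsGalois.mem_range_algebraMap_iff_fixed _).2 (hfix k)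
  choose q hq using hrat
  have hq0 : q 0 = 1 := by
    apply (algebraMap ℚ M).injective
    rw [hq, map_one]
    simp only [hc, Finset.card_eq_zero]
    rw [Finset.filter_eq' Finset.univ ∅, if_pos (Finset.mem_univ _), Finset.sum_singleton]
    simp [co]
  have hrel : ∑ k ∈ Finset.range (d + 1), algebraMap ℚ L (q k) * y ^ (d - k) = 0 := by
    apply e0.toRingHom.injective
    change e0 _ = e0 0
    rw [map_sum, map_zero]
    have h1 : ∏ e : L →ₐ[ℚ] M, (-(e y) + e0 y) = 0 :=
      Finset.prod_eq_zero (Finset.mem_univ e0) (by ring)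
    rw [Fintype.prod_add] at h1
    rw [← h1, ← Finset.sum_fiberwise_of_maps_to (s := (Finset.univ : Finset (Finset (L →ₐ[ℚ] M))))
      (t := Finset.range (d + 1)) (g := fun t => t.card) (fun t _ => by
        rw [Finset.mem_range, ← hcard]
        exact Nat.lt_succ_of_le (Finset.card_le_univ t))]
    refine Finset.sum_congr rfl fun k hk => ?_
    rw [map_mul, AlgHom.commutes, hq, map_pow]
    simp only [hc]
    rw [Finset.sum_mul]
    refine Finset.sum_congr rfl fun t ht => ?_
    rw [Finset.mem_filter] at ht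
    rw [Finset.prod_const, Finset.card_compl, hcard, ht.2]
    rfl
  -- heights of the coefficients
  have hqh : ∀ k, logHeight₁ (q k) ≤ r * Real.log 2 + 2 ^ r * (r * B) := by
    intro k
    rw [← ht_rat (M := M), hq]
    simp only [hc]
    refine (ht_sum _ _).trans ?_
    have hc1 : (((Finset.univ : Finset (Finset (L →ₐ[ℚ] M))).filter
        (fun t => t.card = k)).card : ℝ) ≤ 2 ^ r := by
      have h1 : ((Finset.univ : Finset (Finset (L →ₐ[ℚ] M))).filter
        (fun t => t.card = k)).card ≤ 2 ^ r := by
        refine (Finset.card_le_univ _).trans ?_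
        rw [Fintype.card_finset, hcard]
        exact Nat.pow_le_pow_right (by norm_num) hr
      exact_mod_cast h1
    refine add_le_add ?_ ?_
    · by_cases h0 : ((Finset.univ : Finset (Finset (L →ₐ[ℚ] M))).filter
        (fun t => t.card = k)).card = 0
      · rw [h0]; simp; positivity
      · rw [← Real.log_pow]
        apply Real.log_le_log
        · exact_mod_cast Nat.pos_of_ne_zero h0
        · exact_mod_cast hc1
    · have h1 : ∀ t : Finset (L →ₐ[ℚ] M), ht (co M t y) ≤ r * B := by
        intro t
        unfold co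
        refine (ht_prod _ _).trans ?_
        refine (Finset.sum_le_card_nsmul _ _ B fun e _ => by rw [ht_neg]; exact hB e).trans ?_
        rw [nsmul_eq_mul]
        refine mul_le_mul_of_nonneg_right ?_ hB0
        have := (Finset.card_le_univ t).trans (hcard.le.trans hr)
        exact_mod_cast this
      refine (Finset.sum_le_card_nsmul _ _ (r * B) fun t _ => h1 t).trans ?_
      rw [nsmul_eq_mul]
      exact mul_le_mul_of_nonneg_right hc1 (by positivity)
  -- the field generated by y
  have hint : IsIntegral ℚ y := Algebra.IsIntegral.isIntegral y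
  unfold absLogHeight₁ absMulHeight₁
  rw [dif_pos hint]
  haveI : FiniteDimensional ℚ (IntermediateField.adjoin ℚ {y}) :=
    IntermediateField.adjoin.finiteDimensional hint
  haveI : NumberField (IntermediateField.adjoin ℚ {y}) := {}
  set y' := IntermediateField.AdjoinSimple.gen ℚ y with hy'
  have hrel' : ∑ k ∈ Finset.range (d + 1),
      algebraMap ℚ (IntermediateField.adjoin ℚ {y}) (q k) * y' ^ (d - k) = 0 := by
    apply (algebraMap (IntermediateField.adjoin ℚ {y}) L).injective
    rw [map_sum, map_zero, ← hrel]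
    refine Finset.sum_congr rfl fun k _ => ?_
    rw [map_mul, map_pow, ← IsScalarTower.algebraMap_apply]
    rfl
  have h1 := root_bound y' d q hq0 hrel'
  have h2 : Real.log (mulHeight₁ y' ^ (((finrank ℚ (IntermediateField.adjoin ℚ {y}) : ℕ) : ℝ))⁻¹) =
      ht y' := by
    rw [Real.log_rpow (mulHeight₁_pos _), ht, logHeight₁_eq_log_mulHeight₁, div_eq_inv_mul]
  change Real.log (mulHeight₁ y' ^ (((finrank ℚ (IntermediateField.adjoin ℚ {y}) : ℕ) : ℝ))⁻¹) ≤ _
  rw [h2]
  refine h1.trans ?_
  have hl2 : 0 ≤ Real.log 2 := by positivity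
  have hdr : (d : ℝ) ≤ r := by exact_mod_cast hr
  have h3 : ∑ k ∈ Finset.range (d + 1), logHeight₁ (q k) ≤
      (r + 1) * (r * Real.log 2 + 2 ^ r * (r * B)) := by
    refine (Finset.sum_le_card_nsmul _ _ _ fun k _ => hqh k).trans ?_
    rw [nsmul_eq_mul, Finset.card_range]
    refine mul_le_mul_of_nonneg_right ?_ (by positivity)
    push_cast
    linarith
  have h4 := mul_le_mul_of_nonneg_right hdr hl2
  linarith

end TH951.NF
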