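import Pool.Agent.TH951.MN.Ram

/-! The combinatorial lemma on partner permutations, with values in an abelian group with a length. -/

set_option autoImplicit false

namespace TH951.NF

open TH951.MN (ramsey' perm_lt perm_gt)

universe u

/-- the relation of a tuple -/
def rel {G : Type u} [AddCommGroup G] {m : ℕ} (U : ℕ → ℕ → G) (σ : Equiv.Perm (Fin m))
    (z : Fin (2 * m) → ℕ) : G :=
  ∑ b : Fin m, (U (z ⟨2 * b + 1, by omega⟩) (z ⟨2 * (σ b : ℕ), by omega⟩) -
          U (z ⟨2 * b + 1, by omega⟩) (z ⟨2 * b, by omega⟩))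

theorem vary {G : Type u} [AddCommGroup G] (ℓ : G → ℝ) (hneg : ∀ g, ℓ (-g) = ℓ g)
    (hadd : ∀ g h, ℓ (g + h) ≤ ℓ g + ℓ h) {m : ℕ} (U : ℕ → ℕ → G) (B : ℝ)
    (σ : Equiv.Perm (Fin m)) (z z' : Fin (2 * m) → ℕ) (a : Fin m)
    (hzz : ∀ l : Fin (2 * m), (l : ℕ) ≠ 2 * a + 1 → z l = z' l)
    (hz : ℓ (rel U σ z) ≤ B) (hz' : ℓ (rel U σ z') ≤ B)
    {x x' y w : ℕ} (hx : z ⟨2 * a + 1, by omega⟩ = x) (hx' : z' ⟨2 * a + 1, by omega⟩ = x')
    (hy : z ⟨2 * (σ a : ℕ), by omega⟩ = y) (hw : z ⟨2 * a, by omega⟩ = w) :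
    ℓ (U x y + U x' w - U x w - U x' y) ≤ 2 * B := by
  classical
  have key : U x y + U x' w - U x w - U x' y = rel U σ z - rel U σ z' := by
    unfold rel
    rw [← Finset.sum_sub_distrib, Finset.sum_eq_single a]
    · rw [hx, hx', hy, hw]
      have h1 : z' ⟨2 * (σ a : ℕ), by omega⟩ = y := by
        rw [← hy]; exact (hzz _ (by simp only; omega)).symm
      have h2 : z' ⟨2 * (a : ℕ), by omega⟩ = w := by
        rw [← hw]; exact (hzz _ (by simp only; omega)).symm
      rw [h1, h2]; abel
    · intro b _ hb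
      have hb' : (b : ℕ) ≠ a := fun h => hb (Fin.ext h)
      rw [hzz ⟨2 * b + 1, by omega⟩ (by simp only; omega),
        hzz ⟨2 * (σ b : ℕ), by omega⟩ (by simp only; omega),
        hzz ⟨2 * (b : ℕ), by omega⟩ (by simp only; omega)]
      abel
    · intro h; exact absurd (Finset.mem_univ a) h
  rw [key, sub_eq_add_neg]
  refine (hadd _ _).trans ?_
  rw [hneg]
  linarith

/-- If every interlaced tuple has a partner permutation then there are many indices such that all
the cross ratios of the indices are comparable. -/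
theorem comb (m K : ℕ) : ∃ N : ℕ, ∀ {G : Type u} [AddCommGroup G] (ℓ : G → ℝ)
    (_ : ∀ g, ℓ (-g) = ℓ g) (_ : ∀ g h, ℓ (g + h) ≤ ℓ g + ℓ h) (U : ℕ → ℕ → G)
    (_ : ∀ i j, U i j = U j i) (B : ℝ) (_ : ∀ z : Fin (2 * m) → ℕ, StrictMono z →
      (∀ l, z l < N) → ∃ σ : Equiv.Perm (Fin m), σ ≠ 1 ∧ ℓ (rel U σ z) ≤ B),
    ∃ e : ℕ → ℕ, (∀ i j, i < j → j < K → e i < e j) ∧ (∀ i, i < K → e i < N) ∧
      ∀ a b c d, a < b → b < c → c < d → d < K →
        (ℓ (U (e a) (e b) + U (e c) (e d) - U (e a) (e c) - U (e b) (e d)) ≤ 2 * B) ∧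
        (ℓ (U (e a) (e c) + U (e b) (e d) - U (e a) (e d) - U (e b) (e c)) ≤ 2 * B) := by
  classical
  obtain ⟨N, hN⟩ := ramsey'.{0} (2 * m) (Fintype.card (Equiv.Perm (Fin m))) (2 * m * (K + 2))
  refine ⟨N, ?_⟩
  intro G _ ℓ hneg hadd U hU B H
  have H' : ∀ z : Fin (2 * m) → ℕ, ∃ σ : Equiv.Perm (Fin m), StrictMono z → (∀ l, z l < N) →
      σ ≠ 1 ∧ ℓ (rel U σ z) ≤ B := by
    intro z
    by_cases h : StrictMono z ∧ ∀ l, z l < N
    · obtain ⟨σ, h1, h2⟩ := H z h.1 h.2
      exact ⟨σ, fun _ _ => ⟨h1, h2⟩⟩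
    · exact ⟨1, fun h1 h2 => absurd ⟨h1, h2⟩ h⟩
  choose χ hχ using H'
  obtain ⟨e, he, heN, hhom⟩ := hN (Equiv.Perm (Fin m)) le_rfl χ
  set n := 2 * m * (K + 2) with hn
  -- the common colour
  set σ := χ (fun l : Fin (2 * m) => e (l : ℕ)) with hσ
  have hval : ∀ q : Fin (2 * m) → ℕ, StrictMono q → (∀ l, q l < n) →
      σ ≠ 1 ∧ ℓ (rel U σ (fun l => e (q l))) ≤ B := by
    intro q hq hqn
    have h1 : χ (fun l => e (q l)) = σ := by
      refine hhom q (fun l => (l : ℕ)) hq (fun i j h => h) hqn (fun l => ?_)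
      have := l.2
      rw [hn]; nlinarith
    have h2 := hχ (fun l => e (q l)) (fun i j hij => he _ _ (hq hij) (hqn j))
      (fun l => heN _ (hqn l))
    rwa [h1] at h2
  rcases Nat.eq_zero_or_pos m with hm | hm
  · exfalso
    subst hm
    have h1 := (hval (fun l => absurd l.2 (by omega)) (fun i => absurd i.2 (by omega))
      (fun l => absurd l.2 (by omega))).1
    exact h1 (Subsingleton.elim _ _)
  have hσ1 : σ ≠ 1 := by
    refine (hval (fun l => (l : ℕ)) (fun i j h => h) (fun l => ?_)).1
    have := l.2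
    rw [hn]; nlinarith
  -- the sparse subset
  have hpos : ∀ k, k < K → 2 * m * (k + 1) + 2 * m ≤ n := by
    intro k hk
    have h1 : k + 2 ≤ K + 2 := by omega
    calc 2 * m * (k + 1) + 2 * m = 2 * m * (k + 2) := by ring
      _ ≤ 2 * m * (K + 2) := Nat.mul_le_mul_left _ h1
  have hgap : ∀ k l, k < l → 2 * m * (k + 1) + 2 * m ≤ 2 * m * (l + 1) := by
    intro k l hkl
    have h1 : k + 2 ≤ l + 1 := by omega
    calc 2 * m * (k + 1) + 2 * m = 2 * m * (k + 2) := by ring
      _ ≤ 2 * m * (l + 1) := Nat.mul_le_mul_left _ h1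
  have hlow : ∀ k, 2 * m ≤ 2 * m * (k + 1) := by
    intro k
    calc 2 * m = 2 * m * 1 := by ring
      _ ≤ 2 * m * (k + 1) := Nat.mul_le_mul_left _ (by omega)
  refine ⟨fun k => e (2 * m * (k + 1)), ?_, ?_, ?_⟩
  · intro i j hij hj
    refine he _ _ ?_ ?_
    · have := hgap i j hij; omega
    · have := hpos j hj; omega
  · intro i hi
    apply heN
    have := hpos i hi; omega
  · intro a b c d hab hbc hcd hd
    have ga := hlow a
    have gab := hgap a b hab
    have gbc := hgap b c hbc
    have gcd := hgap c d hcd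
    have gd := hpos d hd
    beta_reduce
    generalize 2 * m * (a + 1) = A at *
    generalize 2 * m * (b + 1) = B' at *
    generalize 2 * m * (c + 1) = C at *
    generalize 2 * m * (d + 1) = D at *
    constructor
    · obtain ⟨s, hs⟩ := perm_lt hσ1
      have hs' : (s : ℕ) < (σ s : ℕ) := hs
      have hs2 := (σ s).2
      -- positions
      let q : ℕ → Fin (2 * m) → ℕ := fun x l => if (l : ℕ) ≤ 2 * s then A + l - 2 * s else
        if (l : ℕ) = 2 * s + 1 then x else D + l - 2 * (σ s : ℕ)
      have hq : ∀ x, A < x → x < C + 1 → StrictMono (q x) ∧ ∀ l, q x l < n := by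
        intro x hx1 hx2
        constructor
        · intro i j hij
          have hij' : (i : ℕ) < j := hij
          have := j.2
          simp only [q]
          split_ifs <;> omega
        · intro l
          have := l.2
          simp only [q]
          split_ifs <;> omega
      have h1 := (hval _ (hq B' (by omega) (by omega)).1 (hq B' (by omega) (by omega)).2).2
      have h2 := (hval _ (hq C (by omega) (by omega)).1 (hq C (by omega) (by omega)).2).2
      have h3 := vary ℓ hneg hadd U B σ _ _ s (fun l hl => by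
          simp only [q]
          split_ifs <;> rfl) h1 h2
        (x := e B') (x' := e C) (y := e D) (w := e A) (by
          simp only [q]
          rw [if_neg (by omega), if_pos trivial]) (by
          simp only [q]
          rw [if_neg (by omega), if_pos trivial]) (by
          simp only [q]
          rw [if_neg (by omega), if_neg (by omega)]
          congr 1; omega) (by
          simp only [q]
          rw [if_pos le_rfl]
          congr 1; omega)
      refine le_trans (le_of_eq ?_) h3
      rw [← hneg, hU (e B') (e A), hU (e C) (e A)]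
      congr 1
      abel
    · obtain ⟨s, hs⟩ := perm_gt hσ1
      have hs' : (σ s : ℕ) < (s : ℕ) := hs
      have hs2 := s.2
      let q : ℕ → Fin (2 * m) → ℕ := fun x l => if (l : ℕ) ≤ 2 * (σ s : ℕ) then
        A + l - 2 * (σ s : ℕ) else if (l : ℕ) ≤ 2 * s then B' + l - 2 * s else
        if (l : ℕ) = 2 * s + 1 then x else D + l - 2 * s
      have hq : ∀ x, B' < x → x < D + 1 → StrictMono (q x) ∧ ∀ l, q x l < n := by
        intro x hx1 hx2
        constructor
        · intro i j hij
          have hij' : (i : ℕ) < j := hij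
          have := j.2
          simp only [q]
          split_ifs <;> omega
        · intro l
          have := l.2
          simp only [q]
          split_ifs <;> omega
      have h1 := (hval _ (hq C (by omega) (by omega)).1 (hq C (by omega) (by omega)).2).2
      have h2 := (hval _ (hq D (by omega) (by omega)).1 (hq D (by omega) (by omega)).2).2
      have h3 := vary ℓ hneg hadd U B σ _ _ s (fun l hl => by
          simp only [q]
          split_ifs <;> rfl) h1 h2
        (x := e C) (x' := e D) (y := e A) (w := e B') (by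
          simp only [q]
          rw [if_neg (by omega), if_neg (by omega), if_pos trivial]) (by
          simp only [q]
          rw [if_neg (by omega), if_neg (by omega), if_pos trivial]) (by
          simp only [q]
          rw [if_pos le_rfl]
          congr 1; omega) (by
          simp only [q]
          rw [if_neg (by omega), if_pos le_rfl]
          congr 1; omega)
      refine le_trans (le_of_eq ?_) h3
      rw [hU (e C) (e A), hU (e D) (e B'), hU (e C) (e B'), hU (e D) (e A)]
      congr 1
      abel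

end TH951.NF
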