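import Pool.Agent.TH951.MN.LL

/-! The local lemma for real valued approximate ultrametrics. -/

set_option autoImplicit false

namespace TH951.NF

universe u

/-- exact real ultrametrics -/
theorem local_real (r : ℕ) : ∃ N C : ℕ, ∀ (K : ℕ), N ≤ K → ∀ (E : Type u) [Fintype E]
    (_ : Fintype.card E ≤ r) (ω : E → ℕ → ℕ → ℝ) (_ : ∀ e i j, ω e i j = ω e j i)
    (_ : ∀ e i j k, i < K → j < K → k < K → i ≠ j → j ≠ k → i ≠ k →
      min (ω e i j) (ω e j k) ≤ ω e i k) (c η : ℝ)
    (_ : ∀ i j, i < K → j < K → i ≠ j → |∑ e, ω e i j - c| ≤ η),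
    ∀ e i j a b, i < K → j < K → a < K → b < K → i ≠ j → a ≠ b →
      |ω e i j - ω e a b| ≤ C * η := by
  obtain ⟨N, C, hloc⟩ := MN.local_lemma.{u} r
  refine ⟨N, 2 * C, ?_⟩
  intro K hK E _ hE ω hsym hult c η hsum e i j a b hi hj ha hb hij hab
  have hη : 0 ≤ η := (abs_nonneg _).trans (hsum i j hi hj hij)
  have key : ∀ q : ℕ, 0 < q → (q : ℝ) * |ω e i j - ω e a b| ≤
      2 * C * (q * η + r + 2) + 1 := by
    intro q hq
    have hq' : (0 : ℝ) < q := by exact_mod_cast hq
    have hf : ∀ x : ℝ, (⌊(q : ℝ) * x⌋ : ℝ) ≤ q * x ∧ (q : ℝ) * x < ⌊(q : ℝ) * x⌋ + 1 := fun x =>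
      ⟨Int.floor_le _, Int.lt_floor_add_one _⟩
    obtain ⟨τ, hτ⟩ := hloc K hK E hE (fun e i j => ⌊(q : ℝ) * ω e i j⌋)
      (fun e i j => by simp only [hsym e i j]) (by
        intro e i j k hi hj hk hij hjk hik
        have h1 := hult e i j k hi hj hk hij hjk hik
        rcases min_le_iff.1 h1 with h2 | h2
        · exact (min_le_left _ _).trans (Int.floor_le_floor (mul_le_mul_of_nonneg_left h2 hq'.le))
        · exact (min_le_right _ _).trans (Int.floor_le_floor (mul_le_mul_of_nonneg_left h2 hq'.le)))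
      ⌊(q : ℝ) * c⌋ (⌈(q : ℝ) * η⌉ + r + 1) (by
        intro i j hi hj hij
        have h1 := hsum i j hi hj hij
        rw [abs_le] at h1
        have h2 : (∑ e, (⌊(q : ℝ) * ω e i j⌋ : ℝ)) ≤ q * ∑ e, ω e i j := by
          rw [Finset.mul_sum]
          exact Finset.sum_le_sum fun e _ => (hf _).1
        have h3 : q * ∑ e, ω e i j ≤ (∑ e, (⌊(q : ℝ) * ω e i j⌋ : ℝ)) + r := by
          rw [Finset.mul_sum]
          have h4 : ∑ e : E, (q : ℝ) * ω e i j ≤ ∑ e : E, ((⌊(q : ℝ) * ω e i j⌋ : ℝ) + 1) :=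
            Finset.sum_le_sum fun e _ => (hf _).2.le
          rw [Finset.sum_add_distrib, Finset.sum_const, Finset.card_univ, nsmul_eq_mul,
            mul_one] at h4
          have h5 : (Fintype.card E : ℝ) ≤ r := by exact_mod_cast hE
          linarith
        have h4 := hf c
        have h5 := Int.le_ceil ((q : ℝ) * η)
        have h6 : (q : ℝ) * (∑ e, ω e i j) ≤ q * (c + η) :=
          mul_le_mul_of_nonneg_left (by linarith) hq'.le
        have h7 : (q : ℝ) * (c - η) ≤ q * ∑ e, ω e i j :=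
          mul_le_mul_of_nonneg_left (by linarith) hq'.le
        have h8 : |(((∑ e, ⌊(q : ℝ) * ω e i j⌋ - ⌊(q : ℝ) * c⌋ : ℤ)) : ℝ)| ≤
            ((⌈(q : ℝ) * η⌉ + r + 1 : ℤ) : ℝ) := by
          push_cast
          rw [abs_le]
          constructor <;> nlinarith
        exact_mod_cast h8)
    have h1 := hτ e i j hi hj hij
    have h2 := hτ e a b ha hb hab
    have h3 : |(⌊(q : ℝ) * ω e i j⌋ : ℝ) - ⌊(q : ℝ) * ω e a b⌋| ≤
        2 * C * (⌈(q : ℝ) * η⌉ + r + 1) := by
      have h4 : |⌊(q : ℝ) * ω e i j⌋ - ⌊(q : ℝ) * ω e a b⌋| ≤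
          2 * (C * (⌈(q : ℝ) * η⌉ + r + 1)) := by
        rw [abs_le] at h1 h2 ⊢
        constructor <;> linarith
      have h5 : ((|⌊(q : ℝ) * ω e i j⌋ - ⌊(q : ℝ) * ω e a b⌋| : ℤ) : ℝ) ≤
          ((2 * (C * (⌈(q : ℝ) * η⌉ + r + 1)) : ℤ) : ℝ) := by exact_mod_cast h4
      push_cast at h5
      linarith
    have h4 : (⌈(q : ℝ) * η⌉ : ℝ) ≤ q * η + 1 := (Int.ceil_lt_add_one _).le
    have h5 : 2 * (C : ℝ) * (⌈(q : ℝ) * η⌉ + r + 1) ≤ 2 * C * (q * η + r + 2) :=
      mul_le_mul_of_nonneg_left (by linarith) (by positivity)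
    have h6 := hf (ω e i j)
    have h7 := hf (ω e a b)
    have h8 : (q : ℝ) * |ω e i j - ω e a b| = |q * ω e i j - q * ω e a b| := by
      rw [← mul_sub, abs_mul, abs_of_pos hq']
    rw [h8]
    rw [abs_le] at h3 ⊢
    constructor <;> linarith
  refine le_of_forall_pos_le_add fun δ hδ => ?_
  obtain ⟨q, hq⟩ := exists_nat_gt ((2 * C * (r + 2) + 1) / δ)
  have hq0 : 0 < q := by
    have h1 : (0 : ℝ) < q := lt_of_le_of_lt (by positivity) hq
    exact_mod_cast h1
  have hq' : (0 : ℝ) < q := by exact_mod_cast hq0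
  have h1 := key q hq0
  rw [div_lt_iff₀ hδ] at hq
  have h2 : (q : ℝ) * |ω e i j - ω e a b| ≤ q * (((2 * C : ℕ) : ℝ) * η + δ) := by
    push_cast
    nlinarith
  exact le_of_mul_le_mul_left h2 hq'

/-- closing an approximate ultrametric -/
theorem close_up {K : ℕ} {ω : ℕ → ℕ → ℝ} (hsym : ∀ i j, ω i j = ω j i) {ε : ℝ} (hε : 0 ≤ ε)
    (h : ∀ i j k, i < K → j < K → k < K → i ≠ j → j ≠ k → i ≠ k →
      min (ω i j) (ω j k) ≤ ω i k + ε) (t : ℕ) (ht : t ≤ K) :
    ∃ a : ℕ → ℕ → ℝ, (∀ i j, a i j = a j i) ∧ (∀ i j, ω i j ≤ a i j) ∧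
      (∀ i j, i < K → j < K → i ≠ j → a i j ≤ ω i j + t * ε) ∧
      ∀ i j k, k < t → min (a i k) (a k j) ≤ a i j := by
  induction t with
  | zero => exact ⟨ω, hsym, fun _ _ => le_rfl, fun _ _ _ _ _ => by simp, fun _ _ _ hk => by omega⟩
  | succ t ih =>
    obtain ⟨a, a1, a2, a3, a4⟩ := ih (by omega)
    refine ⟨fun i j => max (a i j) (min (a i t) (a t j)), ?_, ?_, ?_, ?_⟩
    · intro i j
      simp only
      rw [a1 i j, a1 i t, a1 t j, min_comm]
    · intro i j
      exact (a2 i j).trans (le_max_left _ _)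
    · intro i j hi hj hij
      have h0 := a3 i j hi hj hij
      have h1 : (((t + 1 : ℕ) : ℝ)) * ε = t * ε + ε := by push_cast; ring
      rw [h1]
      refine max_le (by linarith) ?_
      by_cases hit : i = t
      · subst hit
        exact (min_le_right _ _).trans (by linarith)
      by_cases hjt : t = j
      · subst hjt
        exact (min_le_left _ _).trans (by linarith)
      have h2 := a3 i t hi (by omega) hit
      have h3 := a3 t j (by omega) hj hjt
      have h4 := h i t j hi (by omega) hj hit hjt hij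
      rcases min_le_iff.1 h4 with h5 | h5
      · exact (min_le_left _ _).trans (by linarith)
      · exact (min_le_right _ _).trans (by linarith)
    · intro i j k hk
      simp only
      rcases Nat.lt_succ_iff_lt_or_eq.1 hk with hk | rfl
      · have h1 := a4 i j k hk
        have h2 := a4 i t k hk
        have h3 := a4 t j k hk
        rw [min_le_iff] at h1 h2 h3
        rcases le_total (a i k) (min (a i t) (a t k)) with c1 | c1 <;>
          rcases le_total (a k j) (min (a k t) (a t j)) with c2 | c2 <;>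
          simp only [max_eq_left, max_eq_right, c1, c2, min_le_iff, le_max_iff, le_min_iff] at * <;>
          grind
      · refine le_max_of_le_right (le_min ?_ ?_)
        · refine (min_le_left _ _).trans (max_le le_rfl (min_le_left _ _))
        · refine (min_le_right _ _).trans (max_le le_rfl (min_le_right _ _))

/-- approximate ultrametrics -/
theorem local_approx (r : ℕ) : ∃ N C : ℕ, ∀ (K : ℕ), N ≤ K → ∀ (E : Type u) [Fintype E]
    (_ : Fintype.card E ≤ r) (ω : E → ℕ → ℕ → ℝ) (_ : ∀ e i j, ω e i j = ω e j i)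
    (ε : ℝ) (_ : 0 ≤ ε) (_ : ∀ e i j k, i < K → j < K → k < K → i ≠ j → j ≠ k → i ≠ k →
      min (ω e i j) (ω e j k) ≤ ω e i k + ε) (c η : ℝ)
    (_ : ∀ i j, i < K → j < K → i ≠ j → |∑ e, ω e i j - c| ≤ η),
    ∀ e i j a b, i < K → j < K → a < K → b < K → i ≠ j → a ≠ b →
      |ω e i j - ω e a b| ≤ C * (η + K * ε) := by
  obtain ⟨N, C, hloc⟩ := local_real.{u} r
  refine ⟨N, C * r + C + 1, ?_⟩
  intro K hK E _ hE ω hsym ε hε hult c η hsum e i j a b hi hj ha hb hij hab
  choose A hA1 hA2 hA3 hA4 using fun e => close_up (hsym e) hε (hult e) K le_rfl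
  have hη : 0 ≤ η := (abs_nonneg _).trans (hsum i j hi hj hij)
  have hr : (Fintype.card E : ℝ) ≤ r := by exact_mod_cast hE
  have hKε : 0 ≤ (K : ℝ) * ε := by positivity
  have h1 := hloc K hK E hE A hA1 (fun e i j k _ hj _ _ _ _ => hA4 e i k j hj) c
    (η + r * (K * ε)) (by
      intro i j hi hj hij
      have h2 := hsum i j hi hj hij
      have h3 : ∑ e, ω e i j ≤ ∑ e, A e i j := Finset.sum_le_sum fun e _ => hA2 e i j
      have h4 : ∑ e, A e i j ≤ ∑ e, (ω e i j + K * ε) :=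
        Finset.sum_le_sum fun e _ => hA3 e i j hi hj hij
      rw [Finset.sum_add_distrib, Finset.sum_const, Finset.card_univ, nsmul_eq_mul] at h4
      have h5 := mul_le_mul_of_nonneg_right hr hKε
      rw [abs_le] at h2 ⊢
      constructor <;> nlinarith) e i j a b hi hj ha hb hij hab
  have g1 := hA2 e i j
  have g2 := hA3 e i j hi hj hij
  have g3 := hA2 e a b
  have g4 := hA3 e a b ha hb hab
  have h6 : (C : ℝ) * (η + r * (K * ε)) + K * ε ≤ ((C * r + C + 1 : ℕ) : ℝ) * (η + K * ε) := by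
    push_cast
    have c1 : 0 ≤ (C : ℝ) * r * η := by positivity
    have c2 : 0 ≤ (C : ℝ) * (K * ε) := by positivity
    nlinarith
  refine le_trans ?_ h6
  rw [abs_le] at h1 ⊢
  constructor <;> linarith

end TH951.NF
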