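import Mathlib
import Pool.Agent.TH551.SU.Sst

/-! A finite form of the subspace theorem over the rationals for the points of the hyperplane
`x_0 + ... + x_n = 0` with coordinates that are almost units. -/

set_option autoImplicit false

open Finset Filter Topology

namespace TH951.NF

open Pool.Agent.TH461.SST

/-- the index of the `l`-th form at a place where the index `j` is omitted -/
def gi {n : ℕ} (j : Fin (n + 1)) (l : Fin n) : Fin (n + 1) := if l.succ = j then 0 else l.succ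

/-- the forms at a place where the index `j` is omitted -/
def frm {n : ℕ} (j : Fin (n + 1)) : Matrix (Fin n) (Fin n) ℤ :=
  fun l i => if l.succ = j then -1 else (1 : Matrix (Fin n) (Fin n) ℤ) l i

theorem sum_gi {n : ℕ} (j : Fin (n + 1)) (f : Fin (n + 1) → ℝ) :
    ∑ l, f (gi j l) = ∑ k, f k - f j := by
  rw [Fin.sum_univ_succ]
  refine Fin.cases ?_ (fun i => ?_) j
  · simp [gi, Fin.succ_ne_zero]
  · have h1 : (fun l : Fin n => f (gi i.succ l)) =
        Function.update (fun l : Fin n => f l.succ) i (f 0) := by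
      funext l
      by_cases h : l = i
      · subst h; simp [gi]
      · rw [Function.update_of_ne h]
        simp [gi, Fin.succ_inj, h]
    rw [h1, Finset.sum_update_of_mem (Finset.mem_univ i)]
    have h2 := Finset.sum_sdiff_eq_sub (f := fun l : Fin n => f l.succ)
      (Finset.subset_univ {i})
    rw [h2, Finset.sum_singleton]
    ring

theorem frm_apply {n : ℕ} (j : Fin (n + 1)) (x : Fin (n + 1) → ℤ) (hx : ∑ k, x k = 0)
    (l : Fin n) : ∑ i, frm j l i * x i.succ = x (gi j l) := by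
  unfold frm gi
  by_cases h : l.succ = j
  · simp only [h, if_true]
    rw [Fin.sum_univ_succ] at hx
    rw [← Finset.mul_sum]
    linarith
  · simp only [h, if_false]
    simp [Matrix.one_apply]

theorem frm_det {n : ℕ} (j : Fin (n + 1)) : (frm j).det ≠ 0 := by
  refine Fin.cases ?_ (fun i => ?_) j
  · have : frm (0 : Fin (n + 1)) = (1 : Matrix (Fin n) (Fin n) ℤ) := by
      ext l i
      simp [frm, Fin.succ_ne_zero]
    rw [this]; simp
  · have : frm i.succ = (1 : Matrix (Fin n) (Fin n) ℤ).updateRow i (fun _ => -1) := by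
      ext l k
      by_cases h : l = i
      · subst h; simp [frm]
      · rw [Matrix.updateRow_ne h]
        simp [frm, Fin.succ_inj, h]
    rw [this, ← Matrix.det_transpose, ← Matrix.updateCol_transpose, Matrix.transpose_one,
      ← Matrix.cramer_apply, Matrix.cramer_one]
    simp

/-- the part of `m` prime to `D` -/
theorem log_le_of_dvd {D c k m : ℕ} (hm : m ≠ 0) (hc : 0 < c) (h : m ∣ D ^ k * c)
    (hD : D ≠ 0) : Real.log m ≤ ∑ p ∈ D.primeFactors, (m.factorization p : ℝ) * Real.log p +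
      Real.log c := by
  classical
  have h1 : ∏ p ∈ m.primeFactors ∪ D.primeFactors, p ^ m.factorization p = m := by
    rw [← Finset.prod_subset (Finset.subset_union_left : m.primeFactors ⊆ _)]
    · exact Nat.prod_factorization_pow_eq_self hm
    · intro p _ hp
      rw [← Nat.support_factorization, Finsupp.notMem_support_iff] at hp
      rw [hp, pow_zero]
  rw [← Finset.prod_sdiff (Finset.subset_union_right : D.primeFactors ⊆ _)] at h1
  set m' := ∏ p ∈ (m.primeFactors ∪ D.primeFactors) \ D.primeFactors, p ^ m.factorization p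
    with hm'
  have h2 : Nat.Coprime m' (D ^ k) := by
    apply Nat.Coprime.pow_right
    apply Nat.Coprime.prod_left
    intro p hp
    rw [Finset.mem_sdiff, Finset.mem_union] at hp
    have hp1 : p ∈ m.primeFactors := hp.1.resolve_right hp.2
    have hpp := Nat.prime_of_mem_primeFactors hp1
    apply Nat.Coprime.pow_left
    rw [Nat.Prime.coprime_iff_not_dvd hpp]
    intro hd
    exact hp.2 (Nat.mem_primeFactors.2 ⟨hpp, hd, hD⟩)
  have h3 : m' ∣ c := h2.dvd_of_dvd_mul_left (dvd_trans ⟨_, h1.symm⟩ h)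
  have h4 : m' ≤ c := Nat.le_of_dvd hc h3
  have h5 : m' ≠ 0 := fun h0 => by rw [h0, zero_mul] at h1; exact hm h1.symm
  have h6 : (m : ℝ) = (m' : ℝ) * ∏ p ∈ D.primeFactors, (p : ℝ) ^ m.factorization p := by
    rw [← h1]; push_cast
    rw [h1]
  have h7 : ∀ p ∈ D.primeFactors, ((p : ℝ) ^ m.factorization p) ≠ 0 := fun p hp =>
    pow_ne_zero _ (by exact_mod_cast (Nat.prime_of_mem_primeFactors hp).ne_zero)
  rw [h6, Real.log_mul (by exact_mod_cast h5) (Finset.prod_ne_zero_iff.2 h7), Real.log_prod h7]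
  have h8 : Real.log m' ≤ Real.log c := Real.log_le_log (by positivity) (by exact_mod_cast h4)
  have h9 : ∑ p ∈ D.primeFactors, Real.log ((p : ℝ) ^ m.factorization p) =
      ∑ p ∈ D.primeFactors, (m.factorization p : ℝ) * Real.log p :=
    Finset.sum_congr rfl fun p _ => Real.log_pow _ _
  rw [h9]
  linarith

/-- The subspace theorem for a sequence of almost unit vectors. -/
theorem seq_sub {n D : ℕ} (hn : 1 ≤ n) (hD : D ≠ 0) (x : ℕ → Fin (n + 1) → ℤ) (c : ℕ → ℕ)
    (hc : ∀ t, 0 < c t) (hx0 : ∀ t j, x t j ≠ 0) (hx : ∀ t, ∑ j, x t j = 0)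
    (hprim : ∀ t, ∃ m : Fin (n + 1) → ℤ, ∑ j, m j * x t j = 1)
    (hdvd : ∀ t j, ∃ k : ℕ, x t j ∣ (D : ℤ) ^ k * c t) (H : ℕ → ℝ)
    (hH1 : ∀ t j, Real.log |(x t j : ℝ)| ≤ H t) (hH2 : ∀ t, ∃ j, Real.log |(x t j : ℝ)| = H t)
    (hcH : ∀ t, 2 * (n + 1 : ℝ) * Real.log (c t) ≤ H t) (hHT : Tendsto H atTop atTop) :
    ∃ y : Fin n → ℤ, y ≠ 0 ∧ ∃ᶠ t in atTop, ∑ l, y l * x t l.succ = 0 := by
  classical
  -- the primes
  set s := D.primeFactors.card with hs
  set P : Fin s → ℕ := fun v => (D.primeFactors.equivFin.symm v : ℕ) with hP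
  have hPp : ∀ v, (P v).Prime := fun v =>
    Nat.prime_of_mem_primeFactors (D.primeFactors.equivFin.symm v).2
  have hPi : Function.Injective P := fun v w h =>
    D.primeFactors.equivFin.symm.injective (Subtype.ext h)
  have hPsum : ∀ f : ℕ → ℝ, ∑ v, f (P v) = ∑ p ∈ D.primeFactors, f p := by
    intro f
    rw [← Finset.sum_coe_sort D.primeFactors f]
    exact Equiv.sum_comp D.primeFactors.equivFin.symm (fun p : D.primeFactors => f p)
  -- the omitted indices
  choose J0 hJ0 using hH2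
  have hJex : ∀ t v, ∃ j, ¬ ((P v : ℕ) : ℤ) ∣ x t j := by
    intro t v
    by_contra hcon
    push Not at hcon
    obtain ⟨m, hm⟩ := hprim t
    have h1 : ((P v : ℕ) : ℤ) ∣ 1 := by
      rw [← hm]
      exact Finset.dvd_sum fun j _ => (hcon j).mul_left _
    have h2 := Int.natCast_dvd_natCast.1 (by simpa using h1 : ((P v : ℕ) : ℤ) ∣ ((1 : ℕ) : ℤ))
    exact (hPp v).one_lt.ne' (Nat.dvd_one.1 h2)
  choose J hJ using hJex
  -- pigeonhole
  obtain ⟨w, hw⟩ : ∃ w : Fin (n + 1) × (Fin s → Fin (n + 1)), ∃ᶠ t in atTop,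
      (J0 t, J t) = w := by
    by_contra hcon
    push Not at hcon
    have h1 : ∀ᶠ t in atTop, ∀ w, (J0 t, J t) ≠ w := by
      rw [Filter.eventually_all]
      exact fun w => hcon w
    obtain ⟨t, ht⟩ := h1.exists
    exact ht _ rfl
  obtain ⟨φ, hφ, hφw⟩ := Filter.extraction_of_frequently_atTop hw
  have hw0 : ∀ t, J0 (φ t) = w.1 := fun t => congrArg Prod.fst (hφw t)
  have hwv : ∀ t v, J (φ t) v = w.2 v := fun t v => congrFun (congrArg Prod.snd (hφw t)) v
  have hHφ : Tendsto (fun t => H (φ t)) atTop atTop := hHT.comp hφ.tendsto_atTop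
  have habs1 : ∀ t j, (1 : ℝ) ≤ |(x t j : ℝ)| := by
    intro t j
    have h1 : 1 ≤ |x t j| := Int.one_le_abs (hx0 t j)
    exact_mod_cast h1
  have hlog0 : ∀ t j, 0 ≤ Real.log |(x t j : ℝ)| := fun t j => Real.log_nonneg (habs1 t j)
  have hsub := Pool.Agent.TH551.SU.sst n s hn (frm w.1) (fun v => frm (w.2 v)) P
    ⟨frm_det _, fun v => frm_det _, fun v => (hPp v).two_le, fun v v' hvv =>
      (Nat.coprime_primes (hPp v) (hPp v')).2 (fun h => hvv (hPi h))⟩
    1 (1 / 2) le_rfl (by norm_num) (fun t => H (φ t)) hHφ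
    (fun t v l => (x (φ t) (gi (w.2 v) l)).natAbs.factorization (P v))
    (fun t l => |(x (φ t) (gi w.1 l) : ℝ)|)
    (by
      intro t
      have hfac : ∀ j v, (((x (φ t) j).natAbs.factorization (P v) : ℕ) : ℝ) * Real.log (P v) ≤
          Real.log |(x (φ t) j : ℝ)| := by
        intro j v
        rw [← Real.log_pow]
        have h1 : (P v) ^ ((x (φ t) j).natAbs.factorization (P v)) ≤ (x (φ t) j).natAbs :=
          Nat.le_of_dvd (Int.natAbs_pos.2 (hx0 _ _)) (Nat.ordProj_dvd _ _)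
        apply Real.log_le_log
        · have := (hPp v).pos
          positivity
        · have h2 : (((P v) ^ ((x (φ t) j).natAbs.factorization (P v)) : ℕ) : ℝ) ≤
              (((x (φ t) j).natAbs : ℕ) : ℝ) := by exact_mod_cast h1
          rw [Nat.cast_natAbs] at h2
          push_cast at h2
          exact h2
      refine ⟨?_, ?_, ?_, ?_⟩
      · intro v l
        rw [one_mul]
        exact (hfac _ v).trans (hH1 _ _)
      · intro l
        linarith [habs1 (φ t) (gi w.1 l)]
      · intro l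
        rw [abs_of_nonneg (hlog0 _ _), one_mul]
        exact hH1 _ _
      · have h1 := sum_gi w.1 (fun j => Real.log |(x (φ t) j : ℝ)|)
        have h2 : Real.log |(x (φ t) w.1 : ℝ)| = H (φ t) := by rw [← hw0 t]; exact hJ0 _
        rw [h1, h2]
        have h3 : ∀ v, ∑ l, (((x (φ t) (gi (w.2 v) l)).natAbs.factorization (P v) : ℕ) : ℝ) *
            Real.log (P v) = ∑ j, (((x (φ t) j).natAbs.factorization (P v) : ℕ) : ℝ) *
            Real.log (P v) := by
          intro v
          rw [sum_gi (w.2 v) (fun j => (((x (φ t) j).natAbs.factorization (P v) : ℕ) : ℝ) *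
            Real.log (P v))]
          have h4 : (x (φ t) (w.2 v)).natAbs.factorization (P v) = 0 := by
            apply Nat.factorization_eq_zero_of_not_dvd
            intro hd
            apply hJ (φ t) v
            rw [hwv]
            exact Int.natCast_dvd.2 hd
          rw [h4]
          simp
        rw [Finset.sum_congr rfl fun v _ => h3 v, Finset.sum_comm]
        have h4 : ∀ j, Real.log |(x (φ t) j : ℝ)| ≤
            ∑ v, (((x (φ t) j).natAbs.factorization (P v) : ℕ) : ℝ) * Real.log (P v) +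
            Real.log (c (φ t)) := by
          intro j
          obtain ⟨k, hk⟩ := hdvd (φ t) j
          have h5 : (x (φ t) j).natAbs ∣ D ^ k * c (φ t) := by
            rw [← Int.natCast_dvd_natCast, Int.natAbs_dvd]
            exact_mod_cast hk
          have h6 := log_le_of_dvd (Int.natAbs_ne_zero.2 (hx0 _ _)) (hc _) h5 hD
          rw [hPsum (fun p => (((x (φ t) j).natAbs.factorization p : ℕ) : ℝ) * Real.log p)]
          rw [Nat.cast_natAbs] at h6
          push_cast at h6
          exact h6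
        have h5 := Finset.sum_le_sum fun (j : Fin (n + 1)) (_ : j ∈ Finset.univ) => h4 j
        rw [Finset.sum_add_distrib, Finset.sum_const, Finset.card_univ, Fintype.card_fin,
          nsmul_eq_mul] at h5
        have h6 := hcH (φ t)
        push_cast at h5
        linarith)
    (fun t l => x (φ t) l.succ)
    (by
      intro t h
      have h1 := congrFun h ⟨0, hn⟩
      exact hx0 _ _ h1)
    (by
      intro t
      refine ⟨fun l => ?_, fun v l => ?_⟩
      · rw [frm_apply _ _ (hx _)]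
      · rw [frm_apply _ _ (hx _)]
        have h1 := Nat.ordProj_dvd (x (φ t) (gi (w.2 v) l)).natAbs (P v)
        rw [← Int.natCast_dvd_natCast, Int.dvd_natAbs] at h1
        exact_mod_cast h1)
  obtain ⟨y, hy, hfr⟩ := hsub
  exact ⟨y, hy, hφ.tendsto_atTop.frequently hfr⟩

/-- The finite form. -/
theorem fin_sub (n D : ℕ) (hn : 1 ≤ n) (hD : D ≠ 0) :
    ∃ (Y : Finset (Fin n → ℤ)) (N1 : ℝ), (∀ y ∈ Y, y ≠ 0) ∧
      ∀ (x : Fin (n + 1) → ℤ) (c : ℕ), 0 < c → (∀ j, x j ≠ 0) → ∑ j, x j = 0 →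
        (∃ m : Fin (n + 1) → ℤ, ∑ j, m j * x j = 1) →
        (∀ j, ∃ k : ℕ, x j ∣ (D : ℤ) ^ k * c) → ∀ H : ℝ, (∀ j, Real.log |(x j : ℝ)| ≤ H) →
        (∃ j, Real.log |(x j : ℝ)| = H) → 2 * (n + 1 : ℝ) * Real.log c ≤ H → N1 ≤ H →
        ∃ y ∈ Y, ∑ l, y l * x l.succ = 0 := by
  classical
  by_contra hcon
  haveI : Nonempty {y : Fin n → ℤ // y ≠ 0} := ⟨⟨fun _ => 1, fun h => by
    have := congrFun h ⟨0, hn⟩
    simp at this⟩⟩
  obtain ⟨f, hf⟩ := exists_surjective_nat {y : Fin n → ℤ // y ≠ 0}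
  have hex : ∀ t : ℕ, ∃ (x : Fin (n + 1) → ℤ) (c : ℕ) (H : ℝ), 0 < c ∧ (∀ j, x j ≠ 0) ∧
      ∑ j, x j = 0 ∧ (∃ m : Fin (n + 1) → ℤ, ∑ j, m j * x j = 1) ∧
      (∀ j, ∃ k : ℕ, x j ∣ (D : ℤ) ^ k * c) ∧ (∀ j, Real.log |(x j : ℝ)| ≤ H) ∧
      (∃ j, Real.log |(x j : ℝ)| = H) ∧ 2 * (n + 1 : ℝ) * Real.log c ≤ H ∧ (t : ℝ) ≤ H ∧
      ∀ i, i ≤ t → ∑ l, (f i : Fin n → ℤ) l * x l.succ ≠ 0 := by
    intro t
    by_contra h
    apply hcon
    refine ⟨(Finset.range (t + 1)).image (fun i => (f i : Fin n → ℤ)), t, ?_, ?_⟩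
    · intro y hy
      obtain ⟨i, -, rfl⟩ := Finset.mem_image.1 hy
      exact (f i).2
    · intro x c h1 h2 h3 h4 h5 H h6 h7 h8 h9
      by_contra h10
      apply h
      refine ⟨x, c, H, h1, h2, h3, h4, h5, h6, h7, h8, h9, ?_⟩
      intro i hi h11
      exact h10 ⟨f i, Finset.mem_image.2 ⟨i, Finset.mem_range.2 (by omega), rfl⟩, h11⟩
  choose x c H h1 h2 h3 h4 h5 h6 h7 h8 h9 h10 using hex
  obtain ⟨y, hy, hfr⟩ := seq_sub hn hD x c h1 h2 h3 h4 h5 H h6 h7 h8
    (tendsto_atTop_mono h9 tendsto_natCast_atTop_atTop)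
  obtain ⟨m, hm⟩ := hf ⟨y, hy⟩
  obtain ⟨t, ht, hmt⟩ := (hfr.and_eventually (eventually_ge_atTop m)).exists
  apply h10 t m hmt
  rw [hm]
  exact ht

end TH951.NF
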