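import Mathlib
import Pool.Agent.TH951.NF.Sub

/-! The theorem on `S`-unit equations over the rationals in a finite form, for almost units. -/

set_option autoImplicit false

open Finset Height

namespace TH951.NF

/-- `q` is an element of `ℤ[1/D]` -/
def SI (D : ℕ) (q : ℚ) : Prop := ∃ (k : ℕ) (n : ℤ), (D : ℚ) ^ k * q = n

/-- `q` is a unit of `ℤ[1/D]` up to the factor `c` -/
def Alm (D c : ℕ) (q : ℚ) : Prop := SI D (c * q) ∧ SI D (c * q⁻¹)

theorem SI.mul {D : ℕ} {p q : ℚ} (hp : SI D p) (hq : SI D q) : SI D (p * q) := by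
  obtain ⟨k, n, h1⟩ := hp
  obtain ⟨l, m, h2⟩ := hq
  refine ⟨k + l, n * m, ?_⟩
  push_cast
  rw [← h1, ← h2]
  ring

theorem SI.int {D : ℕ} (n : ℤ) : SI D (n : ℚ) := ⟨0, n, by simp⟩

theorem SI.nat {D : ℕ} (n : ℕ) : SI D (n : ℚ) := ⟨0, n, by simp⟩

theorem Alm.mul {D c c' : ℕ} {p q : ℚ} (hp : Alm D c p) (hq : Alm D c' q) :
    Alm D (c * c') (p * q) := by
  constructor
  · have := hp.1.mul hq.1
    convert this using 1
    push_cast; ring
  · have := hp.2.mul hq.2
    convert this using 1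
    push_cast; rw [mul_inv]; ring

theorem Alm.mono {D c : ℕ} {q : ℚ} (m : ℕ) (hq : Alm D c q) : Alm D (c * m) q := by
  constructor
  · have := hq.1.mul (SI.nat (D := D) m)
    convert this using 1
    push_cast; ring
  · have := hq.2.mul (SI.nat (D := D) m)
    convert this using 1
    push_cast; ring

theorem Alm.of_dvd {D c c' : ℕ} {q : ℚ} (hq : Alm D c q) (h : c ∣ c') : Alm D c' q := by
  obtain ⟨m, rfl⟩ := h
  exact hq.mono m

theorem Alm.neg {D c : ℕ} {q : ℚ} (hq : Alm D c q) : Alm D c (-q) := by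
  constructor
  · have := hq.1.mul (SI.int (D := D) (-1))
    convert this using 1
    push_cast; ring
  · have := hq.2.mul (SI.int (D := D) (-1))
    convert this using 1
    push_cast; rw [inv_neg]; ring

theorem Alm.abs {D c : ℕ} {q : ℚ} (hq : Alm D c q) : Alm D c |q| := by
  rcases abs_choice q with h | h
  · rwa [h]
  · rw [h]; exact hq.neg

theorem Alm.inv {D c : ℕ} {q : ℚ} (hq : Alm D c q) : Alm D c q⁻¹ :=
  ⟨hq.2, by rw [inv_inv]; exact hq.1⟩

theorem Alm.one {D : ℕ} : Alm D 1 1 := ⟨⟨0, 1, by simp⟩, ⟨0, 1, by simp⟩⟩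

theorem Alm.prod {D : ℕ} {ι : Type*} (s : Finset ι) {c : ι → ℕ} {q : ι → ℚ}
    (h : ∀ i ∈ s, Alm D (c i) (q i)) : Alm D (∏ i ∈ s, c i) (∏ i ∈ s, q i) := by
  classical
  induction s using Finset.induction_on with
  | empty => simpa using Alm.one
  | insert a s ha ih =>
    rw [Finset.prod_insert ha, Finset.prod_insert ha]
    exact (h a (Finset.mem_insert_self a s)).mul
      (ih fun i hi => h i (Finset.mem_insert_of_mem hi))

theorem Alm.int {D : ℕ} {z : ℤ} (hz : z ≠ 0) : Alm D z.natAbs (z : ℚ) := by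
  constructor
  · exact (SI.nat _).mul (SI.int z)
  · refine ⟨0, z.sign, ?_⟩
    have hz' : (z : ℚ) ≠ 0 := by exact_mod_cast hz
    rw [pow_zero, one_mul, Nat.cast_natAbs, ← div_eq_mul_inv, div_eq_iff hz']
    push_cast
    have := Int.sign_mul_abs z
    have h2 : (z.sign : ℚ) * z = |(z : ℚ)| := by
      have h3 := Int.sign_mul_self_eq_abs z
      exact_mod_cast h3
    exact h2.symm

theorem Alm.rat {D : ℕ} {q : ℚ} (hq : q ≠ 0) : Alm D (q.num.natAbs * q.den) q := by
  have h1 : Alm D q.num.natAbs (q.num : ℚ) := Alm.int (Rat.num_ne_zero.2 hq)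
  have h2 : Alm D q.den ((q.den : ℕ) : ℚ)⁻¹ := by
    have : Alm D ((q.den : ℤ)).natAbs (((q.den : ℤ)) : ℚ) := Alm.int (by exact_mod_cast q.den_ne_zero)
    rw [Int.natAbs_natCast] at this
    have h3 := this.inv
    push_cast at h3
    exact h3
  have h3 := h1.mul h2
  rwa [← div_eq_mul_inv, Rat.num_div_den] at h3

theorem logHeight_int {z : ℤ} (hz : z ≠ 0) : logHeight₁ (z : ℚ) = Real.log |(z : ℝ)| := by
  rw [Rat.logHeight₁_eq_log_max]
  have h1 : (max (z : ℚ).num.natAbs (z : ℚ).den : ℕ) = z.natAbs := by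
    rw [Rat.num_intCast, Rat.den_intCast]
    have := Int.natAbs_pos.2 hz
    omega
  rw [h1, Nat.cast_natAbs]
  push_cast
  rfl

/-- every term of a vanishing sum of `n` almost units has a partner -/
def PC (D n : ℕ) (A : ℝ) (J : Type) [Fintype J] : Prop :=
  ∀ u : J → ℚ, (∀ j, u j ≠ 0) → ∑ j, u j = 0 → ∀ c : ℕ, 0 < c → (∀ j, Alm D c (u j)) →
    ∀ i, ∃ j, j ≠ i ∧ logHeight₁ (u i / u j) ≤ 8 * n * Real.log c + A

theorem PC_congr {D n : ℕ} {A : ℝ} {J J' : Type} [Fintype J] [Fintype J'] (e : J ≃ J')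
    (h : PC D n A J) : PC D n A J' := by
  intro u hu hs c hc ha i
  obtain ⟨j, hj, hh⟩ := h (u ∘ e) (fun j => hu _) (by
    rw [← hs]; exact Equiv.sum_comp e u) c hc (fun j => ha _) (e.symm i)
  refine ⟨e j, fun h => hj ?_, ?_⟩
  · rw [← h]; simp
  · simpa using hh

/-- a primitive integer vector -/
theorem exists_prim {n : ℕ} (u : Fin (n + 1) → ℚ) (hu : ∀ j, u j ≠ 0) :
    ∃ (x : Fin (n + 1) → ℤ) (lam : ℚ), lam ≠ 0 ∧ (∀ j, (x j : ℚ) = lam * u j) ∧
      ∃ m : Fin (n + 1) → ℤ, ∑ j, m j * x j = 1 := by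
  classical
  set d : ℕ := ∏ j, (u j).den with hd
  have hd0 : (d : ℚ) ≠ 0 := by
    rw [hd]
    exact_mod_cast Finset.prod_ne_zero_iff.2 fun j _ => (u j).den_ne_zero
  have h1 : ∀ j, ∃ z : ℤ, (z : ℚ) = d * u j := by
    intro j
    refine ⟨(u j).num * ∏ i ∈ Finset.univ.erase j, ((u i).den : ℤ), ?_⟩
    rw [hd, ← Finset.mul_prod_erase Finset.univ _ (Finset.mem_univ j)]
    push_cast
    have h2 := Rat.den_mul_eq_num (u j)
    rw [← h2]
    ring
  choose z hz using h1
  set I : Ideal ℤ := Ideal.span (Set.range z) with hI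
  obtain ⟨g, hg⟩ := (IsPrincipalIdealRing.principal I).principal
  have hgz : ∀ j, g ∣ z j := by
    intro j
    have h2 : z j ∈ I := Ideal.subset_span ⟨j, rfl⟩
    rw [hg] at h2
    exact Ideal.mem_span_singleton.1 h2
  choose x hx using hgz
  have hg0 : g ≠ 0 := by
    intro h
    have h2 := hx 0
    rw [h, zero_mul] at h2
    have h3 := hz 0
    rw [h2] at h3
    have h4 := mul_ne_zero hd0 (hu 0)
    exact h4 (by rw [← h3]; simp)
  have hgI : g ∈ I := by
    rw [hg]; exact Ideal.mem_span_singleton_self g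
  obtain ⟨m, hm⟩ := (Ideal.mem_span_range_iff_exists_fun).1 hgI
  have hg0' : (g : ℚ) ≠ 0 := by exact_mod_cast hg0
  refine ⟨x, d / g, div_ne_zero hd0 hg0', fun j => ?_, m, ?_⟩
  · rw [div_mul_eq_mul_div, ← hz j, hx j, eq_div_iff hg0']
    push_cast; ring
  · have h2 : g * ∑ j, m j * x j = g * 1 := by
      rw [mul_one, Finset.mul_sum]
      conv_rhs => rw [← hm]
      refine Finset.sum_congr rfl fun j _ => ?_
      rw [hx j]; ring
    exact mul_left_cancel₀ hg0 h2

theorem prim_dvd {n D c : ℕ} {u : Fin (n + 1) → ℚ} (hu : ∀ j, u j ≠ 0)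
    (ha : ∀ j, Alm D c (u j)) {x : Fin (n + 1) → ℤ} {lam : ℚ} (hl : lam ≠ 0)
    (hx : ∀ j, (x j : ℚ) = lam * u j) {m : Fin (n + 1) → ℤ} (hm : ∑ j, m j * x j = 1)
    (j : Fin (n + 1)) : ∃ k : ℕ, x j ∣ (D : ℤ) ^ k * ((c ^ 2 : ℕ) : ℤ) := by
  classical
  have hxj : (x j : ℚ) ≠ 0 := by rw [hx]; exact mul_ne_zero hl (hu j)
  have h1 : SI D ((c : ℚ) ^ 2 / x j) := by
    have h2 : (c : ℚ) ^ 2 / x j = ∑ i, ((m i : ℤ) : ℚ) * ((c * u i) * (c * (u j)⁻¹)) := by
      have h3 : (1 : ℚ) = ∑ i, (m i : ℚ) * x i := by exact_mod_cast hm.symm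
      rw [div_eq_iff hxj, Finset.sum_mul]
      calc (c : ℚ) ^ 2 = c ^ 2 * 1 := by ring
        _ = ∑ i, c ^ 2 * ((m i : ℚ) * x i) := by rw [h3, Finset.mul_sum]
        _ = _ := by
          refine Finset.sum_congr rfl fun i _ => ?_
          rw [hx i, hx j]
          have := hu j
          field_simp
    rw [h2]
    have h4 : ∀ s : Finset (Fin (n + 1)), SI D (∑ i ∈ s, ((m i : ℤ) : ℚ) *
        ((c * u i) * (c * (u j)⁻¹))) := by
      intro s
      induction s using Finset.induction_on with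
      | empty => exact ⟨0, 0, by simp⟩
      | insert a s has ih =>
        rw [Finset.sum_insert has]
        obtain ⟨k, z, hk⟩ := (SI.int (D := D) (m a)).mul ((ha a).1.mul (ha j).2)
        obtain ⟨l, w, hlw⟩ := ih
        refine ⟨k + l, (D : ℤ) ^ l * z + (D : ℤ) ^ k * w, ?_⟩
        push_cast
        rw [← hk, ← hlw]
        ring
    exact h4 _
  obtain ⟨k, z, hz⟩ := h1
  refine ⟨k, z, ?_⟩
  have h2 : ((D : ℚ)) ^ k * (c : ℚ) ^ 2 = x j * z := by
    rw [← hz]; field_simp
  exact_mod_cast h2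

/-- the finite form of the theorem on unit equations, for almost units -/
theorem unit_eq (D : ℕ) (hD : D ≠ 0) (n : ℕ) : ∃ A : ℝ, 0 ≤ A ∧ PC D n A (Fin n) := by
  classical
  induction n using Nat.strong_induction_on with
  | _ n ih =>
  match n, ih with
  | 0, _ => exact ⟨0, le_rfl, fun _ _ _ _ _ _ i => i.elim0⟩
  | 1, _ =>
    refine ⟨0, le_rfl, fun u hu hs c _ _ i => ?_⟩
    exfalso
    rw [Fin.sum_univ_one] at hs
    exact hu 0 hs
  | m + 2, ih =>
    obtain ⟨Y, N1, hY0, hY⟩ := fin_sub (m + 1) D (by omega) hD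
    choose A hA0 hA using ih
    -- the finite set of new relations
    set ext : (Fin (m + 1) → ℤ) → Fin (m + 2) → ℤ := fun y => Fin.cons 0 y with hext
    set Y' : Finset (Fin (m + 2) → ℤ) := (Y ×ˢ (Finset.univ : Finset (Option (Fin (m + 2))))).image
      (fun p => match p.2 with
        | none => ext p.1
        | some j1 => fun j => ext p.1 j1 - ext p.1 j) with hY'
    set W : (Fin (m + 2) → ℤ) → ℕ := fun y => ∏ j, (if y j = 0 then 1 else (y j).natAbs) with hW
    have hW1 : ∀ y, 0 < W y := by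
      intro y
      apply Finset.prod_pos
      intro j _
      split_ifs with h
      · exact one_pos
      · exact Int.natAbs_pos.2 h
    have hWd : ∀ y j, y j ≠ 0 → (y j).natAbs ∣ W y := by
      intro y j hj
      have h1 := Finset.dvd_prod_of_mem (fun j => if y j = 0 then 1 else (y j).natAbs)
        (Finset.mem_univ j)
      simp only [hj, if_false] at h1
      exact h1
    have hlW : ∀ y, 0 ≤ Real.log (W y) := fun y => Real.log_nonneg (by exact_mod_cast hW1 y)
    set A' : ℝ := ∑ k : Fin (m + 2), A k k.2 with hA'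
    have hA'0 : 0 ≤ A' := Finset.sum_nonneg fun k _ => hA0 k k.2
    set B : ℝ := 2 * |N1| + A' + ∑ y ∈ Y', (8 * (m + 2) + 2) * Real.log (W y) with hB
    have hB2 : 0 ≤ ∑ y ∈ Y', (8 * ((m : ℝ) + 2) + 2) * Real.log (W y) :=
      Finset.sum_nonneg fun y _ => mul_nonneg (by positivity) (hlW y)
    refine ⟨B, by positivity, ?_⟩
    intro u hu hs c hc ha i
    have hc1 : 0 ≤ Real.log c := Real.log_nonneg (by exact_mod_cast hc)
    obtain ⟨x, lam, hl, hx, v, hv⟩ := exists_prim u hu
    have hx0 : ∀ j, x j ≠ 0 := by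
      intro j h
      have h1 := hx j
      rw [h] at h1
      exact mul_ne_zero hl (hu j) (by rw [← h1]; simp)
    have hxs : ∑ j, x j = 0 := by
      have h1 : ((∑ j, x j : ℤ) : ℚ) = 0 := by
        push_cast
        rw [Finset.sum_congr rfl fun j _ => hx j, ← Finset.mul_sum, hs, mul_zero]
      exact_mod_cast h1
    obtain ⟨jm, -, hjm⟩ := Finset.exists_max_image Finset.univ
      (fun j => Real.log |(x j : ℝ)|) ⟨0, Finset.mem_univ _⟩
    set H := Real.log |(x jm : ℝ)| with hH
    have hH0 : 0 ≤ H := by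
      apply Real.log_nonneg
      have h1 : 1 ≤ |x jm| := Int.one_le_abs (hx0 jm)
      exact_mod_cast h1
    have hHj : ∀ j, Real.log |(x j : ℝ)| ≤ H := fun j => hjm j (Finset.mem_univ j)
    have hrat : ∀ i j, logHeight₁ (u i / u j) ≤ 2 * H := by
      intro i j
      have h1 : u i / u j = (x i : ℚ) / x j := by
        rw [hx, hx, mul_div_mul_left _ _ hl]
      rw [h1, div_eq_mul_inv]
      refine (logHeight₁_mul_le _ _).trans ?_
      rw [logHeight₁_inv, logHeight_int (hx0 i), logHeight_int (hx0 j)]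
      have := hHj i
      have := hHj j
      linarith
    -- a different index
    have hother : ∃ j, j ≠ i := by
      by_cases h : i = 0
      · exact ⟨1, by rw [h]; exact Fin.zero_ne_one.symm⟩
      · exact ⟨0, fun h' => h h'.symm⟩
    by_cases hsmall : H < 2 * ((m + 1 : ℕ) + 1 : ℝ) * Real.log ((c ^ 2 : ℕ) : ℝ) ∨ H < N1
    · obtain ⟨j, hj⟩ := hother
      refine ⟨j, hj, (hrat i j).trans ?_⟩
      rcases hsmall with h | h
      · push_cast at h ⊢
        rw [Real.log_pow] at h
        push_cast at h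
        have : 0 ≤ B := by positivity
        nlinarith
      · have h1 := le_abs_self N1
        have h2 : 2 * |N1| ≤ B := by rw [hB]; linarith
        push_cast
        have h3 : 0 ≤ 8 * ((m : ℝ) + 2) * Real.log c := by positivity
        linarith
    push Not at hsmall
    obtain ⟨y, hyY, hyx⟩ := hY x (c ^ 2) (by positivity) hx0 hxs ⟨v, hv⟩
      (fun j => prim_dvd hu ha hl hx hv j) H hHj ⟨jm, rfl⟩ hsmall.1 hsmall.2
    -- the new relation
    have hyx' : ∑ j, ext y j * x j = 0 := by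
      rw [Fin.sum_univ_succ]
      simp only [hext, Fin.cons_zero, Fin.cons_succ, zero_mul, zero_add]
      exact hyx
    obtain ⟨y', hy'Y, hy'x, hy'i, hy'0⟩ : ∃ y' ∈ Y', ∑ j, y' j * x j = 0 ∧ y' i ≠ 0 ∧
        ∃ j, y' j = 0 := by
      by_cases hyi : ext y i = 0
      · obtain ⟨j1, hj1⟩ : ∃ j1, ext y j1 ≠ 0 := by
          by_contra h
          push Not at h
          apply hY0 y hyY
          ext l
          have := h l.succ
          simpa [hext] using this
        refine ⟨fun j => ext y j1 - ext y j, ?_, ?_, ?_, j1, by simp⟩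
        · rw [hY', Finset.mem_image]
          exact ⟨(y, some j1), Finset.mem_product.2 ⟨hyY, Finset.mem_univ _⟩, rfl⟩
        · simp only [sub_mul, Finset.sum_sub_distrib]
          rw [hyx', ← Finset.mul_sum, hxs]; simp
        · simp only [hyi, sub_zero]; exact hj1
      · refine ⟨ext y, ?_, hyx', hyi, 0, by simp [hext]⟩
        rw [hY', Finset.mem_image]
        exact ⟨(y, none), Finset.mem_product.2 ⟨hyY, Finset.mem_univ _⟩, rfl⟩
    set J' := {j : Fin (m + 2) // y' j ≠ 0} with hJ'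
    have hcard : Fintype.card J' < m + 2 := by
      obtain ⟨j, hj⟩ := hy'0
      have h1 : Fintype.card J' < Fintype.card (Fin (m + 2)) :=
        Fintype.card_subtype_lt (x := j) (by simpa using hj)
      simpa using h1
    have hPC : PC D (Fintype.card J') (A _ hcard) J' :=
      PC_congr (Fintype.equivFin J').symm (hA _ hcard)
    have hcW : 0 < c * W y' := Nat.mul_pos hc (hW1 _)
    obtain ⟨⟨j, hj0⟩, hji, hh⟩ := hPC (fun j => (y' j.1 : ℚ) * u j.1)
      (fun j => mul_ne_zero (by exact_mod_cast j.2) (hu _)) (by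
        have h1 : ∑ j, (y' j : ℚ) * u j = 0 := by
          have h2 : lam * ∑ j, (y' j : ℚ) * u j = 0 := by
            rw [Finset.mul_sum]
            have h3 : ((∑ j, y' j * x j : ℤ) : ℚ) = 0 := by rw [hy'x]; simp
            rw [← h3]
            push_cast
            refine Finset.sum_congr rfl fun j _ => ?_
            rw [hx j]; ring
          exact (mul_eq_zero.1 h2).resolve_left hl
        rw [← h1]
        rw [← Finset.sum_subtype (Finset.univ.filter fun j => y' j ≠ 0) (by simp)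
          (fun j => (y' j : ℚ) * u j)]
        refine Finset.sum_filter_of_ne fun j _ hj => ?_
        exact_mod_cast left_ne_zero_of_mul hj) (c * W y') hcW (by
        intro j
        have h1 := (Alm.int (D := D) j.2).mul (ha j.1)
        refine h1.of_dvd ?_
        rw [mul_comm]
        exact mul_dvd_mul_left c (hWd y' j.1 j.2)) ⟨i, hy'i⟩
    refine ⟨j, fun h => hji (Subtype.ext h), ?_⟩
    have hyj : (y' j : ℚ) ≠ 0 := by exact_mod_cast hj0
    have hyi : (y' i : ℚ) ≠ 0 := by exact_mod_cast hy'i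
    have h1 : u i / u j = ((y' i : ℚ) * u i / (y' j * u j)) * ((y' i : ℚ)⁻¹ * y' j) := by
      have := hu j
      field_simp
    have hWle : ∀ j, y' j ≠ 0 → logHeight₁ (y' j : ℚ) ≤ Real.log (W y') := by
      intro j hj
      rw [logHeight_int hj]
      apply Real.log_le_log
      · have h2 : 1 ≤ |y' j| := Int.one_le_abs hj
        have : (1 : ℝ) ≤ |(y' j : ℝ)| := by exact_mod_cast h2
        linarith
      · have h2 := Nat.le_of_dvd (hW1 y') (hWd y' j hj)
        have h3 : (((y' j).natAbs : ℕ) : ℝ) ≤ W y' := by exact_mod_cast h2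
        rw [Nat.cast_natAbs] at h3
        push_cast at h3
        exact h3
    rw [h1]
    refine (logHeight₁_mul_le _ _).trans ?_
    have h2 := logHeight₁_mul_le ((y' i : ℚ)⁻¹) (y' j)
    rw [logHeight₁_inv] at h2
    have h3 := hWle i hy'i
    have h4 := hWle j hj0
    have h5 : A _ hcard ≤ A' :=
      Finset.single_le_sum (f := fun k : Fin (m + 2) => A k k.2) (fun k _ => hA0 k k.2)
        (Finset.mem_univ (⟨_, hcard⟩ : Fin (m + 2)))
    have h6 : (8 * ((m : ℝ) + 2) + 2) * Real.log (W y') ≤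
        ∑ y ∈ Y', (8 * ((m : ℝ) + 2) + 2) * Real.log (W y) :=
      Finset.single_le_sum (f := fun y => (8 * ((m : ℝ) + 2) + 2) * Real.log (W y))
        (fun y _ => mul_nonneg (by positivity) (hlW y)) hy'Y
    have h7 : (Fintype.card J' : ℝ) ≤ m + 2 := by
      have h8 : (Fintype.card J' : ℝ) ≤ ((m + 2 : ℕ) : ℝ) := by exact_mod_cast hcard.le
      push_cast at h8
      exact h8
    have h8 : Real.log ((c * W y' : ℕ) : ℝ) = Real.log c + Real.log (W y') := by
      push_cast
      rw [Real.log_mul (by exact_mod_cast hc.ne') (by exact_mod_cast (hW1 y').ne')]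
    rw [h8] at hh
    have h9 : 8 * (Fintype.card J' : ℝ) * (Real.log c + Real.log (W y')) ≤
        8 * ((m : ℝ) + 2) * (Real.log c + Real.log (W y')) := by
      have h10 : 0 ≤ Real.log c + Real.log (W y') := add_nonneg hc1 (hlW _)
      nlinarith
    have h10 : 0 ≤ 2 * |N1| := by positivity
    push_cast
    rw [hB]
    linarith

/-- the partner lemma, uniformly for at most `n` terms -/
theorem partner_all (D : ℕ) (hD : D ≠ 0) (n : ℕ) : ∃ A : ℝ, 0 ≤ A ∧
    ∀ (J : Type) [Fintype J], Fintype.card J ≤ n → PC D n A J := by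
  classical
  choose A hA0 hA using unit_eq D hD
  refine ⟨∑ k ∈ Finset.range (n + 1), A k, Finset.sum_nonneg fun k _ => hA0 k, ?_⟩
  intro J _ hJ u hu hs c hc ha i
  obtain ⟨j, hj, hh⟩ := PC_congr (Fintype.equivFin J).symm (hA (Fintype.card J)) u hu hs c hc ha i
  refine ⟨j, hj, hh.trans ?_⟩
  have h1 : A (Fintype.card J) ≤ ∑ k ∈ Finset.range (n + 1), A k :=
    Finset.single_le_sum (f := A) (fun k _ => hA0 k) (Finset.mem_range.2 (by omega))
  have h2 : (Fintype.card J : ℝ) ≤ n := by exact_mod_cast hJ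
  have hc1 : 0 ≤ Real.log c := Real.log_nonneg (by exact_mod_cast hc)
  have h3 := mul_le_mul_of_nonneg_right h2 hc1
  nlinarith

end TH951.NF
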