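import Mathlib
import Pool.Agent.TH951.NF.SU
import Pool.Agent.TH951.NF.Comb
import Pool.Agent.TH951.NF.LL
import Pool.Agent.TH951.NF.Hts
import Pool.Agent.TH951.NF.Gal

/-! Points of bounded degree with almost unit differences: partner permutations, and the comparison
of the differences if the norms of the differences are comparable. -/

set_option autoImplicit false

open Height NumberField Module

namespace TH951.NF

universe w

section units

variable {L : Type w} [Field L]

/-- `y` is a unit of the integral closure of `ℤ[1/D]` up to the factor `b` -/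
def LAlm (D b : ℕ) (y : L) : Prop :=
  (∃ k : ℕ, IsIntegral ℤ ((D : L) ^ k * (b * y))) ∧ ∃ k : ℕ, IsIntegral ℤ ((D : L) ^ k * (b * y⁻¹))

theorem LAlm.mul {D b c : ℕ} {y z : L} (hy : LAlm D b y) (hz : LAlm D c z) :
    LAlm D (b * c) (y * z) := by
  obtain ⟨⟨k1, h1⟩, k2, h2⟩ := hy
  obtain ⟨⟨k3, h3⟩, k4, h4⟩ := hz
  constructor
  · refine ⟨k1 + k3, ?_⟩
    have e1 : (D : L) ^ (k1 + k3) * (((b * c : ℕ) : L) * (y * z)) =
        ((D : L) ^ k1 * (b * y)) * ((D : L) ^ k3 * (c * z)) := by push_cast; ring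
    rw [e1]; exact h1.mul h3
  · refine ⟨k2 + k4, ?_⟩
    have e1 : (D : L) ^ (k2 + k4) * (((b * c : ℕ) : L) * (y * z)⁻¹) =
        ((D : L) ^ k2 * (b * y⁻¹)) * ((D : L) ^ k4 * (c * z⁻¹)) := by
      push_cast; rw [mul_inv]; ring
    rw [e1]; exact h2.mul h4

theorem LAlm.inv {D b : ℕ} {y : L} (hy : LAlm D b y) : LAlm D b y⁻¹ :=
  ⟨hy.2, by rw [inv_inv]; exact hy.1⟩

theorem LAlm.neg {D b : ℕ} {y : L} (hy : LAlm D b y) : LAlm D b (-y) := by
  obtain ⟨⟨k1, h1⟩, k2, h2⟩ := hy
  constructor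
  · refine ⟨k1, ?_⟩
    have e1 : (D : L) ^ k1 * (b * -y) = -((D : L) ^ k1 * (b * y)) := by ring
    rw [e1]; exact h1.neg
  · refine ⟨k2, ?_⟩
    have e1 : (D : L) ^ k2 * (b * (-y)⁻¹) = -((D : L) ^ k2 * (b * y⁻¹)) := by
      rw [inv_neg]; ring
    rw [e1]; exact h2.neg

theorem LAlm.one {D : ℕ} {b : ℕ} : LAlm D b (1 : L) := by
  have h : IsIntegral ℤ ((b : ℕ) : L) := by
    have := isIntegral_algebraMap (R := ℤ) (A := L) (x := (b : ℤ))
    simpa using this
  constructor
  · exact ⟨0, by simpa using h⟩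
  · exact ⟨0, by simpa using h⟩

theorem LAlm.norm [NumberField L] {D b r : ℕ} (hr : finrank ℚ L ≤ r) {y : L} (hy : LAlm D b y) :
    Alm D (b ^ r) (Algebra.norm ℚ y) := by
  have key : ∀ z : L, (∃ k : ℕ, IsIntegral ℤ ((D : L) ^ k * (b * z))) →
      SI D (((b ^ r : ℕ) : ℚ) * Algebra.norm ℚ z) := by
    rintro z ⟨k, hk⟩
    have h1 := Algebra.isIntegral_norm ℚ hk
    obtain ⟨n, hn⟩ := IsIntegrallyClosed.isIntegral_iff.1 h1
    have h2 : Algebra.norm ℚ ((D : L) ^ k * (b * z)) =
        (D : ℚ) ^ (k * finrank ℚ L) * ((b : ℚ) ^ finrank ℚ L * Algebra.norm ℚ z) := by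
      rw [map_mul, map_mul, map_pow]
      have h3 : ∀ n : ℕ, Algebra.norm ℚ (n : L) = (n : ℚ) ^ finrank ℚ L := by
        intro n
        have := Algebra.norm_algebraMap (S := L) (n : ℚ)
        simpa using this
      rw [h3, h3, ← pow_mul, mul_comm (finrank ℚ L) k]
    have h3 : SI D ((b : ℚ) ^ finrank ℚ L * Algebra.norm ℚ z) :=
      ⟨k * finrank ℚ L, n, by rw [← h2, ← hn]; simp⟩
    have h4 := h3.mul (SI.nat (D := D) (b ^ (r - finrank ℚ L)))
    convert h4 using 1
    push_cast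
    have h5 : (b : ℚ) ^ r = b ^ finrank ℚ L * b ^ (r - finrank ℚ L) := by
      rw [← pow_add]; congr 1; omega
    rw [h5]; ring
  constructor
  · exact key y hy.1
  · have h1 : (Algebra.norm ℚ y)⁻¹ = Algebra.norm ℚ y⁻¹ := by
      by_cases h0 : y = 0
      · subst h0
        rw [inv_zero, Algebra.norm_zero, inv_zero]
      · have h2 : Algebra.norm ℚ y * Algebra.norm ℚ y⁻¹ = 1 := by
          rw [← map_mul, mul_inv_cancel₀ h0, map_one]
        exact (eq_inv_of_mul_eq_one_right h2).symm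
    rw [h1]
    exact key _ hy.2

end units

/-- the value of an element of the additive version of the multiplicative group -/
def vl (g : Additive ℚˣ) : ℚ := ((Additive.toMul g : ℚˣ) : ℚ)

theorem vl_add (g h : Additive ℚˣ) : vl (g + h) = vl g * vl h := rfl

theorem vl_neg (g : Additive ℚˣ) : vl (-g) = (vl g)⁻¹ := by
  unfold vl
  rw [toMul_neg, Units.val_inv_eq_inv_val]

theorem vl_sub (g h : Additive ℚˣ) : vl (g - h) = vl g / vl h := by
  rw [sub_eq_add_neg, vl_add, vl_neg, div_eq_mul_inv]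

theorem vl_zero : vl 0 = 1 := rfl

theorem vl_ne_zero (g : Additive ℚˣ) : vl g ≠ 0 := Units.ne_zero _

theorem vl_sum {ι : Type*} (s : Finset ι) (f : ι → Additive ℚˣ) :
    vl (∑ i ∈ s, f i) = ∏ i ∈ s, vl (f i) := by
  classical
  induction s using Finset.induction_on with
  | empty => exact vl_zero
  | insert a s ha ih => rw [Finset.sum_insert ha, Finset.prod_insert ha, vl_add, ih]

/-- the length -/
noncomputable def len (g : Additive ℚˣ) : ℝ := logHeight₁ (vl g)

theorem len_neg (g : Additive ℚˣ) : len (-g) = len g := by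
  unfold len; rw [vl_neg, logHeight₁_inv]

theorem len_add (g h : Additive ℚˣ) : len (g + h) ≤ len g + len h := by
  unfold len; rw [vl_add]; exact logHeight₁_mul_le _ _

theorem logHeight_abs (q : ℚ) : logHeight₁ |q| = logHeight₁ q := by
  rcases abs_choice q with h | h
  · rw [h]
  · rw [h, logHeight₁_neg]

open scoped Classical in
/-- a nonzero rational number as an element of the group -/
noncomputable def ad (q : ℚ) : Additive ℚˣ :=
  Additive.ofMul (if h : q = 0 then 1 else Units.mk0 |q| (abs_ne_zero.2 h))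

theorem vl_ad {q : ℚ} (h : q ≠ 0) : vl (ad q) = |q| := by
  unfold vl ad
  rw [dif_neg h]
  rfl

section two

variable {L : Type w} [Field L] [NumberField L] {M : Type w} [Field M] [NumberField M]

theorem norm_ne {y : L} (hy : y ≠ 0) : Algebra.norm ℚ y ≠ 0 := by
  rw [Ne, Algebra.norm_eq_zero_iff]; exact hy

/-- partners of interlaced tuples -/
theorem tuple_partner
    (hN : ∀ x : L, algebraMap ℚ M (Algebra.norm ℚ x) = ∏ e : L →ₐ[ℚ] M, e x)
    {m : ℕ} (hm : 2 ^ Fintype.card (L →ₐ[ℚ] M) < m) {r : ℕ} (hr : finrank ℚ L ≤ r)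
    {D b : ℕ} (hb : 0 < b) {A : ℝ} (hA : PC D m.factorial A (Equiv.Perm (Fin m)))
    {N : ℕ} (x : ℕ → L)
    (hx : ∀ i j, i < N → j < N → i ≠ j → x i ≠ x j)
    (hS : ∀ i j, i < N → j < N → i ≠ j → LAlm D b (x i - x j))
    (z : Fin (2 * m) → ℕ) (hz : StrictMono z) (hzN : ∀ l, z l < N) :
    ∃ σ : Equiv.Perm (Fin m), σ ≠ 1 ∧
      len (rel (fun i j => ad (Algebra.norm ℚ (x i - x j))) σ z) ≤
        8 * m.factorial * (r * m * Real.log b) + A := by
  classical
  have hne : ∀ a b : Fin m, z ⟨2 * a + 1, by omega⟩ ≠ z ⟨2 * b, by omega⟩ := by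
    intro a b h
    have := congrArg Fin.val (hz.injective h)
    simp only at this
    omega
  set u : Fin m → Fin m → ℚ := fun a b => Algebra.norm ℚ (x (z ⟨2 * a + 1, by omega⟩) -
    x (z ⟨2 * b, by omega⟩)) with hu
  have hu0 : ∀ a b, u a b ≠ 0 := by
    intro a b
    apply norm_ne
    rw [Ne, sub_eq_zero]
    exact hx _ _ (hzN _) (hzN _) (hne a b)
  have hua : ∀ a b', Alm D (b ^ r) (u a b') := fun a b' =>
    (hS _ _ (hzN _) (hzN _) (hne a b')).norm hr
  set g : Equiv.Perm (Fin m) → ℚ := fun σ => Equiv.Perm.sign σ • ∏ b, u b (σ b) with hg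
  have hgabs : ∀ σ, |g σ| = ∏ b, |u b (σ b)| := by
    intro σ
    simp only [hg]
    rw [← Finset.abs_prod]
    rcases Int.units_eq_one_or (Equiv.Perm.sign σ) with h | h
    · rw [h, one_smul]
    · rw [h, Units.neg_smul, one_smul, abs_neg]
  have hg0 : ∀ σ, g σ ≠ 0 := by
    intro σ
    rw [← abs_ne_zero, hgabs]
    exact Finset.prod_ne_zero_iff.2 fun b _ => abs_ne_zero.2 (hu0 _ _)
  have hga : ∀ σ, Alm D ((b ^ r) ^ m) (g σ) := by
    intro σ
    have h1 : Alm D ((b ^ r) ^ m) (∏ b, u b (σ b)) := by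
      have := Alm.prod (D := D) (Finset.univ : Finset (Fin m)) (c := fun _ => b ^ r)
        (q := fun b => u b (σ b)) (fun i _ => hua _ _)
      simpa using this
    simp only [hg]
    rcases Int.units_eq_one_or (Equiv.Perm.sign σ) with h | h
    · rw [h, one_smul]; exact h1
    · rw [h, Units.neg_smul, one_smul]; exact h1.neg
  have hdet : ∑ σ, g σ = 0 := by
    have h1 := det_eq_zero hN hm (fun a => x (z ⟨2 * a + 1, by omega⟩))
      (fun b => x (z ⟨2 * b, by omega⟩))
    rw [← Matrix.det_transpose, Matrix.det_apply] at h1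
    exact h1
  obtain ⟨σ, hσ, hh⟩ := hA g hg0 hdet ((b ^ r) ^ m) (by positivity) hga 1
  refine ⟨σ, hσ, ?_⟩
  have h2 : len (rel (fun i j => ad (Algebra.norm ℚ (x i - x j))) σ z) =
      logHeight₁ (g 1 / g σ) := by
    unfold len rel
    rw [vl_sum]
    have h3 : ∀ b : Fin m, vl (ad (Algebra.norm ℚ (x (z ⟨2 * b + 1, by omega⟩) -
        x (z ⟨2 * (σ b : ℕ), by omega⟩))) - ad (Algebra.norm ℚ (x (z ⟨2 * b + 1, by omega⟩) -
        x (z ⟨2 * (b : ℕ), by omega⟩)))) = |u b (σ b)| / |u b b| := by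
      intro b
      rw [vl_sub, vl_ad (hu0 b (σ b)), vl_ad (hu0 b b)]
    rw [Finset.prod_congr rfl fun b _ => h3 b, Finset.prod_div_distrib, ← hgabs]
    have h4 : ∏ b, |u b b| = |g 1| := by rw [hgabs]; rfl
    rw [h4, ← abs_div, logHeight_abs, ← logHeight₁_inv, inv_div]
  rw [h2]
  refine hh.trans (le_of_eq ?_)
  push_cast
  rw [Real.log_pow, Real.log_pow]
  ring

/-- If all the norms of the differences of many elements are nearly proportional then all the
differences are nearly proportional. -/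
theorem spread (hN : ∀ x : L, algebraMap ℚ M (Algebra.norm ℚ x) = ∏ e : L →ₐ[ℚ] M, e x)
    {C0 K : ℕ} (hK : 2 ≤ K)
    (hloc : ∀ (ω : (L →ₐ[ℚ] M) → ℕ → ℕ → ℝ) (_ : ∀ e i j, ω e i j = ω e j i)
    (ε : ℝ) (_ : 0 ≤ ε) (_ : ∀ e i j k, i < K → j < K → k < K → i ≠ j → j ≠ k → i ≠ k →
      min (ω e i j) (ω e j k) ≤ ω e i k + ε) (c η : ℝ)
    (_ : ∀ i j, i < K → j < K → i ≠ j → |∑ e, ω e i j - c| ≤ η),
    ∀ e i j a b, i < K → j < K → a < K → b < K → i ≠ j → a ≠ b →
      |ω e i j - ω e a b| ≤ C0 * (η + K * ε))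
    (z : ℕ → L) (hz : ∀ i j, i < K → j < K → i ≠ j → z i ≠ z j) (B : ℝ)
    (hB : ∀ i j, i < K → j < K → i ≠ j →
      logHeight₁ (Algebra.norm ℚ (z i - z j) / Algebra.norm ℚ (z 0 - z 1)) ≤ B)
    (i j a b : ℕ) (hi : i < K) (hj : j < K) (ha : a < K) (hb : b < K) (hij : i ≠ j) (hab : a ≠ b)
    (e : L →ₐ[ℚ] M) :
    ht (e ((z i - z j) / (z a - z b))) ≤ C0 * (2 * K ^ 2 * B + K) := by
  classical
  set v : ℕ → ℕ → ℚ := fun i j => Algebra.norm ℚ (z i - z j) with hv
  have hz0 : ∀ i j, i < K → j < K → i ≠ j → z i - z j ≠ 0 := fun i j hi hj hij =>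
    sub_ne_zero.2 (hz _ _ hi hj hij)
  have hv0 : ∀ i j, i < K → j < K → i ≠ j → v i j ≠ 0 := fun i j hi hj hij =>
    norm_ne (hz0 i j hi hj hij)
  have he0 : ∀ (e : L →ₐ[ℚ] M) {y : L}, y ≠ 0 → e y ≠ 0 := fun e y hy => by
    rw [Ne, map_eq_zero_iff e e.toRingHom.injective]; exact hy
  have h01 : (0 : ℕ) ≠ 1 := by omega
  have h0K : 0 < K := by omega
  have h1K : 1 < K := by omega
  -- the finite set of elements
  set PP := (Finset.range K ×ˢ Finset.range K).filter (fun p : ℕ × ℕ => p.1 ≠ p.2) with hPP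
  have hPPm : ∀ p ∈ PP, p.1 < K ∧ p.2 < K ∧ p.1 ≠ p.2 := by
    intro p hp
    rw [hPP, Finset.mem_filter, Finset.mem_product, Finset.mem_range, Finset.mem_range] at hp
    exact ⟨hp.1.1, hp.1.2, hp.2⟩
  have hPPi : ∀ i j, i < K → j < K → i ≠ j → (i, j) ∈ PP := by
    intro i j hi hj hij
    rw [hPP, Finset.mem_filter, Finset.mem_product, Finset.mem_range, Finset.mem_range]
    exact ⟨⟨hi, hj⟩, hij⟩
  set X : Finset M := (PP.image fun p => algebraMap ℚ M (v p.1 p.2 / v 0 1)) ∪
    {e ((z i - z j) / (z a - z b))} with hX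
  have hX0 : ∀ x ∈ X, x ≠ 0 := by
    intro x hx
    rcases Finset.mem_union.1 hx with hx | hx
    · obtain ⟨p, hp, rfl⟩ := Finset.mem_image.1 hx
      obtain ⟨h1, h2, h3⟩ := hPPm p hp
      rw [Ne, map_eq_zero_iff _ (algebraMap ℚ M).injective]
      exact div_ne_zero (hv0 _ _ h1 h2 h3) (hv0 0 1 h0K h1K h01)
    · rw [Finset.mem_singleton.1 hx]
      exact he0 e (div_ne_zero (hz0 i j hi hj hij) (hz0 a b ha hb hab))
  obtain ⟨I, _, w, ε, hε0, hε, hεs, hpf, hht⟩ := exists_places X hX0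
  have hXv : ∀ i j, i < K → j < K → i ≠ j → algebraMap ℚ M (v i j / v 0 1) ∈ X :=
    fun i j hi hj hij => Finset.mem_union_left _ (Finset.mem_image.2 ⟨(i, j), hPPi i j hi hj hij, rfl⟩)
  set η : I → ℝ := fun l => ∑ p ∈ PP, |Real.log (w l (algebraMap ℚ M (v p.1 p.2 / v 0 1)))| with hη
  have hη0 : ∀ l, 0 ≤ η l := fun l => Finset.sum_nonneg fun _ _ => abs_nonneg _
  have hsplit : ∀ l : I, ∀ i j, i < K → j < K → i ≠ j →
      ∑ e : L →ₐ[ℚ] M, (-Real.log (w l (e (z i - z j)))) =
        -Real.log (w l (algebraMap ℚ M (v i j))) := by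
    intro l i j hi hj hij
    simp only [hv]
    rw [hN, map_prod, Real.log_prod, Finset.sum_neg_distrib]
    intro e _
    exact (w l).ne_zero (he0 e (hz0 i j hi hj hij))
  have hpt : ∀ l : I, ∀ (e : L →ₐ[ℚ] M) i j a b, i < K → j < K → a < K → b < K → i ≠ j → a ≠ b →
      |-Real.log (w l (e (z i - z j))) - -Real.log (w l (e (z a - z b)))| ≤
        C0 * (η l + K * ε l) := by
    intro l
    refine hloc (fun e i j => -Real.log (w l (e (z i - z j)))) ?_ (ε l) (hε0 l) ?_
      (-Real.log (w l (algebraMap ℚ M (v 0 1)))) (η l) ?_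
    · intro e i j
      rw [← neg_sub, map_neg, map_neg_eq_map]
    · intro e i j k hi hj hk hij hjk hik
      have hp1 : 0 < w l (e (z i - z j)) := (w l).pos (he0 e (hz0 i j hi hj hij))
      have hp2 : 0 < w l (e (z j - z k)) := (w l).pos (he0 e (hz0 j k hj hk hjk))
      have hp3 : 0 < w l (e (z i - z k)) := (w l).pos (he0 e (hz0 i k hi hk hik))
      have h1 := hε l (e (z i - z j)) (e (z j - z k))
      rw [← map_add, sub_add_sub_cancel] at h1
      have h2 : Real.log (w l (e (z i - z k))) ≤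
          ε l + Real.log (max (w l (e (z i - z j))) (w l (e (z j - z k)))) := by
        have h3 := Real.log_le_log hp3 h1
        rwa [Real.log_mul (Real.exp_pos _).ne' (lt_max_of_lt_left hp1).ne', Real.log_exp] at h3
      rw [min_le_iff]
      rcases max_cases (w l (e (z i - z j))) (w l (e (z j - z k))) with ⟨h3, -⟩ | ⟨h3, -⟩
      · left; rw [h3] at h2; linarith
      · right; rw [h3] at h2; linarith
    · intro i j hi hj hij
      rw [hsplit l i j hi hj hij]
      have h1 : Real.log (w l (algebraMap ℚ M (v i j / v 0 1))) =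
          Real.log (w l (algebraMap ℚ M (v i j))) - Real.log (w l (algebraMap ℚ M (v 0 1))) := by
        rw [map_div₀, map_div₀, Real.log_div]
        · exact (w l).ne_zero (by simpa using hv0 i j hi hj hij)
        · exact (w l).ne_zero (by simpa using hv0 0 1 h0K h1K h01)
      have h2 : |-Real.log (w l (algebraMap ℚ M (v i j))) -
          -Real.log (w l (algebraMap ℚ M (v 0 1)))| =
          |Real.log (w l (algebraMap ℚ M (v i j / v 0 1)))| := by
        rw [h1, ← abs_neg]; congr 1; ring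
      rw [h2, hη]
      have h3 := Finset.single_le_sum (s := PP) (f := fun p : ℕ × ℕ =>
        |Real.log (w l (algebraMap ℚ M (v p.1 p.2 / v 0 1)))|) (fun p _ => abs_nonneg _)
        (hPPi i j hi hj hij)
      exact h3
  -- the sum of the errors
  have hB0 : 0 ≤ B := (zero_le_logHeight₁ _).trans (hB 0 1 h0K h1K h01)
  have hdeg : (0 : ℝ) < finrank ℚ M := deg_pos
  have habs : ∀ x ∈ X, ∑ l, |Real.log (w l x)| = 2 * logHeight₁ x := by
    intro x hx
    have h1 : ∀ l, |Real.log (w l x)| = 2 * max (Real.log (w l x)) 0 - Real.log (w l x) := by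
      intro l
      rcases le_total 0 (Real.log (w l x)) with h | h
      · rw [abs_of_nonneg h, max_eq_left h]; ring
      · rw [abs_of_nonpos h, max_eq_right h]; ring
    rw [Finset.sum_congr rfl fun l _ => h1 l, Finset.sum_sub_distrib, hpf x hx,
      ← Finset.mul_sum, ← hht x hx, sub_zero]
  have hη2 : ∑ l, η l ≤ K ^ 2 * (2 * (finrank ℚ M * B)) := by
    simp only [hη]
    rw [Finset.sum_comm]
    calc ∑ p ∈ PP, ∑ l, |Real.log (w l (algebraMap ℚ M (v p.1 p.2 / v 0 1)))|
        ≤ ∑ p ∈ PP, (2 * (finrank ℚ M * B)) := by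
          refine Finset.sum_le_sum fun p hp => ?_
          obtain ⟨h1, h2, h3⟩ := hPPm p hp
          rw [habs _ (hXv _ _ h1 h2 h3)]
          have h4 := hB _ _ h1 h2 h3
          have h5 := ht_rat (M := M) (v p.1 p.2 / v 0 1)
          unfold ht at h5
          rw [div_eq_iff hdeg.ne'] at h5
          rw [h5]
          have h6 := mul_le_mul_of_nonneg_left h4 hdeg.le
          simp only [hv]
          linarith
      _ = PP.card * (2 * (finrank ℚ M * B)) := by rw [Finset.sum_const, nsmul_eq_mul]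
      _ ≤ K ^ 2 * (2 * (finrank ℚ M * B)) := by
          refine mul_le_mul_of_nonneg_right ?_ (by positivity)
          have h1 := Finset.card_filter_le (Finset.range K ×ˢ Finset.range K)
            (fun p : ℕ × ℕ => p.1 ≠ p.2)
          rw [Finset.card_product, Finset.card_range] at h1
          have h2 : (PP.card : ℝ) ≤ ((K * K : ℕ) : ℝ) := by exact_mod_cast h1
          push_cast at h2
          linarith [sq (K : ℝ)]
  have hmem : e ((z i - z j) / (z a - z b)) ∈ X :=
    Finset.mem_union_right _ (Finset.mem_singleton_self _)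
  have h1 : logHeight₁ (e ((z i - z j) / (z a - z b))) ≤ ∑ l, C0 * (η l + K * ε l) := by
    rw [hht _ hmem]
    refine Finset.sum_le_sum fun l _ => max_le ?_ ?_
    · have h2 := hpt l e i j a b hi hj ha hb hij hab
      have h3 : Real.log (w l (e ((z i - z j) / (z a - z b)))) =
          Real.log (w l (e (z i - z j))) - Real.log (w l (e (z a - z b))) := by
        rw [map_div₀, map_div₀, Real.log_div]
        · exact (w l).ne_zero (he0 e (hz0 i j hi hj hij))
        · exact (w l).ne_zero (he0 e (hz0 a b ha hb hab))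
      rw [h3]
      have h4 := neg_abs_le (-Real.log (w l (e (z i - z j))) - -Real.log (w l (e (z a - z b))))
      linarith
    · have h5 := hη0 l
      have h6 := hε0 l
      positivity
  rw [← Finset.mul_sum, Finset.sum_add_distrib, ← Finset.mul_sum, hεs] at h1
  unfold ht
  rw [div_le_iff₀ hdeg]
  refine h1.trans ?_
  have hlog2 : Real.log 2 ≤ 1 := by
    have := Real.log_two_lt_d9
    linarith
  have h7 : (K : ℝ) * (finrank ℚ M * Real.log 2) ≤ K * (finrank ℚ M * 1) := by
    refine mul_le_mul_of_nonneg_left (mul_le_mul_of_nonneg_left hlog2 hdeg.le) (by positivity)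
  have h8 : (C0 : ℝ) * (∑ l, η l + K * (finrank ℚ M * Real.log 2)) ≤
      C0 * (K ^ 2 * (2 * (finrank ℚ M * B)) + K * (finrank ℚ M * 1)) :=
    mul_le_mul_of_nonneg_left (add_le_add hη2 h7) (by positivity)
  refine h8.trans (le_of_eq ?_)
  ring

end two

end TH951.NF
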