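import Mathlib
import Pool.Agent.TH951.NF.Clus

/-! Many points of bounded degree with almost unit differences contain a large subset whose cross
ratios have small height. -/

set_option autoImplicit false

open Height NumberField Module

namespace TH951.NF

universe w

theorem vl_inj {g h : Additive ℚˣ} (hgh : vl g = vl h) : g = h := by
  apply Additive.toMul.injective
  exact Units.ext hgh

theorem ad_abs {p q : ℚ} (hp : p ≠ 0) (hq : q ≠ 0) (h : |p| = |q|) : ad p = ad q := by
  apply vl_inj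
  rw [vl_ad hp, vl_ad hq, h]

theorem ad_mul {p q : ℚ} (hp : p ≠ 0) (hq : q ≠ 0) : ad (p * q) = ad p + ad q := by
  apply vl_inj
  rw [vl_ad (mul_ne_zero hp hq), vl_add, vl_ad hp, vl_ad hq, abs_mul]

theorem ad_div {p q : ℚ} (hp : p ≠ 0) (hq : q ≠ 0) : ad (p / q) = ad p - ad q := by
  apply vl_inj
  rw [vl_ad (div_ne_zero hp hq), vl_sub, vl_ad hp, vl_ad hq, abs_div]

theorem len_sub_tri (a b c : Additive ℚˣ) : len (a - c) ≤ len (a - b) + len (b - c) := by
  have : a - c = (a - b) + (b - c) := by abel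
  rw [this]
  exact len_add _ _

theorem norm_div {L : Type w} [Field L] [NumberField L] (a : L)
    {b : L} (hb : b ≠ 0) : Algebra.norm ℚ (a / b) = Algebra.norm ℚ a / Algebra.norm ℚ b := by
  have h1 : Algebra.norm ℚ b ≠ 0 := norm_ne hb
  rw [eq_div_iff h1, ← map_mul, div_mul_cancel₀ a hb]

theorem norm_neg_abs {L : Type w} [Field L] [NumberField L] (a : L) :
    |Algebra.norm ℚ (-a)| = |Algebra.norm ℚ a| := by
  have h1 : Algebra.norm ℚ (-1 : L) * Algebra.norm ℚ (-1 : L) = 1 := by
    rw [← map_mul]; simp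
  have h2 : |Algebra.norm ℚ (-1 : L)| = 1 := by
    have h3 := congrArg abs h1
    rw [abs_mul, abs_one] at h3
    have h4 := abs_nonneg (Algebra.norm ℚ (-1 : L))
    nlinarith
  rw [← neg_one_mul, map_mul, abs_mul, h2, one_mul]

theorem cluster (r K : ℕ) : ∃ N C : ℕ, ∀ (D : ℕ) (A : ℝ), 0 ≤ A →
    PC D (2 ^ r + 1).factorial A (Equiv.Perm (Fin (2 ^ r + 1))) →
    ∀ (L : Type w) [Field L] [NumberField L] (M : Type w) [Field M] [NumberField M]
    (_ : ∀ x : L, algebraMap ℚ M (Algebra.norm ℚ x) = ∏ e : L →ₐ[ℚ] M, e x)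
    (_ : Fintype.card (L →ₐ[ℚ] M) = finrank ℚ L) (_ : finrank ℚ L ≤ r) (b : ℕ) (_ : 0 < b)
    (x : ℕ → L) (_ : ∀ i j, i < N → j < N → i ≠ j → x i ≠ x j)
    (_ : ∀ i j, i < N → j < N → i ≠ j → LAlm D b (x i - x j)),
    ∃ e : ℕ → ℕ, (∀ i j, i < j → j ≤ K → e i < e j) ∧ (∀ i, i ≤ K → e i < N) ∧
      ∀ i j a a', i < K → j < K → a < K → a' < K → i ≠ j → a ≠ a' → ∀ e' : L →ₐ[ℚ] M,
        ht (e' (((x (e (i + 1)) - x (e 0))⁻¹ - (x (e (j + 1)) - x (e 0))⁻¹) /
          ((x (e (a + 1)) - x (e 0))⁻¹ - (x (e (a' + 1)) - x (e 0))⁻¹))) ≤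
        C * (Real.log b + A + 1) := by
  classical
  obtain ⟨N0, C0, hloc⟩ := local_approx.{w} r
  set K' := max K (max N0 3) with hK'
  set m := 2 ^ r + 1 with hm
  obtain ⟨N, hN⟩ := comb.{0} m (K' + 1)
  refine ⟨N, C0 * (8 * K' ^ 2 * (8 * m.factorial * (r * m) + 1) + K'), ?_⟩
  intro D A hA0 hA L _ _ M _ _ hnorm hcard hr b hb x hx hS
  have hlb : 0 ≤ Real.log b := Real.log_nonneg (by exact_mod_cast hb)
  set X : ℝ := Real.log b + A + 1 with hX
  have hX1 : 1 ≤ X := by rw [hX]; linarith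
  set B : ℝ := 8 * m.factorial * (r * m * Real.log b) + A with hB
  have hB0 : 0 ≤ B := by positivity
  have hBX : B ≤ (8 * m.factorial * (r * m) + 1) * X := by
    have h1 : 0 ≤ 8 * (m.factorial : ℝ) * (r * m) := by positivity
    have h2 : Real.log b ≤ X := by rw [hX]; linarith
    have h3 : A ≤ X := by rw [hX]; linarith
    have h4 := mul_le_mul_of_nonneg_left h2 h1
    rw [hB]; nlinarith
  set U : ℕ → ℕ → Additive ℚˣ := fun i j => ad (Algebra.norm ℚ (x i - x j)) with hU
  have hUsym : ∀ i j, U i j = U j i := by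
    intro i j
    simp only [hU]
    by_cases h : x i - x j = 0
    · have h' : x j - x i = 0 := by rw [← neg_sub, h, neg_zero]
      rw [h, h']
    · have h' : x j - x i ≠ 0 := by rw [← neg_sub]; exact neg_ne_zero.2 h
      refine ad_abs (norm_ne h) (norm_ne h') ?_
      rw [← neg_sub (x j) (x i), norm_neg_abs]
  obtain ⟨e, he, heN, hcr⟩ := hN len len_neg len_add U hUsym B (fun z hz hzN => by
    refine tuple_partner (M := M) hnorm ?_ hr hb hA x hx hS z hz hzN
    rw [hcard, hm]
    exact Nat.lt_succ_of_le (Nat.pow_le_pow_right (by norm_num) hr))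
  have hKK : K ≤ K' := le_max_left _ _
  have h3K : 3 ≤ K' := (le_max_right _ _).trans (le_max_right _ _)
  have hNK : N0 ≤ K' := (le_max_left _ _).trans (le_max_right _ _)
  refine ⟨e, fun i j hij hj => he i j hij (by omega), fun i hi => heN i (by omega), ?_⟩
  -- the inverse differences
  set z : ℕ → L := fun i => (x (e (i + 1)) - x (e 0))⁻¹ with hz
  have hne : ∀ i j, i < j → j < K' + 1 → x (e i) ≠ x (e j) := fun i j hij hj =>
    hx _ _ (heN _ (by omega)) (heN _ hj) (he i j hij hj).ne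
  have hne' : ∀ i j, i < K' + 1 → j < K' + 1 → i ≠ j → x (e i) - x (e j) ≠ 0 := by
    intro i j hi hj hij
    rw [sub_ne_zero]
    rcases Nat.lt_or_gt_of_ne hij with h | h
    · exact hne i j h hj
    · exact (hne j i h hi).symm
  have hzd : ∀ i j, i < K' → j < K' → z i - z j = (x (e (j + 1)) - x (e (i + 1))) /
      ((x (e (i + 1)) - x (e 0)) * (x (e (j + 1)) - x (e 0))) := by
    intro i j hi hj
    have h1 := hne' (i + 1) 0 (by omega) (by omega) (by omega)
    have h2 := hne' (j + 1) 0 (by omega) (by omega) (by omega)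
    simp only [hz]
    field_simp
    ring
  have hz0 : ∀ i j, i < K' → j < K' → i ≠ j → z i ≠ z j := by
    intro i j hi hj hij h
    have h1 := hne' (i + 1) 0 (by omega) (by omega) (by omega)
    have h2 := hne' (j + 1) 0 (by omega) (by omega) (by omega)
    have h3 := hne' (j + 1) (i + 1) (by omega) (by omega) (by omega)
    have h4 := hzd i j hi hj
    rw [h, sub_self] at h4
    exact div_ne_zero h3 (mul_ne_zero h1 h2) h4.symm
  set v : ℕ → ℕ → ℚ := fun i j => Algebra.norm ℚ (z i - z j) with hv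
  have hv0 : ∀ i j, i < K' → j < K' → i ≠ j → v i j ≠ 0 := fun i j hi hj hij =>
    norm_ne (sub_ne_zero.2 (hz0 i j hi hj hij))
  have hvo : ∀ i j, i < K' → j < K' → i ≠ j → ad (v i j) =
      U (e (i + 1)) (e (j + 1)) - U (e 0) (e (i + 1)) - U (e 0) (e (j + 1)) := by
    intro i j hi hj hij
    have h1 := hne' (i + 1) 0 (by omega) (by omega) (by omega)
    have h2 := hne' (j + 1) 0 (by omega) (by omega) (by omega)
    have h3 := hne' (j + 1) (i + 1) (by omega) (by omega) (by omega)
    rw [hUsym (e (i + 1)) (e (j + 1)), hUsym (e 0) (e (i + 1)), hUsym (e 0) (e (j + 1))]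
    simp only [hv, hU]
    rw [hzd i j hi hj, norm_div _ (mul_ne_zero h1 h2), map_mul,
      ad_div (norm_ne h3) (mul_ne_zero (norm_ne h1) (norm_ne h2)),
      ad_mul (norm_ne h1) (norm_ne h2)]
    abel
  have hvsym : ∀ i j, i < K' → j < K' → i ≠ j → ad (v i j) = ad (v j i) := by
    intro i j hi hj hij
    rw [hvo i j hi hj hij, hvo j i hj hi hij.symm, hUsym (e (i + 1)) (e (j + 1))]
    abel
  -- comparison of the norms
  have hc1 : ∀ b c d, b < c → c < d → d < K' → len (ad (v c d) - ad (v b d)) ≤ 2 * B := by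
    intro b c d hbc hcd hd
    refine le_trans (le_of_eq ?_)
      (hcr 0 (b + 1) (c + 1) (d + 1) (by omega) (by omega) (by omega) (by omega)).1
    rw [hvo c d (by omega) hd (by omega), hvo b d (by omega) hd (by omega)]
    congr 1
    abel
  have hc2 : ∀ b c d, b < c → c < d → d < K' → len (ad (v b d) - ad (v b c)) ≤ 2 * B := by
    intro b c d hbc hcd hd
    refine le_trans (le_of_eq ?_)
      (hcr 0 (b + 1) (c + 1) (d + 1) (by omega) (by omega) (by omega) (by omega)).2
    rw [hvo b d (by omega) hd (by omega), hvo b c (by omega) (by omega) (by omega)]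
    congr 1
    abel
  have hlen0 : len 0 = 0 := by unfold len; rw [vl_zero]; simp
  have hc3 : ∀ i j, i < j → j < K' → len (ad (v i j) - ad (v 0 1)) ≤ 4 * B := by
    intro i j hij hj
    have h1 : len (ad (v i j) - ad (v 0 j)) ≤ 2 * B := by
      by_cases hi : i = 0
      · subst hi
        rw [sub_self, hlen0]
        positivity
      · exact hc1 0 i j (by omega) hij hj
    have h2 : len (ad (v 0 j) - ad (v 0 1)) ≤ 2 * B := by
      by_cases hj1 : j = 1
      · subst hj1
        rw [sub_self, hlen0]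
        positivity
      · exact hc2 0 1 j (by omega) (by omega) hj
    have h3 := len_sub_tri (ad (v i j)) (ad (v 0 j)) (ad (v 0 1))
    linarith
  have hc4 : ∀ i j, i < K' → j < K' → i ≠ j → len (ad (v i j) - ad (v 0 1)) ≤ 4 * B := by
    intro i j hi hj hij
    rcases Nat.lt_or_gt_of_ne hij with h | h
    · exact hc3 i j h hj
    · rw [hvsym i j hi hj hij]
      exact hc3 j i h hi
  have hBv : ∀ i j, i < K' → j < K' → i ≠ j →
      logHeight₁ (Algebra.norm ℚ (z i - z j) / Algebra.norm ℚ (z 0 - z 1)) ≤ 4 * B := by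
    intro i j hi hj hij
    have h0 := hv0 i j hi hj hij
    have h1 := hv0 0 1 (by omega) (by omega) (by omega)
    have h4 := hc4 i j hi hj hij
    unfold len at h4
    rw [vl_sub, vl_ad h0, vl_ad h1, ← abs_div, logHeight_abs] at h4
    exact h4
  intro i j a a' hi hj ha ha' hij haa e'
  have hfin := spread (M := M) hnorm (by omega : 2 ≤ K')
    (fun ω h1 ε hε h2 c η h3 => hloc K' hNK _ (by rw [hcard]; exact hr) ω h1 ε hε h2 c η h3) z hz0
    (4 * B) hBv i j a a' (by omega) (by omega) (by omega) (by omega) hij haa e'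
  refine hfin.trans ?_
  have hC0 : (0 : ℝ) ≤ C0 := by positivity
  have hK'0 : (0 : ℝ) ≤ K' := by positivity
  have h5 : 2 * (K' : ℝ) ^ 2 * (4 * B) + K' ≤
      (8 * K' ^ 2 * (8 * m.factorial * (r * m) + 1) + K') * X := by
    have h6 : 8 * (K' : ℝ) ^ 2 * B ≤ 8 * K' ^ 2 * ((8 * m.factorial * (r * m) + 1) * X) :=
      mul_le_mul_of_nonneg_left hBX (by positivity)
    nlinarith
  have h6 := mul_le_mul_of_nonneg_left h5 hC0
  push_cast
  linarith

end TH951.NF
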