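import Mathlib
import Pool.Agent.TH951.NF.PropA

/-! Extension: a point of bounded degree whose differences with many points of small height have
almost unit norms has small height. -/

set_option autoImplicit false

open Height NumberField Module

namespace TH951.NF

universe w

theorem log2_le : Real.log 2 ≤ 1 := by
  have := Real.log_two_lt_d9
  linarith

theorem log2_nonneg : 0 ≤ Real.log 2 := by positivity

section two

variable {L : Type w} [Field L] [NumberField L] {M : Type w} [Field M] [NumberField M]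

theorem ht_det {n : ℕ} (A : Matrix (Fin n) (Fin n) M) (B : ℝ) (hB : ∀ i j, ht (A i j) ≤ B) :
    ht A.det ≤ n.factorial * (1 + n * B) := by
  classical
  rw [Matrix.det_apply]
  refine (ht_sum _ _).trans ?_
  rw [Finset.card_univ, Fintype.card_perm, Fintype.card_fin]
  have h1 : ∀ σ : Equiv.Perm (Fin n), ht (Equiv.Perm.sign σ • ∏ i, A (σ i) i) ≤ n * B := by
    intro σ
    have h2 : ht (∏ i, A (σ i) i) ≤ n * B := by
      refine (ht_prod _ _).trans ?_
      refine (Finset.sum_le_card_nsmul _ _ B fun i _ => hB _ _).trans (le_of_eq ?_)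
      rw [Finset.card_univ, Fintype.card_fin, nsmul_eq_mul]
    rcases Int.units_eq_one_or (Equiv.Perm.sign σ) with h | h
    · rw [h, one_smul]; exact h2
    · rw [h, Units.neg_smul, one_smul, ht_neg]; exact h2
  have h2 := Finset.sum_le_card_nsmul (Finset.univ : Finset (Equiv.Perm (Fin n))) _ _
    fun σ _ => h1 σ
  rw [Finset.card_univ, Fintype.card_perm, Fintype.card_fin, nsmul_eq_mul] at h2
  have h3 : Real.log (n.factorial : ℝ) ≤ n.factorial := by
    have := Real.log_le_sub_one_of_pos (x := (n.factorial : ℝ)) (by positivity)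
    linarith
  linarith

theorem ht_co (hcard : Fintype.card (L →ₐ[ℚ] M) = finrank ℚ L) {r : ℕ} (hr : finrank ℚ L ≤ r)
    (t : Finset (L →ₐ[ℚ] M)) (y : L) {B : ℝ} (hB0 : 0 ≤ B) (hB : ∀ e : L →ₐ[ℚ] M, ht (e y) ≤ B) :
    ht (co M t y) ≤ r * B := by
  classical
  unfold co
  refine (ht_prod _ _).trans ?_
  refine (Finset.sum_le_card_nsmul _ _ B fun e _ => by rw [ht_neg]; exact hB e).trans ?_
  rw [nsmul_eq_mul]
  refine mul_le_mul_of_nonneg_right ?_ hB0
  have := (Finset.card_le_univ t).trans (hcard.le.trans hr)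
  exact_mod_cast this

/-- the constant of the relations -/
def cr (r : ℕ) : ℕ := 2 * ((2 ^ r).factorial * (2 ^ r * r + 1))

/-- The norms of `x - y j` satisfy linear relations with coefficients of small height. -/
theorem relations (hN : ∀ x : L, algebraMap ℚ M (Algebra.norm ℚ x) = ∏ e : L →ₐ[ℚ] M, e x)
    (hcard : Fintype.card (L →ₐ[ℚ] M) = finrank ℚ L) [IsGalois ℚ M] {r : ℕ}
    (hr : finrank ℚ L ≤ r) {J : Type} (y : J → L) (B : ℝ) (hB0 : 0 ≤ B)
    (hB : ∀ j, ∀ e : L →ₐ[ℚ] M, ht (e (y j)) ≤ B) :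
    ∃ (ρ : ℕ) (C : Fin ρ → J) (a : Fin ρ → J → ℚ), ρ ≤ 2 ^ r ∧
      (∀ b j, logHeight₁ (a b j) ≤ cr r * (B + 1)) ∧
      ∀ x j, Algebra.norm ℚ (x - y j) = ∑ b, a b j * Algebra.norm ℚ (x - y (C b)) := by
  classical
  obtain ⟨ρ, R, C, hρ, hdet, hrel⟩ := exists_minor
    (fun (t : Finset (L →ₐ[ℚ] M)) (j : J) => co M t (y j))
  have hρ' : ρ ≤ 2 ^ r := by
    refine hρ.trans ?_
    rw [Fintype.card_finset, hcard]
    exact Nat.pow_le_pow_right (by norm_num) hr
  set Δ := (Matrix.of fun a b => co M (R a) (y (C b))).det with hΔ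
  set α : Fin ρ → J → M := fun b j => ((-1) ^ (b : ℕ) * (Matrix.of fun a b' => co M (R a)
          (y (Fin.cons (α := fun _ => J) j C (b.succ.succAbove b')))).det) / Δ with hα
  have hα1 : ∀ (t : Finset (L →ₐ[ℚ] M)) j, co M t (y j) = ∑ b, α b j * co M t (y (C b)) := by
    intro t j
    have h1 := hrel t j
    have h2 : co M t (y j) = (co M t (y j) * Δ) / Δ := by
      rw [mul_div_assoc, div_self hdet, mul_one]
    rw [h2, h1, Finset.sum_div]
    refine Finset.sum_congr rfl fun b _ => ?_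
    simp only [hα]
    ring
  have hfix : ∀ b j, ∀ g : M ≃ₐ[ℚ] M, g (α b j) = α b j := by
    intro b j g
    have h1 : ∀ t : Finset (L →ₐ[ℚ] M), co M t (y j) =
        ∑ b, g (α b j) * co M t (y (C b)) := by
      intro t
      have h2 := congrArg g (hα1 (t.map (act g.symm)) j)
      rw [← co_map, act_act, map_sum] at h2
      rw [h2]
      refine Finset.sum_congr rfl fun b _ => ?_
      rw [map_mul, ← co_map, act_act]
    have h3 : (Matrix.of fun a b => co M (R a) (y (C b))).mulVec (fun b => g (α b j) - α b j) =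
        0 := by
      ext a
      rw [Matrix.mulVec, Pi.zero_apply]
      have h4 := h1 (R a)
      have h5 := hα1 (R a) j
      rw [h5] at h4
      unfold dotProduct
      rw [← sub_eq_zero, ← Finset.sum_sub_distrib] at h4
      rw [← neg_eq_zero, ← Finset.sum_neg_distrib, ← h4]
      refine Finset.sum_congr rfl fun b _ => ?_
      change -(co M (R a) (y (C b)) * (g (α b j) - α b j)) = _
      ring
    have h6 := Matrix.eq_zero_of_mulVec_eq_zero hdet h3
    exact sub_eq_zero.1 (congrFun h6 b)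
  have hF : ∀ b j, ∃ a : ℚ, algebraMap ℚ M a = α b j := fun b j =>
    (IsGalois.mem_range_algebraMap_iff_fixed _).2 (hfix b j)
  choose a ha using hF
  refine ⟨ρ, C, a, hρ', ?_, ?_⟩
  · intro b j
    have hco : ∀ (t : Finset (L →ₐ[ℚ] M)) j, ht (co M t (y j)) ≤ r * B := fun t j =>
      ht_co hcard hr t (y j) hB0 (hB j)
    have h1 : ht Δ ≤ ρ.factorial * (1 + ρ * (r * B)) := ht_det _ _ fun i j => hco _ _
    have h2 : ht ((-1) ^ (b : ℕ) * (Matrix.of fun a b' => co M (R a)
          (y (Fin.cons (α := fun _ => J) j C (b.succ.succAbove b')))).det) ≤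
          ρ.factorial * (1 + ρ * (r * B)) := by
      refine le_trans (le_of_eq ?_) (ht_det (Matrix.of fun a b' => co M (R a)
          (y (Fin.cons (α := fun _ => J) j C (b.succ.succAbove b')))) _ fun i j => hco _ _)
      rcases neg_one_pow_eq_or M (b : ℕ) with h | h
      · rw [h, one_mul]
      · rw [h, neg_one_mul, ht_neg]
    have h3 : ht (α b j) ≤ ρ.factorial * (1 + ρ * (r * B)) + ρ.factorial * (1 + ρ * (r * B)) :=
      (ht_div _ _).trans (add_le_add h2 h1)
    rw [← ha, ht_rat] at h3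
    refine h3.trans ?_
    have h4 : (ρ.factorial : ℝ) ≤ ((2 ^ r).factorial : ℝ) := by
      exact_mod_cast Nat.factorial_le hρ'
    have h5 : (ρ : ℝ) ≤ 2 ^ r := by exact_mod_cast hρ'
    have h6 : 1 + (ρ : ℝ) * (r * B) ≤ (2 ^ r * r + 1) * (B + 1) := by
      have h7 : (ρ : ℝ) * (r * B) ≤ 2 ^ r * (r * B) := mul_le_mul_of_nonneg_right h5 (by positivity)
      have h8 : (0 : ℝ) ≤ 2 ^ r * r := by positivity
      nlinarith
    have h7 : (ρ.factorial : ℝ) * (1 + ρ * (r * B)) ≤
        ((2 ^ r).factorial : ℝ) * ((2 ^ r * r + 1) * (B + 1)) :=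
      mul_le_mul h4 h6 (by positivity) (by positivity)
    unfold cr
    push_cast
    linarith
  · intro x j
    apply (algebraMap ℚ M).injective
    rw [norm_expand' hN, map_sum]
    simp only [map_mul, ha]
    have h1 : ∑ b : Fin ρ, α b j * algebraMap ℚ M (Algebra.norm ℚ (x - y (C b))) =
        ∑ b : Fin ρ, ∑ t : Finset (L →ₐ[ℚ] M), α b j * (co M t (y (C b)) * ∏ e ∈ tᶜ, e x) :=
      Finset.sum_congr rfl fun b _ => by rw [norm_expand' hN x (y (C b)), Finset.mul_sum]
    rw [h1, Finset.sum_comm]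
    refine Finset.sum_congr rfl fun t _ => ?_
    rw [hα1 t j, Finset.sum_mul]
    exact Finset.sum_congr rfl fun b _ => by ring

theorem ht_small (hN : ∀ x : L, algebraMap ℚ M (Algebra.norm ℚ x) = ∏ e : L →ₐ[ℚ] M, e x)
    (hcard : Fintype.card (L →ₐ[ℚ] M) = finrank ℚ L) {r : ℕ} (hr : finrank ℚ L ≤ r)
    {J : Type} [DecidableEq J] (y : J → L)
    (hy : Function.Injective y)
    (B : ℝ) (hB : ∀ j, ∀ e : L →ₐ[ℚ] M, ht (e (y j)) ≤ B) (Q : Finset J)
    (hQ : finrank ℚ L < Q.card) (x : L)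
    (hx : ∀ j, x ≠ y j) (B' : ℝ) (hB' : ∀ i ∈ Q, ∀ j ∈ Q,
      logHeight₁ (Algebra.norm ℚ (x - y i) / Algebra.norm ℚ (x - y j)) ≤ B')
    (e0 : L →ₐ[ℚ] M) :
    ht (e0 x) ≤ 2 * Q.card * B' + 4 * r * Q.card ^ 2 * (2 * B + 1) + 2 * r + B + 1 := by
  classical
  obtain ⟨j0, hj0⟩ : Q.Nonempty := Finset.card_pos.1 (by omega)
  have he0 : ∀ (e : L →ₐ[ℚ] M) {y : L}, y ≠ 0 → e y ≠ 0 := fun e y hy => by
    rw [Ne, map_eq_zero_iff e e.toRingHom.injective]; exact hy
  have hx0 : ∀ j, x - y j ≠ 0 := fun j => sub_ne_zero.2 (hx j)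
  have hn0 : ∀ j, Algebra.norm ℚ (x - y j) ≠ 0 := fun j => norm_ne (hx0 j)
  have hB0 : 0 ≤ B := (ht_nonneg _).trans (hB j0 e0)
  have hB0' : 0 ≤ B' := (zero_le_logHeight₁ _).trans (hB' j0 hj0 j0 hj0)
  have hdeg : (0 : ℝ) < finrank ℚ M := deg_pos
  have hE : (Fintype.card (L →ₐ[ℚ] M) : ℝ) ≤ r := by
    rw [hcard]; exact_mod_cast hr
  have hE0 : (0 : ℝ) ≤ Fintype.card (L →ₐ[ℚ] M) := by positivity
  -- finite sets
  set X1 : Finset M := ((Finset.univ : Finset (L →ₐ[ℚ] M)) ×ˢ Q).image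
    (fun p => p.1 (x - y p.2)) with hX1
  set X2 : Finset M := ((Finset.univ : Finset (L →ₐ[ℚ] M)) ×ˢ (Q ×ˢ Q)).image
    (fun p => p.1 (y p.2.1 - y p.2.2)) with hX2
  set X3 : Finset M := Q.image
    (fun j => algebraMap ℚ M (Algebra.norm ℚ (x - y j0) / Algebra.norm ℚ (x - y j))) with hX3
  obtain ⟨I, _, w, ε, hε0, hε, hεs, hpf, hht⟩ := exists_places ((X1 ∪ X2 ∪ X3).filter (· ≠ 0))
    (fun x hx => (Finset.mem_filter.1 hx).2)
  have habs' : ∀ t : M, t ∈ X1 ∪ X2 ∪ X3 → ∑ l, |Real.log (w l t)| = 2 * logHeight₁ t := by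
    intro t ht
    by_cases ht0 : t = 0
    · subst ht0; simp
    have hx' : t ∈ (X1 ∪ X2 ∪ X3).filter (· ≠ 0) := Finset.mem_filter.2 ⟨ht, ht0⟩
    have h1 : ∀ l, |Real.log (w l t)| = 2 * max (Real.log (w l t)) 0 - Real.log (w l t) := by
      intro l
      rcases le_total 0 (Real.log (w l t)) with h | h
      · rw [abs_of_nonneg h, max_eq_left h]; ring
      · rw [abs_of_nonpos h, max_eq_right h]; ring
    rw [Finset.sum_congr rfl fun l _ => h1 l, Finset.sum_sub_distrib, hpf t hx',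
      ← Finset.mul_sum, ← hht t hx', sub_zero]
  have hmem1 : ∀ (e : L →ₐ[ℚ] M), ∀ j ∈ Q, e (x - y j) ∈ X1 ∪ X2 ∪ X3 := fun e j hj =>
    Finset.mem_union_left _ (Finset.mem_union_left _ (Finset.mem_image.2
      ⟨(e, j), Finset.mem_product.2 ⟨Finset.mem_univ _, hj⟩, rfl⟩))
  have hmem2 : ∀ (e : L →ₐ[ℚ] M), ∀ i ∈ Q, ∀ j ∈ Q, e (y i - y j) ∈ X1 ∪ X2 ∪ X3 :=
    fun e i hi j hj => Finset.mem_union_left _ (Finset.mem_union_right _ (Finset.mem_image.2
      ⟨(e, i, j), Finset.mem_product.2 ⟨Finset.mem_univ _, Finset.mem_product.2 ⟨hi, hj⟩⟩, rfl⟩))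
  have hmem3 : ∀ j ∈ Q, algebraMap ℚ M (Algebra.norm ℚ (x - y j0) / Algebra.norm ℚ (x - y j)) ∈
      X1 ∪ X2 ∪ X3 := fun j hj => Finset.mem_union_right _ (Finset.mem_image.2 ⟨j, hj, rfl⟩)
  -- local errors
  set o : I → M → ℝ := fun l t => -Real.log (w l t) with ho
  set η : I → ℝ := fun l => ∑ j ∈ Q,
    |Real.log (w l (algebraMap ℚ M (Algebra.norm ℚ (x - y j0) / Algebra.norm ℚ (x - y j))))| with hη
  set d : I → (L →ₐ[ℚ] M) → ℝ := fun l e => ∑ p ∈ Q ×ˢ Q,
    |Real.log (w l (e (y p.1 - y p.2)))| with hd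
  have hd0 : ∀ l e, 0 ≤ d l e := fun l e => Finset.sum_nonneg fun _ _ => abs_nonneg _
  have hult : ∀ l (s t : M), s ≠ 0 → t ≠ 0 → s + t ≠ 0 → min (o l s) (o l t) ≤ o l (s + t) + ε l := by
    intro l s t hs ht hst
    have hp1 : 0 < w l s := (w l).pos hs
    have hp2 : 0 < w l t := (w l).pos ht
    have hp3 : 0 < w l (s + t) := (w l).pos hst
    have h1 := hε l s t
    have h2 : Real.log (w l (s + t)) ≤ ε l + Real.log (max (w l s) (w l t)) := by
      have h3 := Real.log_le_log hp3 h1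
      rwa [Real.log_mul (Real.exp_pos _).ne' (lt_max_of_lt_left hp1).ne', Real.log_exp] at h3
    simp only [ho]
    rw [min_le_iff]
    rcases max_cases (w l s) (w l t) with ⟨h3, -⟩ | ⟨h3, -⟩
    · left; rw [h3] at h2; linarith
    · right; rw [h3] at h2; linarith
  have honeg : ∀ l (s : M), o l (-s) = o l s := by
    intro l s
    simp only [ho]
    rw [map_neg_eq_map]
  have hsplit : ∀ l j, ∑ e : L →ₐ[ℚ] M, o l (e (x - y j)) =
      o l (algebraMap ℚ M (Algebra.norm ℚ (x - y j))) := by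
    intro l j
    simp only [ho]
    rw [hN, map_prod, Real.log_prod, Finset.sum_neg_distrib]
    intro e _
    exact (w l).ne_zero (he0 e (hx0 j))
  have hdle : ∀ l e, ∀ i ∈ Q, ∀ j ∈ Q, |o l (e (y i - y j))| ≤ d l e := by
    intro l e i hi j hj
    simp only [ho]
    rw [abs_neg]
    have h1 := Finset.single_le_sum (s := Q ×ˢ Q) (f := fun p : J × J =>
      |Real.log (w l (e (y p.1 - y p.2)))|)
      (fun _ _ => abs_nonneg _) (a := (i, j)) (Finset.mem_product.2 ⟨hi, hj⟩)
    exact h1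
  -- the local estimate
  have hpt : ∀ l : I, ∑ e : L →ₐ[ℚ] M, max (o l (e (x - y j0))) 0 ≤
      η l + 2 * ∑ e, d l e + 2 * r * ε l := by
    intro l
    obtain ⟨j1, hj1, hj1'⟩ : ∃ j ∈ Q, ∀ e, o l (e (x - y j)) ≤ d l e + ε l := by
      by_contra hcon
      push Not at hcon
      have hne : Nonempty (L →ₐ[ℚ] M) := ⟨e0⟩
      choose! f hf using hcon
      obtain ⟨i, hi, j, hj, hij, hfij⟩ := Finset.exists_ne_map_eq_of_card_lt_of_maps_to
        (t := (Finset.univ : Finset (L →ₐ[ℚ] M))) (s := Q) (f := f)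
        (by rw [Finset.card_univ, hcard]; exact hQ) (fun _ _ => Finset.mem_univ _)
      have h1 := hf i hi
      have h2 := hf j hj
      rw [hfij] at h1
      have hyij : y i - y j ≠ 0 := sub_ne_zero.2 fun h => hij (hy h)
      have h4 : f j (x - y j) + -(f j (x - y i)) = f j (y i - y j) := by
        rw [← map_neg, ← map_add]; congr 1; ring
      have h3 := hult l (f j (x - y j)) (-(f j (x - y i))) (he0 _ (hx0 j))
        (neg_ne_zero.2 (he0 _ (hx0 i))) (by rw [h4]; exact he0 _ hyij)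
      rw [h4, honeg] at h3
      have h5 := hdle l (f j) i hi j hj
      have h6 := le_abs_self (o l (f j (y i - y j)))
      rw [min_le_iff] at h3
      rcases h3 with h3 | h3
      · linarith
      · linarith
    have h1 : ∀ e : L →ₐ[ℚ] M, o l (e (x - y j1)) + max (-o l (e (x - y j0))) 0 ≤
        2 * d l e + 2 * ε l := by
      intro e
      have h2 := hj1' e
      have h3 := hd0 l e
      have hε' := hε0 l
      by_cases hjj : j0 = j1
      · rw [hjj]
        rcases max_cases (-o l (e (x - y j1))) 0 with ⟨h4, -⟩ | ⟨h4, -⟩ <;> rw [h4] <;> linarith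
      · have hyij : y j1 - y j0 ≠ 0 := sub_ne_zero.2 fun h => hjj (hy h).symm
        have h4' : e (x - y j1) + e (y j1 - y j0) = e (x - y j0) := by
          rw [← map_add, sub_add_sub_cancel]
        have h4 := hult l (e (x - y j1)) (e (y j1 - y j0)) (he0 _ (hx0 j1))
          (he0 _ hyij) (by rw [h4']; exact he0 _ (hx0 j0))
        rw [h4'] at h4
        have h5 := hdle l e j1 hj1 j0 hj0
        have h6 := neg_abs_le (o l (e (y j1 - y j0)))
        rcases max_cases (-o l (e (x - y j0))) 0 with ⟨h8, -⟩ | ⟨h8, -⟩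
        · rw [h8]
          rcases min_le_iff.1 h4 with h7 | h7
          · linarith
          · linarith
        · rw [h8]; linarith
    have h2 := Finset.sum_le_sum fun (e : L →ₐ[ℚ] M) (_ : e ∈ Finset.univ) => h1 e
    rw [Finset.sum_add_distrib, hsplit, Finset.sum_add_distrib, ← Finset.mul_sum, Finset.sum_const,
      Finset.card_univ, nsmul_eq_mul] at h2
    have h3 : Real.log (w l (algebraMap ℚ M (Algebra.norm ℚ (x - y j0) /
        Algebra.norm ℚ (x - y j1)))) =
        o l (algebraMap ℚ M (Algebra.norm ℚ (x - y j1))) -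
        o l (algebraMap ℚ M (Algebra.norm ℚ (x - y j0))) := by
      simp only [ho]
      rw [map_div₀, map_div₀, Real.log_div]
      · ring
      · exact (w l).ne_zero (by rw [Ne, map_eq_zero_iff _ (algebraMap ℚ M).injective]; exact hn0 _)
      · exact (w l).ne_zero (by rw [Ne, map_eq_zero_iff _ (algebraMap ℚ M).injective]; exact hn0 _)
    have h4 : |Real.log (w l (algebraMap ℚ M (Algebra.norm ℚ (x - y j0) /
        Algebra.norm ℚ (x - y j1))))| ≤ η l := by
      have h5 := Finset.single_le_sum (s := Q) (f := fun j : J =>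
          |Real.log (w l (algebraMap ℚ M (Algebra.norm ℚ (x - y j0) / Algebra.norm ℚ (x - y j))))|)
          (fun _ _ => abs_nonneg _) hj1
      exact h5
    have h5 := neg_abs_le
      (Real.log (w l (algebraMap ℚ M (Algebra.norm ℚ (x - y j0) / Algebra.norm ℚ (x - y j1)))))
    have h6 : ∑ e : L →ₐ[ℚ] M, max (o l (e (x - y j0))) 0 =
        ∑ e : L →ₐ[ℚ] M, o l (e (x - y j0)) + ∑ e : L →ₐ[ℚ] M, max (-o l (e (x - y j0))) 0 := by
      rw [← Finset.sum_add_distrib]
      refine Finset.sum_congr rfl fun e _ => ?_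
      rcases le_total 0 (o l (e (x - y j0))) with h | h
      · rw [max_eq_left h, max_eq_right (by linarith)]; ring
      · rw [max_eq_right h, max_eq_left (by linarith)]; ring
    have h7 : (Fintype.card (L →ₐ[ℚ] M) : ℝ) * (2 * ε l) ≤ r * (2 * ε l) :=
      mul_le_mul_of_nonneg_right hE (by linarith [hε0 l])
    rw [h6, hsplit]
    linarith
  -- sum over the places
  have hsum := Finset.sum_le_sum fun (l : I) (_ : l ∈ Finset.univ) => hpt l
  rw [Finset.sum_comm, Finset.sum_add_distrib, Finset.sum_add_distrib, ← Finset.mul_sum,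
    ← Finset.mul_sum, hεs] at hsum
  have h1 : ∀ e : L →ₐ[ℚ] M, ∑ l, max (o l (e (x - y j0))) 0 = finrank ℚ M * ht (e (x - y j0)) := by
    intro e
    have hne := he0 e (hx0 j0)
    have hmem : e (x - y j0) ∈ (X1 ∪ X2 ∪ X3).filter (· ≠ 0) :=
      Finset.mem_filter.2 ⟨hmem1 e j0 hj0, hne⟩
    have h2 : ∀ l, max (o l (e (x - y j0))) 0 =
        max (Real.log (w l (e (x - y j0)))) 0 - Real.log (w l (e (x - y j0))) := by
      intro l
      simp only [ho]
      rcases le_total 0 (Real.log (w l (e (x - y j0)))) with h | h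
      · rw [max_eq_left h, max_eq_right (by linarith)]; ring
      · rw [max_eq_right h, max_eq_left (by linarith)]; ring
    rw [Finset.sum_congr rfl fun l _ => h2 l, Finset.sum_sub_distrib, hpf _ hmem,
      ← hht _ hmem, sub_zero, ht, mul_div_cancel₀ _ hdeg.ne']
  have h2 : ∑ l, η l ≤ finrank ℚ M * (2 * Q.card * B') := by
    simp only [hη]
    rw [Finset.sum_comm]
    refine (Finset.sum_le_card_nsmul _ _ (finrank ℚ M * (2 * B')) ?_).trans (le_of_eq ?_)
    · intro j hj
      rw [habs' _ (hmem3 j hj)]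
      have h3 := hB' j0 hj0 j hj
      have h5 := ht_rat (M := M) (Algebra.norm ℚ (x - y j0) / Algebra.norm ℚ (x - y j))
      unfold ht at h5
      rw [div_eq_iff hdeg.ne'] at h5
      rw [h5]
      have h6 := mul_le_mul_of_nonneg_left h3 hdeg.le
      linarith
    · rw [nsmul_eq_mul]; ring
  have h3 : ∑ l, ∑ e, d l e ≤ finrank ℚ M * (2 * r * Q.card ^ 2 * (2 * B + 1)) := by
    rw [Finset.sum_comm]
    simp only [hd]
    have h4 : ∀ e : L →ₐ[ℚ] M, ∑ l, ∑ p ∈ Q ×ˢ Q, |Real.log (w l (e (y p.1 - y p.2)))| ≤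
        finrank ℚ M * (2 * Q.card ^ 2 * (2 * B + 1)) := by
      intro e
      rw [Finset.sum_comm]
      refine (Finset.sum_le_card_nsmul _ _ (finrank ℚ M * (2 * (2 * B + 1))) ?_).trans
        (le_of_eq ?_)
      · intro p hp
        rw [Finset.mem_product] at hp
        rw [habs' _ (hmem2 e _ hp.1 _ hp.2)]
        have h5 : ht (e (y p.1 - y p.2)) ≤ 2 * B + 1 := by
          rw [map_sub]
          have h6 := ht_sub (e (y p.1)) (e (y p.2))
          have h7 := hB p.1 e
          have h8 := hB p.2 e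
          have h9 := log2_le
          linarith
        unfold ht at h5
        rw [div_le_iff₀ hdeg] at h5
        linarith
      · rw [nsmul_eq_mul, Finset.card_product]; push_cast; ring
    refine (Finset.sum_le_card_nsmul _ _ _ fun e _ => h4 e).trans ?_
    rw [Finset.card_univ, nsmul_eq_mul]
    have h5 : 0 ≤ (finrank ℚ M : ℝ) * (2 * Q.card ^ 2 * (2 * B + 1)) := by positivity
    have h6 := mul_le_mul_of_nonneg_right hE h5
    refine h6.trans (le_of_eq ?_)
    ring
  have h4 : finrank ℚ M * ht (e0 (x - y j0)) ≤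
      ∑ e : L →ₐ[ℚ] M, ∑ l, max (o l (e (x - y j0))) 0 := by
    rw [Finset.sum_congr rfl fun e _ => h1 e]
    exact Finset.single_le_sum (f := fun e : L →ₐ[ℚ] M => finrank ℚ M * ht (e (x - y j0)))
      (fun e _ => mul_nonneg hdeg.le (ht_nonneg _)) (Finset.mem_univ e0)
  have h5 : 2 * (r : ℝ) * (finrank ℚ M * Real.log 2) ≤ finrank ℚ M * (2 * r) := by
    have h6 := mul_le_mul_of_nonneg_left log2_le (by positivity : (0 : ℝ) ≤ 2 * r * finrank ℚ M)
    linarith
  have h6 : finrank ℚ M * ht (e0 (x - y j0)) ≤ finrank ℚ M * (2 * Q.card * B' +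
      4 * r * Q.card ^ 2 * (2 * B + 1) + 2 * r) := by
    linarith
  have h7 := le_of_mul_le_mul_left h6 hdeg
  have h8 : e0 x = e0 (x - y j0) + e0 (y j0) := by rw [← map_add, sub_add_cancel]
  rw [h8]
  have h9 := ht_add (e0 (x - y j0)) (e0 (y j0))
  have h10 := hB j0 e0
  have h11 := log2_le
  linarith

/-- the constant of the extension step -/
def c1 (r : ℕ) : ℕ := 8 * (2 ^ r + 1) * (1 + 2 * 2 ^ r * cr r) + 1 + cr r

/-- the constant of the extension step -/
def c2 (r K : ℕ) : ℕ := 2 + 4 * K * c1 r + 12 * r * K ^ 2 + 2 * r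

theorem extend (hN : ∀ x : L, algebraMap ℚ M (Algebra.norm ℚ x) = ∏ e : L →ₐ[ℚ] M, e x)
    (hcard : Fintype.card (L →ₐ[ℚ] M) = finrank ℚ L) [IsGalois ℚ M] {r : ℕ}
    (hr : finrank ℚ L ≤ r) {K : ℕ} (hK : 2 ^ r * r < K) (y : Fin K → L)
    (hy : Function.Injective y) (B : ℝ) (hB : ∀ j, ∀ e : L →ₐ[ℚ] M, ht (e (y j)) ≤ B)
    {D c : ℕ} (hc : 0 < c) {A : ℝ} (hA0 : 0 ≤ A)
    (hA : ∀ (J : Type) [Fintype J], Fintype.card J ≤ 2 ^ r + 1 → PC D (2 ^ r + 1) A J)
    (x : L) (hx : ∀ j, x ≠ y j) (hS : ∀ j, Alm D c (Algebra.norm ℚ (x - y j)))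
    (e0 : L →ₐ[ℚ] M) :
    ht (e0 x) ≤ c2 r K * (B + Real.log c + A + 1) := by
  classical
  have hB0 : 0 ≤ B := (ht_nonneg _).trans (hB ⟨0, by omega⟩ e0)
  have hlc : 0 ≤ Real.log c := Real.log_nonneg (by exact_mod_cast hc)
  set X : ℝ := B + Real.log c + A + 1 with hX
  have hX1 : 1 ≤ X := by rw [hX]; linarith
  have hx0 : ∀ j, x - y j ≠ 0 := fun j => sub_ne_zero.2 (hx j)
  have hn0 : ∀ j, Algebra.norm ℚ (x - y j) ≠ 0 := fun j => norm_ne (hx0 j)
  obtain ⟨ρ, C, a, hρ, ha, hrel⟩ := relations hN hcard hr y B hB0 hB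
  have hpart : ∀ j, ∃ b : Fin ρ,
      logHeight₁ (Algebra.norm ℚ (x - y j) / Algebra.norm ℚ (x - y (C b))) ≤ c1 r * X := by
    intro j
    set J' := Option {b : Fin ρ // a b j ≠ 0} with hJ'
    set g : J' → ℚ := fun o => match o with
      | none => Algebra.norm ℚ (x - y j)
      | some b => -(a b j * Algebra.norm ℚ (x - y (C b))) with hg
    set q : Fin ρ → ℕ := fun b => if a b j = 0 then 1 else (a b j).num.natAbs * (a b j).den with hq
    have hq1 : ∀ b, 0 < q b := by
      intro b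
      simp only [hq]
      split_ifs with h
      · exact one_pos
      · exact Nat.mul_pos (Int.natAbs_pos.2 (Rat.num_ne_zero.2 h)) (a b j).den_pos
    have hql : ∀ b, Real.log (q b) ≤ 2 * (cr r * (B + 1)) := by
      intro b
      have h1 := ha b j
      have h0 : 0 ≤ (cr r : ℝ) * (B + 1) := by positivity
      simp only [hq]
      split_ifs with h
      · simp only [Nat.cast_one, Real.log_one]; positivity
      · have h2 : 0 < (a b j).num.natAbs := Int.natAbs_pos.2 (Rat.num_ne_zero.2 h)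
        have h3 := (a b j).den_pos
        push_cast
        rw [Real.log_mul (by exact_mod_cast h2.ne') (by exact_mod_cast h3.ne')]
        rw [Rat.logHeight₁_eq_log_max] at h1
        have h4 : Real.log ((a b j).num.natAbs : ℝ) ≤
            Real.log ((max (a b j).num.natAbs (a b j).den : ℕ) : ℝ) :=
          Real.log_le_log (by exact_mod_cast h2) (by exact_mod_cast le_max_left _ _)
        have h5 : Real.log ((a b j).den : ℝ) ≤
            Real.log ((max (a b j).num.natAbs (a b j).den : ℕ) : ℝ) :=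
          Real.log_le_log (by exact_mod_cast h3) (by exact_mod_cast le_max_right _ _)
        push_cast at h1 h4 h5 ⊢
        linarith
    set c' : ℕ := c * ∏ b, q b with hc'
    have hc'0 : 0 < c' := Nat.mul_pos hc (Finset.prod_pos fun b _ => hq1 b)
    have hlc' : Real.log c' ≤ Real.log c + 2 ^ r * (2 * (cr r * (B + 1))) := by
      rw [hc']
      push_cast
      rw [Real.log_mul (by exact_mod_cast hc.ne') (Finset.prod_ne_zero_iff.2 fun b _ => by
        exact_mod_cast (hq1 b).ne'), Real.log_prod (fun b _ => by exact_mod_cast (hq1 b).ne')]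
      have h1 := Finset.sum_le_card_nsmul (Finset.univ : Finset (Fin ρ)) _ _ fun b _ => hql b
      rw [Finset.card_univ, Fintype.card_fin, nsmul_eq_mul] at h1
      have h2 : (ρ : ℝ) ≤ 2 ^ r := by exact_mod_cast hρ
      have h3 : 0 ≤ 2 * ((cr r : ℝ) * (B + 1)) := by positivity
      have h4 := mul_le_mul_of_nonneg_right h2 h3
      linarith
    have hg0 : ∀ o, g o ≠ 0 := by
      rintro (_ | b)
      · exact hn0 j
      · exact neg_ne_zero.2 (mul_ne_zero b.2 (hn0 _))
    have hgsum : ∑ o, g o = 0 := by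
      rw [Fintype.sum_option]
      change Algebra.norm ℚ (x - y j) + ∑ b : {b : Fin ρ // a b j ≠ 0},
        -(a b j * Algebra.norm ℚ (x - y (C b))) = 0
      rw [hrel x j, Finset.sum_neg_distrib, ← sub_eq_add_neg, sub_eq_zero]
      rw [← Finset.sum_subtype (Finset.univ.filter fun b : Fin ρ => a b j ≠ 0) (by simp)
        (fun b => a b j * Algebra.norm ℚ (x - y (C b)))]
      symm
      refine Finset.sum_filter_of_ne fun b _ hb => ?_
      exact left_ne_zero_of_mul hb
    have hga : ∀ o, Alm D c' (g o) := by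
      rintro (_ | b)
      · exact (hS j).mono _
      · change Alm D c' (-(a b j * Algebra.norm ℚ (x - y (C b))))
        have h1 : Alm D (q b) (a b j) := by
          simp only [hq]
          rw [if_neg b.2]
          exact Alm.rat b.2
        refine (Alm.of_dvd (h1.mul (hS (C b))) ?_).neg
        rw [hc', mul_comm (q b)]
        exact mul_dvd_mul_left c (Finset.dvd_prod_of_mem q (Finset.mem_univ _))
    have hcardJ : Fintype.card J' ≤ 2 ^ r + 1 := by
      change Fintype.card (Option {b : Fin ρ // a b j ≠ 0}) ≤ _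
      rw [Fintype.card_option]
      have := Fintype.card_subtype_le (fun b : Fin ρ => a b j ≠ 0)
      rw [Fintype.card_fin] at this
      omega
    obtain ⟨o, ho, hh⟩ := hA J' hcardJ g hg0 hgsum c' hc'0 hga none
    rcases o with _ | b
    · exact absurd rfl ho
    refine ⟨b, ?_⟩
    change logHeight₁ (Algebra.norm ℚ (x - y j) / (-(a b j * Algebra.norm ℚ (x - y (C b))))) ≤ _
      at hh
    have h1 : Algebra.norm ℚ (x - y j) / Algebra.norm ℚ (x - y (C b)) =
        -(Algebra.norm ℚ (x - y j) / (-(a b j * Algebra.norm ℚ (x - y (C b)))) * a b j) := by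
      have h2 := hn0 (C b)
      have h3 := b.2
      field_simp
    rw [h1, logHeight₁_neg]
    refine (logHeight₁_mul_le _ _).trans ?_
    refine (add_le_add hh (ha b j)).trans ?_
    have h2 : Real.log c' ≤ (1 + 2 * 2 ^ r * cr r) * X := by
      refine hlc'.trans ?_
      have h3 : (0 : ℝ) ≤ 2 * 2 ^ r * cr r := by positivity
      have h4 : B + 1 ≤ X := by rw [hX]; linarith
      have h5 := mul_le_mul_of_nonneg_left h4 h3
      have h6 : Real.log c ≤ X := by rw [hX]; linarith
      linarith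
    have h3 : 8 * ((2 ^ r + 1 : ℕ) : ℝ) * Real.log c' ≤
        8 * ((2 ^ r + 1 : ℕ) : ℝ) * ((1 + 2 * 2 ^ r * cr r) * X) :=
      mul_le_mul_of_nonneg_left h2 (by positivity)
    have h4 : A ≤ X := by rw [hX]; linarith
    have h5 : (cr r : ℝ) * (B + 1) ≤ cr r * X :=
      mul_le_mul_of_nonneg_left (by rw [hX]; linarith) (by positivity)
    unfold c1
    push_cast at h3 ⊢
    linarith
  -- a large class
  choose f hf using hpart
  obtain ⟨b, -, hb⟩ := Finset.exists_lt_card_fiber_of_mul_lt_card_of_maps_to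
    (s := (Finset.univ : Finset (Fin K))) (t := (Finset.univ : Finset (Fin ρ))) (f := f)
    (fun _ _ => Finset.mem_univ _) (n := r) (by
      rw [Finset.card_univ, Finset.card_univ, Fintype.card_fin, Fintype.card_fin]
      exact (Nat.mul_le_mul_right r hρ).trans_lt hK)
  set Q := Finset.univ.filter fun j => f j = b with hQ
  have hQr : finrank ℚ L < Q.card := lt_of_le_of_lt hr hb
  have hQK : Q.card ≤ K := (Finset.card_le_univ Q).trans (le_of_eq (Fintype.card_fin K))
  have hQB : ∀ i ∈ Q, ∀ j ∈ Q,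
      logHeight₁ (Algebra.norm ℚ (x - y i) / Algebra.norm ℚ (x - y j)) ≤ 2 * (c1 r * X) := by
    intro i hi j hj
    have h1 := hf i
    have h2 := hf j
    rw [(Finset.mem_filter.1 hi).2] at h1
    rw [(Finset.mem_filter.1 hj).2] at h2
    have h3 : Algebra.norm ℚ (x - y i) / Algebra.norm ℚ (x - y j) =
        (Algebra.norm ℚ (x - y i) / Algebra.norm ℚ (x - y (C b))) *
        (Algebra.norm ℚ (x - y j) / Algebra.norm ℚ (x - y (C b)))⁻¹ := by
      have h4 := hn0 (C b)
      have h5 := hn0 j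
      field_simp
    rw [h3]
    refine (logHeight₁_mul_le _ _).trans ?_
    rw [logHeight₁_inv]
    linarith
  have hfin := ht_small hN hcard hr y hy B hB Q hQr x hx (2 * (c1 r * X)) hQB e0
  refine hfin.trans ?_
  have hQK' : (Q.card : ℝ) ≤ K := Nat.cast_le.2 hQK
  have hQ0 : (0 : ℝ) ≤ Q.card := Nat.cast_nonneg _
  have hBX : B + 1 ≤ X := by rw [hX]; linarith
  have h1 : 2 * (Q.card : ℝ) * (2 * (c1 r * X)) ≤ 4 * K * c1 r * X := by
    have h2 := mul_le_mul_of_nonneg_right hQK' (by positivity : 0 ≤ 4 * (c1 r : ℝ) * X)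
    linarith
  have h2 : 4 * (r : ℝ) * Q.card ^ 2 * (2 * B + 1) ≤ 12 * r * K ^ 2 * X := by
    have h3 : (Q.card : ℝ) ^ 2 ≤ K ^ 2 := pow_le_pow_left₀ hQ0 hQK' 2
    have h4 : 2 * B + 1 ≤ 3 * X := by linarith
    have h5 : (Q.card : ℝ) ^ 2 * (2 * B + 1) ≤ K ^ 2 * (3 * X) :=
      mul_le_mul h3 h4 (by positivity) (by positivity)
    have h6 := mul_le_mul_of_nonneg_left h5 (by positivity : (0 : ℝ) ≤ 4 * r)
    linarith
  have h3 : 2 * (r : ℝ) ≤ 2 * r * X := by
    have := mul_le_mul_of_nonneg_left hX1 (by positivity : (0 : ℝ) ≤ 2 * r)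
    linarith
  unfold c2
  push_cast
  linarith

end two

end TH951.NF
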