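import Mathlib
import Pool.Agent.TH951.NF.PropB
import Pool.Agent.TH951.NF.Abs

/-! Heights of points of bounded degree on the moduli space of pointed rational curves over the
rational numbers. -/

set_option autoImplicit false

open Height NumberField Module

namespace TH951.NF

universe w

theorem PC.mono {D n : ℕ} {A A' : ℝ} (h : A ≤ A') {J : Type} [Fintype J] (hp : PC D n A J) :
    PC D n A' J := by
  intro u hu hs c hc ha i
  obtain ⟨j, hj, hh⟩ := hp u hu hs c hc ha i
  exact ⟨j, hj, hh.trans (by linarith)⟩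

theorem LAlm.mono {L : Type w} [Field L] {D b : ℕ} {y : L} (m : ℕ) (hy : LAlm D b y) :
    LAlm D (b * m) y := by
  have := hy.mul (LAlm.one (D := D) (b := m) (L := L))
  rwa [mul_one] at this

theorem main_step (r : ℕ) : ∃ N C : ℕ, 0 < C ∧ ∀ (D : ℕ) (A : ℝ), 0 ≤ A →
    PC D (2 ^ r + 1).factorial A (Equiv.Perm (Fin (2 ^ r + 1))) →
    (∀ (J : Type) [Fintype J], Fintype.card J ≤ 2 ^ r + 1 → PC D (2 ^ r + 1) A J) →
    ∀ (L : Type w) [Field L] [NumberField L] (M : Type w) [Field M] [NumberField M]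
    [IsGalois ℚ M]
    (_ : ∀ x : L, algebraMap ℚ M (Algebra.norm ℚ x) = ∏ e : L →ₐ[ℚ] M, e x)
    (_ : Fintype.card (L →ₐ[ℚ] M) = finrank ℚ L) (_ : finrank ℚ L ≤ r) (b : ℕ) (_ : 0 < b)
    (W : Set L) (_ : ∀ w ∈ W, ∀ w' ∈ W, w ≠ w' → LAlm D b (w - w'))
    (x : ℕ → L) (_ : ∀ i j, i < N → j < N → i ≠ j → x i ≠ x j) (_ : ∀ i, i < N → x i ∈ W),
    ∃ n, n < N ∧ ∃ c d : L, d ≠ 0 ∧
      (∀ w ∈ W, w ≠ x n → ∀ e' : L →ₐ[ℚ] M, ht (e' (((w - x n)⁻¹ - c) / d)) ≤
        C * (Real.log b + A + 1)) ∧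
      ∀ e' : L →ₐ[ℚ] M, ht (e' ((0 - c) / d)) ≤ C * (Real.log b + A + 1) := by
  classical
  set K := 2 ^ r * r + 3 with hK
  obtain ⟨N, C1, hcl⟩ := cluster.{w} r K
  refine ⟨N, (c2 r K + 1) * (C1 + 6 * r + 1), by positivity, ?_⟩
  intro D A hA0 hA1 hA2 L _ _ M _ _ _ hnorm hcard hr b hb W hW x hx hxW
  have hlb : 0 ≤ Real.log b := Real.log_nonneg (by exact_mod_cast hb)
  set X : ℝ := Real.log b + A + 1 with hX
  have hX1 : 1 ≤ X := by rw [hX]; linarith
  obtain ⟨e, he, heN, hcr⟩ := hcl D A hA0 hA1 L M hnorm hcard hr b hb x hx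
    (fun i j hi hj hij => hW _ (hxW i hi) _ (hxW j hj) (hx i j hi hj hij))
  have hne : ∀ i j, i ≤ K → j ≤ K → i ≠ j → x (e i) ≠ x (e j) := by
    intro i j hi hj hij
    rcases Nat.lt_or_gt_of_ne hij with h | h
    · exact hx _ _ (heN i hi) (heN j hj) (he i j h hj).ne
    · exact hx _ _ (heN i hi) (heN j hj) (he j i h hi).ne'
  have hWx : ∀ i j, i ≤ K → j ≤ K → i ≠ j → LAlm D b (x (e i) - x (e j)) :=
    fun i j hi hj hij => hW _ (hxW _ (heN i hi)) _ (hxW _ (heN j hj)) (hne i j hi hj hij)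
  set o := x (e 0) with ho
  set z : ℕ → L := fun i => (x (e (i + 1)) - o)⁻¹ with hz
  have hxo : ∀ i, i < K → x (e (i + 1)) - o ≠ 0 := fun i hi =>
    sub_ne_zero.2 (hne _ _ (by omega) (by omega) (by omega))
  have hzne : ∀ i j, i < K → j < K → i ≠ j → z i - z j ≠ 0 := by
    intro i j hi hj hij h
    rw [sub_eq_zero] at h
    have h1 := inv_injective h
    exact hne (i + 1) (j + 1) (by omega) (by omega) (by omega) (sub_left_injective h1)
  have h10 := hzne 1 0 (by omega) (by omega) (by omega)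
  set y : Fin K → L := fun i => (z i - z 0) / (z 1 - z 0) with hy
  have hyinj : Function.Injective y := by
    intro i j hij
    by_contra hne'
    have h1 : (i : ℕ) ≠ j := fun h => hne' (Fin.ext h)
    apply hzne i j i.2 j.2 h1
    simp only [hy] at hij
    rw [div_left_inj' h10] at hij
    linear_combination hij
  have hyB : ∀ i, ∀ e' : L →ₐ[ℚ] M, ht (e' (y i)) ≤ C1 * X := by
    intro i e'
    by_cases hi : (i : ℕ) = 0
    · have : y i = 0 := by simp only [hy]; rw [hi, sub_self, zero_div]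
      rw [this, map_zero, ht_zero]; positivity
    · exact hcr i 0 1 0 i.2 (by omega) (by omega) (by omega) hi (by omega) e'
  -- almost units
  have hzi : ∀ i, i < K → LAlm D b (z i) := fun i hi =>
    (hWx (i + 1) 0 (by omega) (by omega) (by omega)).inv
  have hzu : LAlm D (b * b * b) (z 1 - z 0) := by
    have h1 : z 1 - z 0 = (x (e 1) - x (e 2)) * z 1 * z 0 := by
      have h2 := hxo 0 (by omega)
      have h3 := hxo 1 (by omega)
      simp only [hz]
      simp only [zero_add, Nat.reduceAdd] at h2 h3 ⊢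
      field_simp
      ring
    rw [h1]
    exact ((hWx 1 2 (by omega) (by omega) (by omega)).mul (hzi 1 (by omega))).mul
      (hzi 0 (by omega))
  -- the general point
  have key : ∀ q : L, (∀ i, i < K → q ≠ z i → LAlm D (b * b * b) (q - z i)) →
      ∀ e' : L →ₐ[ℚ] M, ht (e' ((q - z 0) / (z 1 - z 0))) ≤
        ((c2 r K + 1) * (C1 + 6 * r + 1)) * X := by
    intro q hq e'
    by_cases hqz : ∃ i : Fin K, q = z i
    · obtain ⟨i, hi⟩ := hqz
      have h1 := hyB i e'
      rw [hi]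
      change ht (e' (y i)) ≤ _
      refine h1.trans ?_
      refine mul_le_mul_of_nonneg_right ?_ (by linarith)
      have h2 : (0 : ℝ) ≤ C1 := by positivity
      have h3 : (0 : ℝ) ≤ c2 r K := by positivity
      have h4 : (0 : ℝ) ≤ r := by positivity
      nlinarith [mul_nonneg h3 h2, mul_nonneg h3 h4]
    · push Not at hqz
      have hxy : ∀ j, (q - z 0) / (z 1 - z 0) - y j = (q - z j) / (z 1 - z 0) := by
        intro j
        simp only [hy]
        rw [← sub_div]
        congr 1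
        ring
      have hqz0 : ∀ j : Fin K, q - z j ≠ 0 := fun j => sub_ne_zero.2 (hqz j)
      have h1 := extend (M := M) hnorm hcard hr (K := K) (by omega) y hyinj (C1 * X) hyB
        (D := D) (c := (b * b * b * (b * b * b)) ^ r) (by positivity) hA0 hA2
        ((q - z 0) / (z 1 - z 0)) (by
          intro j h
          have h2 := hxy j
          rw [h, sub_self] at h2
          exact div_ne_zero (hqz0 j) h10 h2.symm) (by
          intro j
          rw [hxy, div_eq_mul_inv]
          exact ((hq j j.2 (hqz j)).mul hzu.inv).norm hr) e'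
      refine h1.trans ?_
      have h2 : Real.log (((b * b * b * (b * b * b)) ^ r : ℕ) : ℝ) = 6 * r * Real.log b := by
        have h3 : b * b * b * (b * b * b) = b ^ 6 := by ring
        rw [h3]
        push_cast
        rw [Real.log_pow, Real.log_pow]
        push_cast
        ring
      rw [h2]
      have h3 : (C1 : ℝ) * X + 6 * r * Real.log b + A + 1 ≤ (C1 + 6 * r + 1) * X := by
        have h4 : 6 * (r : ℝ) * Real.log b ≤ 6 * r * X :=
          mul_le_mul_of_nonneg_left (by rw [hX]; linarith) (by positivity)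
        have h5 : A + 1 ≤ X := by rw [hX]; linarith
        linarith
      have h4 : (c2 r K : ℝ) * (C1 * X + 6 * r * Real.log b + A + 1) ≤
          c2 r K * ((C1 + 6 * r + 1) * X) := mul_le_mul_of_nonneg_left h3 (by positivity)
      have h5 : 0 ≤ ((C1 : ℝ) + 6 * r + 1) * X := by positivity
      linarith
  refine ⟨e 0, heN 0 (Nat.zero_le _), z 0, z 1 - z 0, h10, ?_, ?_⟩
  · intro w hw hwo e'
    push_cast
    refine key _ ?_ e'
    intro i hi hwi
    have hwo' : w - o ≠ 0 := sub_ne_zero.2 hwo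
    have hwx : w ≠ x (e (i + 1)) := by
      intro h
      apply hwi
      simp only [hz]
      rw [← h]
    have h1 : (w - o)⁻¹ - z i = (x (e (i + 1)) - w) * (w - o)⁻¹ * z i := by
      have h2 := hxo i hi
      simp only [hz]
      field_simp
      ring
    change LAlm D (b * b * b) ((w - o)⁻¹ - z i)
    rw [h1]
    exact ((hW _ (hxW _ (heN _ (by omega))) _ hw hwx.symm).mul
      (hW _ hw _ (hxW _ (heN _ (by omega))) hwo).inv).mul (hzi i hi)
  · intro e'
    push_cast
    refine key _ ?_ e'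
    intro i hi _
    rw [zero_sub, mul_assoc]
    exact (hzi i hi).neg.mono _

/-- Heights of points of bounded degree on the moduli space of pointed rational curves. -/
theorem main (r : ℕ) : ∃ N C : ℕ, ∀ D : ℕ, D ≠ 0 → ∃ A : ℝ, ∀ (L : Type w) [Field L]
    [NumberField L], finrank ℚ L ≤ r → ∀ b : ℕ, 0 < b → ∀ (ι : Type) [Fintype ι],
    N ≤ Fintype.card ι → ∀ x : ι → L, Function.Injective x → (∀ i, x i ≠ 0) → (∀ i, x i ≠ 1) →
    (∀ i, LAlm D b (x i)) → (∀ i, LAlm D b (x i - 1)) → (∀ i j, i ≠ j → LAlm D b (x i - x j)) →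
    ∀ i, absLogHeight₁ (x i) ≤ C * Real.log b + A := by
  classical
  obtain ⟨N, C, hC0, hmain⟩ := main_step.{w} r
  set C' : ℕ := r + (r + 1) * (r + 2 ^ r * (r * (12 * C))) with hC'
  refine ⟨N, C', ?_⟩
  intro D hD
  obtain ⟨A1, hA10, hA1⟩ := partner_all D hD (2 ^ r + 1).factorial
  obtain ⟨A2, hA20, hA2⟩ := partner_all D hD (2 ^ r + 1)
  set A := A1 + A2 with hAdef
  have hA0 : 0 ≤ A := add_nonneg hA10 hA20
  refine ⟨C' * (A + 1), ?_⟩
  intro L _ _ hr b hb ι _ hN x hxinj hx0 hx1 hxu hxu1 hxS i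
  obtain ⟨M, _, _, hgal, hnorm, hcard⟩ := exists_gal L
  have hlb : 0 ≤ Real.log b := Real.log_nonneg (by exact_mod_cast hb)
  set X : ℝ := Real.log b + A + 1 with hX
  have hX1 : 1 ≤ X := by rw [hX]; linarith
  let f : ℕ → ι := fun n => if h : n < Fintype.card ι then (Fintype.equivFin ι).symm ⟨n, h⟩ else i
  set W : Set L := insert 0 (insert 1 (Set.range x)) with hW
  have hWord : ∀ w ∈ W, ∀ w' ∈ W, w ≠ w' → LAlm D b (w - w') := by
    intro w hw w' hw' hww
    rcases hw with rfl | rfl | ⟨a, rfl⟩ <;> rcases hw' with rfl | rfl | ⟨b', rfl⟩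
    · exact absurd rfl hww
    · rw [zero_sub]; exact LAlm.one.neg
    · rw [zero_sub]; exact (hxu _).neg
    · rw [sub_zero]; exact LAlm.one
    · exact absurd rfl hww
    · rw [← neg_sub]; exact (hxu1 _).neg
    · rw [sub_zero]; exact hxu _
    · exact hxu1 a
    · exact hxS a b' fun h => hww (by rw [h])
  obtain ⟨n, hn, c, d, hd, hB, hB0⟩ := hmain D A hA0
    ((hA1 _ (by rw [Fintype.card_perm, Fintype.card_fin])).mono (by rw [hAdef]; linarith))
    (fun J _ hJ => (hA2 J hJ).mono (by rw [hAdef]; linarith)) L M hnorm hcard hr b hb W hWord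
    (fun n => x (f n)) (by
      intro a b ha hb hab h
      have h1 := hxinj h
      simp only [f, ha.trans_le hN, hb.trans_le hN, dif_pos] at h1
      have h2 := (Fintype.equivFin ι).symm.injective h1
      exact hab (congrArg Fin.val h2)) (fun n _ => Or.inr (Or.inr ⟨_, rfl⟩))
  set o := x (f n) with ho
  have ho0 : o ≠ 0 := hx0 _
  have ho1 : o ≠ 1 := hx1 _
  set B : ℝ := C * X with hBd
  have hB1 : 1 ≤ B := by
    have : (1 : ℝ) ≤ C := by exact_mod_cast hC0
    rw [hBd]; nlinarith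
  -- bounds for the conjugates
  have hfin : ∀ e' : L →ₐ[ℚ] M, ht (e' (x i)) ≤ 12 * B := by
    intro e'
    have h0 := hB 0 (Or.inl rfl) ho0.symm e'
    have h1 := hB 1 (Or.inr (Or.inl rfl)) ho1.symm e'
    have hB0' := hB0 e'
    have hdiff : ∀ {p q : L}, ht (e' ((p - c) / d)) ≤ B → ht (e' ((q - c) / d)) ≤ B →
        ht (e' ((p - q) / d)) ≤ 3 * B := by
      intro p q hp hq
      have h2 : (p - q) / d = (p - c) / d - (q - c) / d := by ring
      rw [h2, map_sub]
      refine (ht_sub _ _).trans ?_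
      have := log2_le
      linarith
    have h1o : (1 : L) - o ≠ 0 := sub_ne_zero.2 ho1.symm
    have h0o : (0 : L) - o ≠ 0 := sub_ne_zero.2 ho0.symm
    by_cases hio : x i = o
    · rw [hio]
      have h2 : o = (((1 - o)⁻¹ - 0) / d) / (((1 - o)⁻¹ - (0 - o)⁻¹) / d) := by
        rw [zero_sub] at h0o ⊢
        have h3 : (1 - o)⁻¹ - (-o)⁻¹ = ((1 - o) * o)⁻¹ := by
          field_simp
          ring
        rw [h3, sub_zero]
        field_simp
      rw [h2, map_div₀]
      refine (ht_div _ _).trans ?_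
      have h3 := hdiff h1 hB0'
      have h4 := hdiff h1 h0
      linarith
    · have h2 := hB (x i) (Or.inr (Or.inr ⟨i, rfl⟩)) hio e'
      have hto : x i - o ≠ 0 := sub_ne_zero.2 hio
      set t := x i with ht'
      have h3 : t = (((0 - o)⁻¹ - (t - o)⁻¹) / d) * (((1 - o)⁻¹ - 0) / d) /
          ((((t - o)⁻¹ - 0) / d) * (((0 - o)⁻¹ - (1 - o)⁻¹) / d)) := by
        have h4 : (0 - o)⁻¹ - (t - o)⁻¹ = -(t * (o * (t - o))⁻¹) := by
          rw [zero_sub]
          field_simp
          ring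
        have h5 : (0 - o)⁻¹ - (1 - o)⁻¹ = -(o * (1 - o))⁻¹ := by
          rw [zero_sub]
          field_simp
          ring
        rw [h4, h5, sub_zero, sub_zero]
        field_simp
      rw [h3, map_div₀, map_mul, map_mul]
      have g1 := hdiff h0 h2
      have g2 := hdiff h1 hB0'
      have g3 := hdiff h2 hB0'
      have g4 := hdiff h0 h1
      have g5 := ht_mul (e' (((0 - o)⁻¹ - (t - o)⁻¹) / d)) (e' (((1 - o)⁻¹ - 0) / d))
      have g6 := ht_mul (e' (((t - o)⁻¹ - 0) / d)) (e' (((0 - o)⁻¹ - (1 - o)⁻¹) / d))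
      have g7 := ht_div ((e' (((0 - o)⁻¹ - (t - o)⁻¹) / d)) * (e' (((1 - o)⁻¹ - 0) / d)))
        ((e' (((t - o)⁻¹ - 0) / d)) * (e' (((0 - o)⁻¹ - (1 - o)⁻¹) / d)))
      linarith
  refine (abs_height (M := M) hcard hr (x i) (12 * B) hfin).trans ?_
  have hr0 : (0 : ℝ) ≤ r := by positivity
  have hl := log2_le
  have hl0 := log2_nonneg
  have e1 : (r : ℝ) * Real.log 2 ≤ r * X := mul_le_mul_of_nonneg_left (by linarith) hr0
  have e2 : (r : ℝ) * Real.log 2 + 2 ^ r * (r * (12 * B)) ≤ (r + 2 ^ r * (r * (12 * C))) * X := by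
    have e3 : (2 : ℝ) ^ r * (r * (12 * B)) = 2 ^ r * (r * (12 * C)) * X := by rw [hBd]; ring
    rw [e3]; linarith
  have e3 : ((r : ℝ) + 1) * (r * Real.log 2 + 2 ^ r * (r * (12 * B))) ≤
      (r + 1) * ((r + 2 ^ r * (r * (12 * C))) * X) := mul_le_mul_of_nonneg_left e2 (by positivity)
  have e4 : (C' : ℝ) * Real.log b + C' * (A + 1) = C' * X := by rw [hX]; ring
  rw [e4, hC']
  push_cast
  linarith

end TH951.NF
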