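import Mathlib
import Pool.Agent.TH951.NF.Main

/-! Counting functions and almost units. -/

set_option autoImplicit false

open Height NumberField Module

namespace TH951.NF

universe w

variable {L : Type w} [Field L] [NumberField L]

/-- the norm of the prime ideal of a finite place -/
noncomputable def Nm (w : FinitePlace L) : ℕ := Ideal.absNorm w.maximalIdeal.asIdeal

theorem one_lt_Nm (w : FinitePlace L) : 1 < Nm w := by
  have := NumberField.HeightOneSpectrum.one_lt_absNorm w.maximalIdeal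
  exact_mod_cast this

theorem Nm_pow (w : FinitePlace L) {y : L} (hy : y ≠ 0) : ∃ k : ℤ, w y = (Nm w : ℝ) ^ k := by
  obtain ⟨a, b, hb, rfl⟩ := IsFractionRing.div_surjective (𝓞 L) y
  have hb0 : b ≠ 0 := nonZeroDivisors.ne_zero hb
  have ha0 : a ≠ 0 := by
    rintro rfl
    simp at hy
  have hN : (Nm w : ℝ) ≠ 0 := by
    have := one_lt_Nm w
    positivity
  have h1 := FinitePlace.apply_mul_absNorm_pow_eq_one w ha0
  have h2 := FinitePlace.apply_mul_absNorm_pow_eq_one w hb0
  change w ((a : 𝓞 L) : L) * (Nm w : ℝ) ^ _ = 1 at h1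
  change w ((b : 𝓞 L) : L) * (Nm w : ℝ) ^ _ = 1 at h2
  refine ⟨(multiplicity w.maximalIdeal.asIdeal (Ideal.span {b}) : ℤ) -
    multiplicity w.maximalIdeal.asIdeal (Ideal.span {a}), ?_⟩
  rw [map_div₀, zpow_sub₀ hN, zpow_natCast, zpow_natCast]
  have e1 : w (algebraMap (𝓞 L) L a) = ((Nm w : ℝ) ^ multiplicity w.maximalIdeal.asIdeal
      (Ideal.span {a}))⁻¹ := eq_inv_of_mul_eq_one_left h1
  have e2 : w (algebraMap (𝓞 L) L b) = ((Nm w : ℝ) ^ multiplicity w.maximalIdeal.asIdeal
      (Ideal.span {b}))⁻¹ := eq_inv_of_mul_eq_one_left h2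
  rw [e1, e2]
  field_simp

theorem natCast_le_one (w : FinitePlace L) (n : ℕ) : w (n : L) ≤ 1 := by
  have := FinitePlace.norm_le_one L w.maximalIdeal (n : 𝓞 L)
  rw [FinitePlace.norm_embedding_eq] at this
  simpa using this

theorem Nm_le (w : FinitePlace L) : w (Nm w : L) ≤ (Nm w : ℝ)⁻¹ := by
  have hN := one_lt_Nm w
  have hN0 : (0 : ℝ) < Nm w := by positivity
  have hN1 : (1 : ℝ) < Nm w := by exact_mod_cast hN
  obtain ⟨k, hk⟩ := Nm_pow w (y := (Nm w : L)) (by
    have : (Nm w : ℕ) ≠ 0 := by omega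
    exact_mod_cast this)
  have hmem : ((Nm w : ℕ) : 𝓞 L) ∈ w.maximalIdeal.asIdeal := Ideal.absNorm_mem _
  have hlt := (FinitePlace.norm_lt_one_iff_mem L w.maximalIdeal ((Nm w : ℕ) : 𝓞 L)).2 hmem
  rw [FinitePlace.norm_embedding_eq] at hlt
  have hlt' : w (Nm w : L) < 1 := by simpa using hlt
  rw [hk] at hlt' ⊢
  have hk0 : k < 0 := by
    by_contra h
    push Not at h
    exact absurd hlt' (not_lt.2 (one_le_zpow₀ hN1.le h))
  rw [← zpow_neg_one]
  exact zpow_le_zpow_right₀ hN1.le (by omega)

theorem isIntegral_of_places {y : L} (h : ∀ w : FinitePlace L, w y ≤ 1) : IsIntegral ℤ y := by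
  obtain ⟨a, ha⟩ := IsDedekindDomain.HeightOneSpectrum.mem_integers_of_valuation_le_one
    (R := 𝓞 L) L y (by
      intro v
      have h1 := h (FinitePlace.mk v)
      rw [FinitePlace.mk_apply, FinitePlace.norm_embedding] at h1
      rw [NumberField.HeightOneSpectrum.adicAbv_def] at h1
      exact (WithZeroMulInt.toNNReal_le_one_iff
        (NumberField.HeightOneSpectrum.one_lt_absNorm_nnreal v)).1 (by exact_mod_cast h1))
  rw [← ha]
  exact a.2

/-- integrality away from `D` -/
theorem integral_away {D : ℕ} (hD : D ≠ 0) {y : L} (h : ∀ w : FinitePlace L, w (D : L) = 1 → w y ≤ 1) :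
    ∃ k : ℕ, IsIntegral ℤ ((D : L) ^ k * y) := by
  have hD' : (D : L) ≠ 0 := by exact_mod_cast hD
  have hfin : {w : FinitePlace L | w (D : L) ≠ 1}.Finite := FinitePlace.hasFiniteMulSupport hD'
  have h1 : ∀ w : FinitePlace L, w (D : L) ≠ 1 → ∀ᶠ k : ℕ in Filter.atTop,
      w (D : L) ^ k * w y ≤ 1 := by
    intro w hw
    have hlt : w (D : L) < 1 := lt_of_le_of_ne (natCast_le_one w D) hw
    have h0 : 0 ≤ w (D : L) := apply_nonneg w _
    have h2 : Filter.Tendsto (fun k : ℕ => w (D : L) ^ k * w y) Filter.atTop (nhds (0 * w y)) :=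
      (tendsto_pow_atTop_nhds_zero_of_lt_one h0 hlt).mul_const _
    rw [zero_mul] at h2
    exact (h2.eventually (gt_mem_nhds one_pos)).mono fun k hk => hk.le
  have h2 : ∀ᶠ k : ℕ in Filter.atTop, ∀ w ∈ hfin.toFinset, w (D : L) ^ k * w y ≤ 1 := by
    rw [Filter.eventually_all_finset]
    intro w hw
    exact h1 w (by simpa using hw)
  obtain ⟨k, hk⟩ := h2.exists
  refine ⟨k, isIntegral_of_places fun w => ?_⟩
  rw [map_mul, map_pow]
  by_cases hw : w (D : L) = 1
  · rw [hw, one_pow, one_mul]; exact h w hw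
  · exact hk w (by simpa using hw)

section family

variable {P : Type} [Fintype P] [Nonempty P]

/-- the largest logarithm of a family at a place -/
noncomputable def mx (y : P → L) (w : FinitePlace L) : ℝ := ⨆ p, |Real.log (w (y p))|

omit [Nonempty P] in
theorem le_mx (y : P → L) (w : FinitePlace L) (p : P) : |Real.log (w (y p))| ≤ mx y w :=
  le_ciSup (f := fun p => |Real.log (w (y p))|) (Set.finite_range _).bddAbove p

theorem mx_nonneg (y : P → L) (w : FinitePlace L) : 0 ≤ mx y w :=
  (abs_nonneg _).trans (le_mx y w (Classical.arbitrary P))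

theorem mx_nat (y : P → L) (w : FinitePlace L) : ∃ k : ℕ, mx y w = k * Real.log (Nm w) := by
  obtain ⟨p, hp⟩ := exists_eq_ciSup_of_finite (f := fun p => |Real.log (w (y p))|)
  change _ = mx y w at hp
  rw [← hp]
  by_cases h0 : y p = 0
  · exact ⟨0, by simp [h0]⟩
  · obtain ⟨k, hk⟩ := Nm_pow w h0
    refine ⟨k.natAbs, ?_⟩
    have h1 : 0 ≤ Real.log (Nm w) := Real.log_nonneg (by exact_mod_cast (one_lt_Nm w).le)
    rw [hk, Real.log_zpow, abs_mul, abs_of_nonneg h1]
    congr 1
    rw [Nat.cast_natAbs]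
    push_cast
    rfl

theorem mx_fin (y : P → L) : (Function.support (mx y)).Finite := by
  have h1 : ∀ p, {w : FinitePlace L | Real.log (w (y p)) ≠ 0}.Finite := by
    intro p
    by_cases h0 : y p = 0
    · simp [h0]
    · refine (FinitePlace.hasFiniteMulSupport h0).subset ?_
      intro w hw h
      exact hw (by simp only at h ⊢; rw [h, Real.log_one])
  refine (Set.finite_iUnion h1).subset ?_
  intro w hw
  by_contra h
  simp only [Set.mem_iUnion, Set.mem_ofPred_eq, not_exists, not_not] at h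
  apply hw
  unfold mx
  simp [h]

/-- an integer making the members of a family almost units -/
theorem exists_b {D : ℕ} (hD : D ≠ 0) (y : P → L) : ∃ b : ℕ, 0 < b ∧
    Real.log b = ∑ᶠ w : FinitePlace L, (if w (D : L) = 1 then mx y w else 0) ∧
    ∀ p, y p ≠ 0 → LAlm D b (y p) := by
  classical
  set T : Finset (FinitePlace L) := (mx_fin y).toFinset.filter fun w => w (D : L) = 1 with hT
  choose k hk using mx_nat y
  set b : ℕ := ∏ w ∈ T, Nm w ^ k w with hb
  have hN : ∀ w : FinitePlace L, (0 : ℝ) < Nm w := fun w => by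
    have := one_lt_Nm w
    positivity
  have hwb : ∀ w : FinitePlace L, w (D : L) = 1 → w (b : L) ≤ Real.exp (-mx y w) := by
    intro w hw
    by_cases hwT : w ∈ T
    · rw [hb, ← Finset.mul_prod_erase _ _ hwT]
      push_cast
      rw [map_mul, map_pow]
      have h1 : w (∏ x ∈ T.erase w, (Nm x : L) ^ k x) ≤ 1 := by
        have := natCast_le_one w (∏ x ∈ T.erase w, Nm x ^ k x)
        exact_mod_cast this
      have h2 : w (Nm w : L) ^ k w ≤ ((Nm w : ℝ)⁻¹) ^ k w :=
        pow_le_pow_left₀ (apply_nonneg w _) (Nm_le w) _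
      have h3 : ((Nm w : ℝ)⁻¹) ^ k w = Real.exp (-mx y w) := by
        rw [hk w, ← mul_neg, ← Real.log_inv, ← Real.log_pow, Real.exp_log (by
          have := hN w
          positivity)]
      calc w (Nm w : L) ^ k w * w (∏ x ∈ T.erase w, (Nm x : L) ^ k x)
          ≤ w (Nm w : L) ^ k w * 1 :=
            mul_le_mul_of_nonneg_left h1 (pow_nonneg (apply_nonneg w _) _)
        _ ≤ Real.exp (-mx y w) := by rw [mul_one, ← h3]; exact h2
    · have h0 : mx y w = 0 := by
        by_contra h
        exact hwT (Finset.mem_filter.2 ⟨by simpa using h, hw⟩)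
      rw [h0, neg_zero, Real.exp_zero]
      exact natCast_le_one w b
  refine ⟨b, Finset.prod_pos fun w _ => pow_pos (by have := one_lt_Nm w; omega) _, ?_, ?_⟩
  · rw [hb]
    push_cast
    rw [Real.log_prod (fun w _ => (pow_pos (hN w) _).ne')]
    rw [finsum_eq_sum_of_support_subset (s := T)]
    · refine Finset.sum_congr rfl fun w hw => ?_
      rw [if_pos (Finset.mem_filter.1 hw).2, Real.log_pow, hk w]
    · intro w hw
      by_cases hwD : w (D : L) = 1
      · simp only [Function.mem_support, if_pos hwD] at hw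
        exact Finset.mem_coe.2 (Finset.mem_filter.2 ⟨by simpa using hw, hwD⟩)
      · simp [if_neg hwD] at hw
  · intro p hp
    refine ⟨integral_away hD fun w hw => ?_, integral_away hD fun w hw => ?_⟩
    · rw [map_mul]
      have h1 : 0 < w (y p) := FinitePlace.pos_iff.2 hp
      have h2 : w (y p) ≤ Real.exp (mx y w) := by
        rw [← Real.log_le_iff_le_exp h1]
        exact (le_abs_self _).trans (le_mx y w p)
      calc w (b : L) * w (y p) ≤ Real.exp (-mx y w) * Real.exp (mx y w) :=
            mul_le_mul (hwb w hw) h2 h1.le (Real.exp_pos _).le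
        _ = 1 := by rw [← Real.exp_add]; simp
    · rw [map_mul]
      have h1 : 0 < w (y p)⁻¹ := FinitePlace.pos_iff.2 (inv_ne_zero hp)
      have h2 : w (y p)⁻¹ ≤ Real.exp (mx y w) := by
        rw [← Real.log_le_iff_le_exp h1, map_inv₀, Real.log_inv]
        exact (neg_le_abs _).trans (le_mx y w p)
      calc w (b : L) * w (y p)⁻¹ ≤ Real.exp (-mx y w) * Real.exp (mx y w) :=
            mul_le_mul (hwb w hw) h2 h1.le (Real.exp_pos _).le
        _ = 1 := by rw [← Real.exp_add]; simp

end family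

/-- the points `0`, `1` and `x i` -/
def pts {ι : Type} (x : ι → L) : Option (Option ι) → L
  | none => 0
  | some none => 1
  | some (some i) => x i

/-- Heights of points of bounded degree on the moduli space of pointed rational curves are bounded
by the counting function of the boundary. -/
theorem main_count (r : ℕ) : ∃ N C : ℕ, ∀ D : ℕ, D ≠ 0 → ∃ A : ℝ, ∀ (L : Type w) [Field L]
    [NumberField L], finrank ℚ L ≤ r → ∀ (ι : Type) [Fintype ι], N ≤ Fintype.card ι →
    ∀ x : ι → L, Function.Injective x → (∀ i, x i ≠ 0) → (∀ i, x i ≠ 1) → ∀ i,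
    absLogHeight₁ (x i) ≤ C * ((finrank ℚ L : ℝ)⁻¹ * ∑ᶠ w : FinitePlace L,
      if w (D : L) = 1 then ⨆ p : Option (Option ι) × Option (Option ι),
        |Real.log (w (pts x p.1 - pts x p.2))| else 0) + A := by
  obtain ⟨N, C, h⟩ := main.{w} r
  refine ⟨N, C * r, fun D hD => ?_⟩
  obtain ⟨A, hA⟩ := h D hD
  refine ⟨A, ?_⟩
  intro L _ _ hr ι _ hN x hx hx0 hx1 i
  obtain ⟨b, hb0, hb, hbu⟩ := exists_b hD
    (fun p : Option (Option ι) × Option (Option ι) => pts x p.1 - pts x p.2)
  have g1 : ∀ i, LAlm D b (x i) := fun i => by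
    have := hbu (some (some i), none)
    simp only [pts, sub_zero] at this
    exact this (hx0 i)
  have g2 : ∀ i, LAlm D b (x i - 1) := fun i => by
    have := hbu (some (some i), some none)
    simp only [pts] at this
    exact this (sub_ne_zero.2 (hx1 i))
  have g3 : ∀ i j, i ≠ j → LAlm D b (x i - x j) := fun i j hij => by
    have := hbu (some (some i), some (some j))
    simp only [pts] at this
    exact this (sub_ne_zero.2 (hx.ne hij))
  have h1 := hA L hr b hb0 ι hN x hx hx0 hx1 g1 g2 g3 i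
  refine h1.trans ?_
  simp only [mx] at hb
  rw [hb]
  set s := ∑ᶠ w : FinitePlace L, (if w (D : L) = 1 then
    ⨆ p : Option (Option ι) × Option (Option ι), |Real.log (w (pts x p.1 - pts x p.2))| else 0)
    with hs
  have hs0 : 0 ≤ s := by rw [← hb]; exact Real.log_nonneg (by exact_mod_cast hb0)
  have hd : (0 : ℝ) < finrank ℚ L := by exact_mod_cast Module.finrank_pos
  have h2 : s ≤ r * ((finrank ℚ L : ℝ)⁻¹ * s) := by
    rw [← mul_assoc]
    have h3 : 1 ≤ (r : ℝ) * (finrank ℚ L : ℝ)⁻¹ := by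
      rw [← div_eq_mul_inv, le_div_iff₀ hd, one_mul]
      exact_mod_cast hr
    nlinarith
  have h3 : (C : ℝ) * s ≤ C * (r * ((finrank ℚ L : ℝ)⁻¹ * s)) :=
    mul_le_mul_of_nonneg_left h2 (by positivity)
  push_cast
  linarith

end TH951.NF
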